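import Pool.Agent.Helper33.Local

/-!
# The energy of a finite set at a place
-/

set_option autoImplicit false

open Finset Polynomial

namespace Pool.Agent.Helper93.SU

open Pool.Agent.Helper33 (DV w)

/-- the energy of a finite set at a place -/
noncomputable def Ew {K : Type*} [Field K] (v : DV K) (f : K[X]) (I : Finset K) : ℝ :=
  open Classical in ∑ x ∈ I, ∑ y ∈ I.erase x, w v f x y

end Pool.Agent.Helper93.SU
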