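import Pool.Agent.Helper93.SU.Basic
import Pool.Agent.Helper33.DVBasic

/-!
# Extension of a discrete valuation to the algebraic closure
-/

set_option autoImplicit false

open Finset Polynomial

namespace Pool.Agent.Helper93.SU

open Pool.Agent.Helper33 (DV)

section ext

variable {K : Type*} [Field K] (v : DV K)

/-- the valuation ring of `v` -/
def vring : ValuationSubring K where
  carrier := {x | x = 0 ∨ 0 ≤ v.o x}
  mul_mem' := by
    rintro x y (rfl | hx) (rfl | hy)
    · left; ring
    · left; ring
    · left; ring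
    · by_cases hx0 : x = 0
      · left; rw [hx0]; ring
      by_cases hy0 : y = 0
      · left; rw [hy0]; ring
      right
      rw [v.mul x y hx0 hy0]; omega
  one_mem' := Or.inr (by rw [v.o_one])
  add_mem' := by
    intro x y hx hy
    by_cases hx0 : x = 0
    · rw [hx0, zero_add]; exact hy
    by_cases hy0 : y = 0
    · rw [hy0, add_zero]; exact hx
    by_cases hxy : x + y = 0
    · left; exact hxy
    right
    have h1 := hx.resolve_left hx0
    have h2 := hy.resolve_left hy0
    have := v.add x y hx0 hy0 hxy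
    exact (le_min h1 h2).trans this
  zero_mem' := Or.inl rfl
  neg_mem' := by
    intro x hx
    rcases hx with rfl | hx
    · left; ring
    · right; rw [v.o_neg]; exact hx
  mem_or_inv_mem' := by
    intro x
    by_cases hx : x = 0
    · left; left; exact hx
    rcases le_total 0 (v.o x) with h | h
    · left; right; exact h
    · right; right; rw [v.o_inv x hx]; omega

lemma mem_vring {x : K} : x ∈ vring v ↔ x = 0 ∨ 0 ≤ v.o x := Iff.rfl

variable {L : Type*} [Field L] [Algebra K L]

lemma exists_val :
    ∃ B : ValuationSubring L, ∀ x y : K, x ≠ 0 → y ≠ 0 →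
      (B.valuation (algebraMap K L x) ≤ B.valuation (algebraMap K L y) ↔ v.o y ≤ v.o x) := by
  obtain ⟨B, hB, hloc⟩ := IsLocalRing.exists_factor_valuationRing
    ((algebraMap K L).comp (vring v).subtype)
  have hmem : ∀ x : K, (algebraMap K L x ∈ B ↔ x ∈ vring v) := by
    intro x
    constructor
    · intro hx
      by_contra hcon
      have hx0 : x ≠ 0 := fun h => hcon (h ▸ zero_mem _)
      have hinv : x⁻¹ ∈ vring v := ((vring v).mem_or_inv_mem x).resolve_left hcon
      -- `x⁻¹` is not a unit in the valuation ring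
      have hu : IsUnit ((((algebraMap K L).comp (vring v).subtype).codRestrict B.toSubring hB)
          ⟨x⁻¹, hinv⟩) := by
        rw [isUnit_iff_exists_inv]
        refine ⟨⟨algebraMap K L x, hx⟩, ?_⟩
        apply Subtype.ext
        change algebraMap K L x⁻¹ * algebraMap K L x = 1
        rw [← map_mul, inv_mul_cancel₀ hx0, map_one]
      have hu2 := hloc.map_nonunit _ hu
      rw [isUnit_iff_exists_inv] at hu2
      obtain ⟨⟨y, hy⟩, h⟩ := hu2
      have h2 : x⁻¹ * y = 1 := congrArg Subtype.val h
      have h3 : y = x := by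
        field_simp at h2
        exact h2
      exact hcon (h3 ▸ hy)
    · intro hx
      exact hB ⟨x, hx⟩
  refine ⟨B, ?_⟩
  intro x y hx hy
  have hy' : algebraMap K L y ≠ 0 := (_root_.map_ne_zero _).mpr hy
  have h1 : B.valuation (algebraMap K L x) ≤ B.valuation (algebraMap K L y) ↔
      B.valuation (algebraMap K L (x / y)) ≤ 1 := by
    rw [map_div₀, map_div₀, div_le_one₀]
    exact zero_lt_iff.mpr ((Valuation.ne_zero_iff _).mpr hy')
  rw [h1, ValuationSubring.valuation_le_one_iff, hmem, mem_vring]
  rw [v.o_div x y hx hy]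
  constructor
  · rintro (h | h)
    · exact absurd h (div_ne_zero hx hy)
    · omega
  · intro h; right; omega

variable [Algebra.IsAlgebraic K L]

lemma exists_pow_val (B : ValuationSubring L) (y : L) (hy : y ≠ 0) :
    ∃ n : ℕ, 0 < n ∧ ∃ c : K, c ≠ 0 ∧ B.valuation y ^ n = B.valuation (algebraMap K L c) := by
  classical
  have halg : IsAlgebraic K y := Algebra.IsAlgebraic.isAlgebraic y
  obtain ⟨P, hP0, hP⟩ := halg
  rw [aeval_eq_sum_range] at hP
  set s := P.support with hs
  have hP' : ∑ i ∈ s, algebraMap K L (P.coeff i) * y ^ i = 0 := by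
    rw [← hP]
    rw [hs]
    symm
    simp only [Algebra.smul_def]
    symm
    apply sum_subset
    · intro i hi
      rw [mem_range, Nat.lt_succ_iff]
      exact le_natDegree_of_mem_supp i hi
    · intro i _ hi
      rw [notMem_support_iff] at hi
      rw [hi, map_zero, zero_mul]
  have hne : s.Nonempty := by
    rw [hs, nonempty_iff_ne_empty, Ne, support_eq_empty]
    exact hP0
  obtain ⟨j, hj, hmax⟩ := exists_max_image s
    (fun i => B.valuation (algebraMap K L (P.coeff i) * y ^ i)) hne
  have hterm : ∀ i ∈ s, algebraMap K L (P.coeff i) * y ^ i ≠ 0 := by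
    intro i hi
    exact mul_ne_zero ((_root_.map_ne_zero _).mpr (mem_support_iff.mp hi)) (pow_ne_zero _ hy)
  -- another index attains the maximum
  obtain ⟨i, hi, hij, hval⟩ : ∃ i ∈ s, i ≠ j ∧
      B.valuation (algebraMap K L (P.coeff i) * y ^ i) =
        B.valuation (algebraMap K L (P.coeff j) * y ^ j) := by
    by_contra hcon
    push Not at hcon
    have h1 : B.valuation (∑ i ∈ s, algebraMap K L (P.coeff i) * y ^ i) =
        B.valuation (algebraMap K L (P.coeff j) * y ^ j) := by
      apply Valuation.map_sum_eq_of_lt _ hj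
      intro i hi
      rw [mem_sdiff, mem_singleton] at hi
      exact lt_of_le_of_ne (hmax i hi.1) (hcon i hi.1 hi.2)
    rw [hP', map_zero] at h1
    exact (Valuation.ne_zero_iff _).mpr (hterm j hj) h1.symm
  have hci : algebraMap K L (P.coeff i) ≠ 0 := left_ne_zero_of_mul (hterm i hi)
  have hcj : algebraMap K L (P.coeff j) ≠ 0 := left_ne_zero_of_mul (hterm j hj)
  have key : ∀ a b : ℕ, a < b → algebraMap K L (P.coeff a) ≠ 0 → algebraMap K L (P.coeff b) ≠ 0 →
      B.valuation (algebraMap K L (P.coeff a) * y ^ a) =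
        B.valuation (algebraMap K L (P.coeff b) * y ^ b) →
      ∃ n : ℕ, 0 < n ∧ ∃ c : K, c ≠ 0 ∧ B.valuation y ^ n = B.valuation (algebraMap K L c) := by
    intro a b hab ha hb h
    refine ⟨b - a, by omega, P.coeff a / P.coeff b, ?_, ?_⟩
    · apply div_ne_zero
      · intro h2; rw [h2, map_zero] at ha; exact ha rfl
      · intro h2; rw [h2, map_zero] at hb; exact hb rfl
    · rw [map_div₀, map_div₀]
      have hb' : B.valuation (algebraMap K L (P.coeff b)) ≠ 0 := (Valuation.ne_zero_iff _).mpr hb
      have hy' : B.valuation y ^ a ≠ 0 := pow_ne_zero _ ((Valuation.ne_zero_iff _).mpr hy)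
      rw [eq_div_iff hb']
      rw [map_mul, map_mul, map_pow, map_pow] at h
      have e : B.valuation y ^ b = B.valuation y ^ (b - a) * B.valuation y ^ a := by
        rw [← pow_add]; congr 1; omega
      rw [e, ← mul_assoc] at h
      have := mul_right_cancel₀ hy' h
      rw [this, mul_comm]
  rcases lt_or_gt_of_ne hij with h | h
  · exact key i j h hci hcj hval
  · exact key j i h hcj hci hval.symm

/-- **Extension of valuations.** -/
theorem exists_ext : ∃ u : RV L, ∀ x : K, x ≠ 0 → u.o (algebraMap K L x) = v.o x := by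
  classical
  obtain ⟨B, hB⟩ := exists_val v (L := L)
  have hex : ∀ y : L, y ≠ 0 → ∃ n : ℕ, 0 < n ∧ ∃ c : K, c ≠ 0 ∧
      B.valuation y ^ n = B.valuation (algebraMap K L c) := fun y hy => exists_pow_val B y hy
  choose! n hn c hc hval using hex
  -- comparison
  have hcmp : ∀ (a b : ℕ) (x y : L) (cx cy : K), 0 < a → 0 < b → x ≠ 0 → y ≠ 0 → cx ≠ 0 → cy ≠ 0 →
      B.valuation x ^ a = B.valuation (algebraMap K L cx) →
      B.valuation y ^ b = B.valuation (algebraMap K L cy) →
      B.valuation x ≤ B.valuation y → (v.o cy : ℝ) / b ≤ (v.o cx : ℝ) / a := by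
    intro a b x y cx cy ha hb hx hy hcx hcy h1 h2 h3
    have ha0 : (0 : ℝ) < a := by exact_mod_cast ha
    have hb0 : (0 : ℝ) < b := by exact_mod_cast hb
    have h4 : B.valuation x ^ (a * b) ≤ B.valuation y ^ (a * b) := pow_le_pow_left' h3 _
    have h5 : B.valuation x ^ (a * b) = B.valuation (algebraMap K L (cx ^ b)) := by
      rw [pow_mul, h1, map_pow, map_pow]
    have h6 : B.valuation y ^ (a * b) = B.valuation (algebraMap K L (cy ^ a)) := by
      rw [mul_comm, pow_mul, h2, map_pow, map_pow]
    rw [h5, h6, hB _ _ (pow_ne_zero _ hcx) (pow_ne_zero _ hcy), v.o_pow cy hcy, v.o_pow cx hcx] at h4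
    rw [div_le_div_iff₀ hb0 ha0]
    have h7 : ((a * v.o cy : ℤ) : ℝ) ≤ ((b * v.o cx : ℤ) : ℝ) := by exact_mod_cast h4
    push_cast at h7
    linarith
  have hdef : ∀ (a : ℕ) (x : L) (cx : K), 0 < a → x ≠ 0 → cx ≠ 0 →
      B.valuation x ^ a = B.valuation (algebraMap K L cx) →
      (v.o (c x) : ℝ) / n x = (v.o cx : ℝ) / a := by
    intro a x cx ha hx hcx h1
    apply le_antisymm
    · exact hcmp a (n x) x x cx (c x) ha (hn x hx) hx hx hcx (hc x hx) h1 (hval x hx) le_rfl
    · exact hcmp (n x) a x x (c x) cx (hn x hx) ha hx hx (hc x hx) hcx (hval x hx) h1 le_rfl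
  refine ⟨⟨fun x => (v.o (c x) : ℝ) / n x, ?_, ?_⟩, ?_⟩
  · intro x y hx hy
    rw [hdef (n x * n y) (x * y) (c x ^ n y * c y ^ n x) (Nat.mul_pos (hn x hx) (hn y hy))
      (mul_ne_zero hx hy) (mul_ne_zero (pow_ne_zero _ (hc x hx)) (pow_ne_zero _ (hc y hy))) (by
        rw [map_mul, mul_pow, pow_mul, hval x hx, mul_comm (n x) (n y), pow_mul, hval y hy]
        simp only [map_mul, map_pow])]
    rw [v.mul _ _ (pow_ne_zero _ (hc x hx)) (pow_ne_zero _ (hc y hy)), v.o_pow _ (hc x hx),
      v.o_pow _ (hc y hy)]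
    have h1 : (0 : ℝ) < n x := by exact_mod_cast hn x hx
    have h2 : (0 : ℝ) < n y := by exact_mod_cast hn y hy
    push_cast
    field_simp
  · intro x y hx hy hxy
    rcases le_total (B.valuation x) (B.valuation y) with h | h
    · refine (min_le_right _ _).trans ?_
      refine hcmp _ _ (x + y) y _ _ (hn _ hxy) (hn y hy) hxy hy (hc _ hxy) (hc y hy)
        (hval _ hxy) (hval y hy) ?_
      exact (B.valuation.map_add x y).trans (max_le h le_rfl)
    · refine (min_le_left _ _).trans ?_
      refine hcmp _ _ (x + y) x _ _ (hn _ hxy) (hn x hx) hxy hx (hc _ hxy) (hc x hx)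
        (hval _ hxy) (hval x hx) ?_
      exact (B.valuation.map_add x y).trans (max_le le_rfl h)
  · intro x hx
    simp only
    rw [hdef 1 (algebraMap K L x) x one_pos ((_root_.map_ne_zero _).mpr hx) hx (pow_one _)]
    simp

end ext

end Pool.Agent.Helper93.SU
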