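import Mathlib
import Pool.Agent.Helper33.Eps

/-!
# A primitive element which is a linear combination with constant coefficients, and poles of
coefficients
-/

set_option autoImplicit false

open Polynomial

namespace Pool.Agent.Helper93.SU

open Pool.Agent.Helper33

theorem exists_primitive_span (k : Type*) {F E : Type*} [Field k] [Infinite k] [Field F] [Field E]
    [Algebra k F] [Algebra F E] [Algebra k E] [IsScalarTower k F E] [FiniteDimensional F E]
    [Algebra.IsSeparable F E] (s : Set E) (hs : IntermediateField.adjoin F s = ⊤) :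
    ∃ u ∈ Submodule.span k s, IntermediateField.adjoin F {u} = ⊤ := by
  classical
  haveI hfin : Finite (IntermediateField F E) :=
    Field.finite_intermediateField_of_exists_primitive_element F E
      (Field.exists_primitive_element F E)
  set W := Submodule.span k s with hW
  by_contra hcon
  push Not at hcon
  let p : {M : IntermediateField F E // M ≠ ⊤} → Subspace k W := fun M =>
    ((Subalgebra.toSubmodule M.1.toSubalgebra).restrictScalars k).comap W.subtype
  have hcov : ⋃ i, (p i : Set W) = Set.univ := by
    rw [Set.eq_univ_iff_forall]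
    intro u
    rw [Set.mem_iUnion]
    refine ⟨⟨IntermediateField.adjoin F {(u : E)}, hcon u u.2⟩, ?_⟩
    change (u : E) ∈ IntermediateField.adjoin F {(u : E)}
    exact IntermediateField.mem_adjoin_simple_self F _
  obtain ⟨⟨M, hM⟩, hMtop⟩ := Subspace.exists_eq_top_of_iUnion_eq_univ hcov
  apply hM
  rw [eq_top_iff, ← hs, IntermediateField.adjoin_le_iff]
  intro x hx
  have hxW : x ∈ W := Submodule.subset_span hx
  have h1 : (⟨x, hxW⟩ : W) ∈ p ⟨M, hM⟩ := by
    rw [hMtop]; exact Submodule.mem_top
  exact h1

section pole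

variable {K : Type*} [Field K]

/-- poles of the coefficients in the coordinate in which two points of the orbit are `0, 1` -/
lemma coeff_ge {v : DV K} {g : K[X]} (hd : 2 ≤ g.natDegree) {X : Finset K}
    (hX : ∀ x ∈ X, g.eval x ∈ X) (h0 : (0 : K) ∈ X) (h1 : (1 : K) ∈ X) (he : g.eval 0 = 1) (j : ℕ) :
    v.ge (-(((g.natDegree : ℝ) - 1) * (eps v g X : ℝ))) (g.coeff j) := by
  have hdr : (2 : ℝ) ≤ g.natDegree := by exact_mod_cast hd
  have hα := alpha_eq v g hd
  have hε : (0 : ℝ) ≤ (eps v g X : ℝ) := NNReal.coe_nonneg _
  have hw := w_ge_neg_eps (v := v) hd hX h1 h0 one_ne_zero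
  unfold w at hw
  rw [sub_zero, DV.o_one, Int.cast_zero, zero_add] at hw
  have htc : ∀ i, tc g 0 i = g.coeff i := by
    intro i
    unfold tc
    rw [taylor_zero]
  rcases Nat.eq_zero_or_pos j with rfl | hj0
  · right
    have : g.coeff 0 = 1 := by rw [coeff_zero_eq_eval_zero, he]
    rw [this, DV.o_one, Int.cast_zero]
    nlinarith
  rcases lt_trichotomy j g.natDegree with hj | hj | hj
  · have h2 := (epsLe_eps v g h0).2 j hj0 hj
    rw [htc] at h2
    refine DV.ge_mono h2 ?_
    have hj1 : (1 : ℝ) ≤ j := by exact_mod_cast hj0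
    have hjd : (j : ℝ) + 1 ≤ g.natDegree := by exact_mod_cast hj
    rw [hα]
    nlinarith
  · right
    rw [hj]
    change _ ≤ ((v.o g.leadingCoeff : ℤ) : ℝ)
    rw [hα]
    nlinarith
  · left
    exact coeff_eq_zero_of_natDegree_lt hj

/-- linear combinations with constant coefficients -/
lemma ge_of_mem_span {k : Type*} [Field k] [Algebra k K] {v : DV K}
    (hconst : ∀ c : k, c ≠ 0 → v.o (algebraMap k K c) = 0) {s : Set K} {c : ℝ}
    (hs : ∀ x ∈ s, v.ge c x) {u : K} (hu : u ∈ Submodule.span k s) : v.ge c u := by
  induction hu using Submodule.span_induction with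
  | mem x hx => exact hs x hx
  | zero => exact DV.ge_zero c
  | add x y _ _ hx hy => exact DV.ge_add hx hy
  | smul a x _ hx =>
    by_cases ha : a = 0
    · rw [ha, zero_smul]; exact DV.ge_zero c
    · rw [Algebra.smul_def]
      have h1 : v.ge 0 (algebraMap k K a) := by
        right
        rw [hconst a ha, Int.cast_zero]
      have := DV.ge_mul h1 hx
      rwa [zero_add] at this

end pole

end Pool.Agent.Helper93.SU
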