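import Pool.Agent.Helper88.PolyFinal

/-!
# Bounded total badness and a long orbit force constancy (uniform version)

This is `Pool.Agent.Helper33.UB.const_of_small` of helper88, with a bound independent of the place
system.
-/

set_option autoImplicit false

open Polynomial

namespace Pool.Agent.Helper93.SU

open Pool.Agent.Helper33 Pool.Agent.Helper33.UB

/-- **Bounded total `ε` and a long orbit force constancy.** -/
theorem const_of_small_unif (d : ℕ) (hd : 2 ≤ d) (H0 : ℝ) :
    ∃ N0 : ℕ, ∀ {k K V : Type*} [Field k] [Field K] [Algebra k K] (P : PSys k K V) (f : K[X]),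
      f.natDegree = d → ∀ (x : ℕ → K) (N : ℕ), N0 ≤ N →
      ∀ h : Orbit f x N, ∀ T : Finset V, Adm0 P f h.X T →
      ∑ v ∈ T, (eps (P.pl v) f h.X : ℝ) ≤ H0 →
      ∀ i, ∃ c : k, algebraMap k K c = (conj f (x 0) (x 1)).coeff i := by
  classical
  set s : ℕ := ⌊(d : ℝ) ^ 2 * H0⌋₊ with hs
  refine ⟨(d ^ 2) ^ s + d + 1, ?_⟩
  intro k K V _ _ _ P f hfd x N hN h T hT hsum
  subst hfd
  have hdr : (2 : ℝ) ≤ f.natDegree := by exact_mod_cast hd
  have hX := h.X_inv
  -- bad places
  set S : Finset V := T.filter fun v => 0 < eps (P.pl v) f h.X with hS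
  have hScard : S.card ≤ s := by
    rw [hs]
    apply Nat.le_floor
    have h1 : (S.card : ℝ) * (1 / (f.natDegree : ℝ) ^ 2) ≤ H0 := by
      calc (S.card : ℝ) * (1 / (f.natDegree : ℝ) ^ 2) = ∑ v ∈ S, (1 / (f.natDegree : ℝ) ^ 2) := by
            rw [Finset.sum_const, nsmul_eq_mul]
        _ ≤ ∑ v ∈ S, (eps (P.pl v) f h.X : ℝ) :=
            Finset.sum_le_sum fun v hv => eps_disc hd (Finset.mem_filter.mp hv).2
        _ ≤ ∑ v ∈ T, (eps (P.pl v) f h.X : ℝ) :=
            Finset.sum_le_sum_of_subset_of_nonneg (Finset.filter_subset _ _)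
              fun _ _ _ => NNReal.coe_nonneg _
        _ ≤ H0 := hsum
    rw [mul_one_div, div_le_iff₀ (by positivity)] at h1
    linarith
  -- two close points
  have hclose : ∃ a ∈ h.X, ∃ b ∈ h.X, a ≠ b ∧ ∀ v ∈ S, 0 < w (P.pl v) f a b := by
    have hcl : ∀ v ∈ S, ∃ (u : Finset K) (g : K → K), u.card ≤ f.natDegree ^ 2 ∧
        (∀ x ∈ h.X, g x ∈ u) ∧
        ∀ x ∈ h.X, ∀ y ∈ h.X, g x = g y → x ≠ y → 0 < w (P.pl v) f x y := by
      intro v hv
      exact exists_classes hd hX (Finset.mem_filter.mp hv).2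
    choose! u g hu1 hu2 hu3 using hcl
    have hcard : (S.pi u).card < (Finset.range (N + 1)).card := by
      rw [Finset.card_pi, Finset.card_range]
      calc ∏ v ∈ S, (u v).card ≤ ∏ v ∈ S, f.natDegree ^ 2 :=
            Finset.prod_le_prod' fun v hv => hu1 v hv
        _ = (f.natDegree ^ 2) ^ S.card := by rw [Finset.prod_const]
        _ ≤ (f.natDegree ^ 2) ^ s := Nat.pow_le_pow_right (by positivity) hScard
        _ < N + 1 := by omega
    obtain ⟨i, hi, j, hj, hij, he⟩ := Finset.exists_ne_map_eq_of_card_lt_of_maps_to hcard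
      (f := fun i => fun v (_ : v ∈ S) => g v (x i)) (by
        intro i _
        rw [Finset.mem_coe, Finset.mem_pi]
        intro v hv
        exact hu2 v hv _ (h.mem_X i))
    rw [Finset.mem_range] at hi hj
    have hne : x i ≠ x j := fun e => hij (h.inj i j (by omega) (by omega) e)
    refine ⟨x i, h.mem_X i, x j, h.mem_X j, hne, ?_⟩
    intro v hv
    apply hu3 v hv _ (h.mem_X i) _ (h.mem_X j) _ hne
    exact congrFun (congrFun he v) hv
  -- no bad place
  have hgood : ∀ v ∈ T, (eps (P.pl v) f h.X : ℝ) = 0 := by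
    obtain ⟨a, ha, b, hb, hab, hw⟩ := hclose
    by_contra hcon
    push Not at hcon
    obtain ⟨v0, hv0, hv0e⟩ := hcon
    have hv0S : v0 ∈ S := by
      rw [hS, Finset.mem_filter]
      refine ⟨hv0, pos_iff_ne_zero.mpr ?_⟩
      intro e
      exact hv0e (by rw [e]; simp)
    have hnonneg : ∀ v ∈ T, 0 ≤ w (P.pl v) f a b := by
      intro v hv
      by_cases hvS : v ∈ S
      · exact (hw v hvS).le
      · have h1 := w_ge_neg_eps (v := P.pl v) hd hX ha hb hab
        have h2 : eps (P.pl v) f h.X = 0 := by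
          by_contra e
          exact hvS (Finset.mem_filter.mpr ⟨hv, pos_iff_ne_zero.mpr e⟩)
        rw [h2] at h1
        simpa using h1
    have h3 := Finset.sum_pos' hnonneg ⟨v0, hv0, hw v0 hv0S⟩
    rw [hT.sum_w0 hd ha hb hab] at h3
    exact lt_irrefl _ h3
  have hw0 : ∀ v ∈ T, ∀ a ∈ h.X, ∀ b ∈ h.X, a ≠ b → w (P.pl v) f a b = 0 := by
    intro v hv a ha b hb hab
    have hnonneg : ∀ v ∈ T, 0 ≤ w (P.pl v) f a b := by
      intro v hv
      have h1 := w_ge_neg_eps (v := P.pl v) hd hX ha hb hab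
      rw [hgood v hv] at h1
      simpa using h1
    exact (Finset.sum_eq_zero_iff_of_nonneg hnonneg).mp (hT.sum_w0 hd ha hb hab) v hv
  have h10 : x 1 ≠ x 0 := by
    intro e
    have := h.inj 1 0 (by omega) (by omega) e
    omega
  have hdeg : (conj f (x 0) (x 1)).natDegree = f.natDegree := conj_natDegree f (by omega) h10
  apply coeff_const_of_interp (k := k) (y := fun i => (x i - x 0) / (x 1 - x 0))
  · intro i j hi hj hij
    rw [hdeg] at hi hj
    apply h.inj i j (by omega) (by omega)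
    rw [div_left_inj' (sub_ne_zero.mpr h10)] at hij
    exact sub_left_injective hij
  · intro i
    rw [conj_eval f h10, h.step i]
  · intro i
    exact const_of_w_zero P hT hw0 (h.mem_X 0) (h.mem_X 1) h10 (h.mem_X i)

end Pool.Agent.Helper93.SU
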