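import Pool.Agent.Helper93.SU.Window
import Pool.Agent.Helper93.SU.Small
import Pool.Agent.Helper93.SU.Prim
import Pool.Agent.Helper45.FieldRed0

/-!
# Assembly: from place systems to long orbits over function fields of bounded degree
-/

set_option autoImplicit false
set_option linter.style.haveILetI false

open Polynomial IntermediateField

namespace Pool.Agent.Helper93.SU

open Pool.Agent.Helper33 Pool.Agent.Helper33.UB

/-- lower bound for the energy at a place of badness `> 0` -/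
def TransLe (d : ℕ) : Prop := ∀ δ : ℝ, 0 < δ → ∃ N0 : ℕ, ∀ (K : Type) [Field K] (v : DV K) (f : K[X]),
  f.natDegree = d → ∀ X : Finset K, (∀ x ∈ X, f.eval x ∈ X) → 0 < eps v f X →
  ∀ I : Finset K, I ⊆ X → N0 ≤ I.card →
    -(δ * (I.card : ℝ) ^ 2 * (eps v f X : ℝ)) ≤ Ew v f I

/-- small energy forces close pairs -/
def TransSt (d : ℕ) : Prop := ∀ A κ : ℝ, 0 < κ → ∃ δ : ℝ, 0 < δ ∧ ∃ N0 : ℕ,
  ∀ (K : Type) [Field K] (v : DV K), (∀ n : ℕ, n ≠ 0 → n ≤ d → (n : K) ≠ 0 ∧ v.o (n : K) = 0) →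
  ∀ f : K[X], f.natDegree = d → ∀ X : Finset K, (∀ x ∈ X, f.eval x ∈ X) → 0 < eps v f X →
  ∀ I : Finset K, I ⊆ X → N0 ≤ I.card → Ew v f I ≤ δ * (I.card : ℝ) ^ 2 * (eps v f X : ℝ) →
  ∀ s : Finset K, s ⊆ I → κ * (I.card : ℝ) < s.card →
    ∃ x ∈ s, ∃ y ∈ s, x ≠ y ∧ A * (eps v f X : ℝ) ≤ w v f x y

/-- **The main inequality for place systems.** -/
theorem psys_ineq (d : ℕ) (hd : 2 ≤ d) (hle : TransLe d) (hst : TransSt d) (B : ℝ) (hB : 0 ≤ B) :
    ∃ N : ℕ, ∀ (k K V : Type) [Field k] [Field K] [Algebra k K] (P : PSys k K V)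
      (_ : ∀ y, P.D y = 0 → ∃ c : k, algebraMap k K c = y)
      (_ : ∀ v, ∀ c : k, c ≠ 0 → (P.pl v).o (algebraMap k K c) = 0)
      (_ : ∀ n : ℕ, n ≠ 0 → n ≤ d → (n : k) ≠ 0)
      (f : K[X]) (_ : f.natDegree = d) (x : ℕ → K) (N' : ℕ) (_ : N ≤ N') (h : Orbit f x N')
      (T : Finset V) (_ : Adm0 P f h.X T),
      B * ∑ v ∈ T, (eps (P.pl v) f h.X : ℝ) ≤ P.E := by
  classical
  set A : ℝ := 6 * B + 6 * ((d : ℝ) ^ 2 + d) + 1 with hA
  have hA1 : 1 ≤ A := by
    have : 0 ≤ 6 * B + 6 * ((d : ℝ) ^ 2 + d) := by positivity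
    rw [hA]; linarith
  obtain ⟨δ, hδ, N1, h1⟩ := hst A (1 / 4) (by norm_num)
  obtain ⟨N2, h2⟩ := hle (δ / 2) (by positivity)
  set r := N1 + N2 + 1 with hr
  refine ⟨(nY d r + r + 1) + (nY d r + r + 1).factorial, ?_⟩
  intro k K V _ _ _ P hker hconst hchar f hfd x N' hN' h T hT
  have hloc : ∀ v ∈ T, ∀ I ⊆ h.X, I.card = 2 * (r + 1) → LocHyp (P.pl v) f h.X I A δ := by
    intro v _ I hI hcard
    refine ⟨?_, ?_⟩
    · intro hpos
      exact h2 K (P.pl v) f hfd h.X h.X_inv hpos I hI (by omega)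
    · intro hpos hE s hs hsc
      refine h1 K (P.pl v) ?_ f hfd h.X h.X_inv hpos I hI (by omega) hE s hs hsc
      intro n hn hnd
      have h3 : ((n : k) : k) ≠ 0 := hchar n hn hnd
      constructor
      · rw [← map_natCast (algebraMap k K)]
        exact (_root_.map_ne_zero _).mpr h3
      · rw [← map_natCast (algebraMap k K)]
        exact hconst v _ h3
  have h4 := window (P := P) (by rw [hfd]; exact hd) h hT hker hconst (r := r) (by omega)
    (by rw [hfd]; exact hN') hA1 hδ hloc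
  rw [hfd] at h4
  have h5 : (A - 1) / 3 - 2 * ((d : ℝ) ^ 2 + d) = 2 * B := by rw [hA]; ring
  rw [h5] at h4
  linarith

/-- the uniform bound for the error term of place systems -/
def PsysBound (n : ℕ) : Prop := ∃ C1 C2 : ℕ, ∀ (k L : Type) [Field k] [IsAlgClosed k] [CharZero k]
  [Field L] [Algebra k L] (t u : L), Transcendental k t → FiniteDimensional k⟮t⟯ L →
  Module.finrank k⟮t⟯ L ≤ n → u ≠ 0 → IntermediateField.adjoin k⟮t⟯ {u} = ⊤ →
  ∃ (V : Type) (P : PSys k L V), (∀ y, P.D y = 0 → ∃ c : k, algebraMap k L c = y) ∧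
    ∀ T : Finset V, (∀ v, v ∉ T → 0 ≤ (P.pl v).o u) →
      (P.E : ℤ) ≤ C1 + C2 * ∑ v ∈ T, max 0 (-(P.pl v).o u)

section sub

variable {k L : Type*} [Field k] [Field L] [Algebra k L]

lemma finrank_sub_le (E : IntermediateField k L) (t : E) [FiniteDimensional k⟮(t : L)⟯ L] :
    FiniteDimensional k⟮t⟯ E ∧ Module.finrank k⟮t⟯ E ≤ Module.finrank k⟮(t : L)⟯ L := by
  let i : k⟮t⟯ ≃ₐ[k] k⟮(t : L)⟯ :=
    (liftAlgEquiv k⟮t⟯).trans (IntermediateField.equivOfEq (lift_adjoin_simple k E t))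
  have hi : ∀ z : k⟮t⟯, ((i z : k⟮(t : L)⟯) : L) = ((z : E) : L) := fun z => rfl
  have h1 : Module.rank k⟮t⟯ E ≤ Module.rank k⟮(t : L)⟯ L := by
    refine _root_.Algebra.rank_le_of_surjective_injective (i : k⟮t⟯ →+* k⟮(t : L)⟯) (algebraMap E L)
      i.surjective (algebraMap E L).injective ?_
    ext z
    exact hi z
  have h2 : Module.rank k⟮t⟯ E < Cardinal.aleph0 :=
    lt_of_le_of_lt h1 (Module.rank_lt_aleph0 k⟮(t : L)⟯ L)
  refine ⟨Module.rank_lt_aleph0_iff.mp h2, ?_⟩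
  exact Cardinal.toNat_le_toNat h1 (Module.rank_lt_aleph0 k⟮(t : L)⟯ L)

lemma adjoin_preimage (S : Set L) :
    IntermediateField.adjoin k {z : IntermediateField.adjoin k S | (z : L) ∈ S} = ⊤ := by
  apply lift_injective
  rw [lift_top, lift_adjoin]
  congr 1
  ext z
  constructor
  · rintro ⟨w, hw, rfl⟩
    exact hw
  · intro hz
    exact ⟨⟨z, subset_adjoin k S hz⟩, hz, rfl⟩

end sub

/-- **Long orbits over function fields of bounded degree are constant.** -/
theorem abs_bound (d : ℕ) (hd : 2 ≤ d) (hle : TransLe d) (hst : TransSt d) (n : ℕ)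
    (hE : PsysBound n) :
    ∃ N : ℕ, ∀ (k L : Type) [Field k] [IsAlgClosed k] [CharZero k] [Field L] [Algebra k L] (t : L),
      Transcendental k t → FiniteDimensional k⟮t⟯ L → Module.finrank k⟮t⟯ L ≤ n →
      ∀ f : L[X], f.natDegree = d → ∀ (x : ℕ → L) (N' : ℕ), N ≤ N' → Orbit f x N' →
      ∀ i, ∃ c : k, algebraMap k L c = (conj f (x 0) (x 1)).coeff i := by
  classical
  obtain ⟨C1, C2, hE⟩ := hE
  obtain ⟨N1, hN1⟩ := psys_ineq d hd hle hst (C2 * ((d : ℝ) - 1) + 1) (by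
    have : (2 : ℝ) ≤ d := by exact_mod_cast hd
    have : 0 ≤ (C2 : ℝ) * ((d : ℝ) - 1) := mul_nonneg (Nat.cast_nonneg _) (by linarith)
    linarith)
  obtain ⟨N2, hN2⟩ := const_of_small_unif d hd C1
  refine ⟨N1 + N2 + 1, ?_⟩
  intro k L _ _ _ _ _ t ht hfin hn f hfd x N' hN' hx
  have hdr : (2 : ℝ) ≤ d := by exact_mod_cast hd
  have hne : x 1 ≠ x 0 := by
    intro he
    have := hx.inj 1 0 (by omega) (by omega) he
    omega
  set g : L[X] := conj f (x 0) (x 1) with hg
  have hgd : g.natDegree = d := by rw [hg, conj_natDegree f (by omega) hne, hfd]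
  set y : ℕ → L := fun i => (x i - x 0) / (x 1 - x 0) with hy
  have hyo : Orbit g y N' := hx.conj hne
  have hy0 : y 0 = 0 := by rw [hy]; simp
  have hy1 : y 1 = 1 := by rw [hy]; exact div_self (sub_ne_zero.mpr hne)
  -- the subfield generated by `t` and the coefficients
  set S : Set L := insert t (Set.range g.coeff) with hS
  set L' : IntermediateField k L := IntermediateField.adjoin k S with hL'
  have htL : t ∈ L' := subset_adjoin k S (Set.mem_insert _ _)
  have hcL : ∀ i, g.coeff i ∈ L' := fun i => subset_adjoin k S (Set.mem_insert_of_mem _ ⟨i, rfl⟩)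
  set t' : L' := ⟨t, htL⟩ with ht'
  have htt : Transcendental k t' := by
    intro h
    apply ht
    exact (h.algebraMap : IsAlgebraic k (algebraMap L' L t'))
  haveI : FiniteDimensional k⟮(t' : L)⟯ L := hfin
  obtain ⟨hfin', hn'⟩ := finrank_sub_le L' t'
  haveI := hfin'
  haveI : CharZero k⟮t'⟯ := charZero_of_injective_algebraMap (algebraMap k k⟮t'⟯).injective
  haveI : Algebra.IsAlgebraic k⟮t'⟯ L' := Algebra.IsAlgebraic.of_finite _ _
  haveI : Algebra.IsSeparable k⟮t'⟯ L' := inferInstance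
  -- descend the polynomial and the orbit
  obtain ⟨g', hg'⟩ : ∃ g' : L'[X], g'.map (algebraMap L' L) = g := by
    have : g ∈ lifts (algebraMap L' L) := by
      rw [lifts_iff_coeff_lifts]
      intro i
      exact ⟨⟨g.coeff i, hcL i⟩, rfl⟩
    obtain ⟨F, hF⟩ := (mem_lifts _).mp this
    exact ⟨F, hF⟩
  have hg'd : g'.natDegree = d := by rw [← hgd, ← hg', natDegree_map]
  have hg'c : ∀ i, ((g'.coeff i : L') : L) = g.coeff i := by
    intro i
    rw [← hg', coeff_map]
    rfl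
  have hev : ∀ z : L', ((g'.eval z : L') : L) = g.eval (z : L) := by
    intro z
    rw [← hg']
    exact (eval_map_apply (algebraMap L' L) z).symm
  have hyL : ∀ i, y i ∈ L' := by
    intro i
    induction i with
    | zero => rw [hy0]; exact zero_mem _
    | succ i ih =>
      rw [hyo.step i]
      have := hev ⟨y i, ih⟩
      rw [← this]
      exact (g'.eval _).2
  set y' : ℕ → L' := fun i => ⟨y i, hyL i⟩ with hy'
  have hyo' : Orbit g' y' N' := by
    refine ⟨?_, ?_, ?_⟩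
    · intro i
      apply Subtype.ext
      rw [hev]
      exact hyo.step i
    · intro i j hi hj hij
      exact hyo.inj i j hi hj (congrArg Subtype.val hij)
    · apply Set.Finite.of_finite_image (f := fun z : L' => (z : L))
      · refine hyo.fin.subset ?_
        rintro _ ⟨_, ⟨i, rfl⟩, rfl⟩
        exact ⟨i, rfl⟩
      · exact Subtype.val_injective.injOn
  have hy0' : y' 0 = 0 := Subtype.ext hy0
  have hy1' : y' 1 = 1 := Subtype.ext hy1
  -- generators
  have hgen : IntermediateField.adjoin k⟮t'⟯ (Set.range g'.coeff) = ⊤ := by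
    have h1 := adjoin_preimage (k := k) S
    have h2 : {z : IntermediateField.adjoin k S | (z : L) ∈ S} = {t'} ∪ Set.range g'.coeff := by
      ext z
      simp only [Set.mem_setOf_eq, hS, Set.mem_insert_iff, Set.mem_range, Set.mem_union,
        Set.mem_singleton_iff]
      constructor
      · rintro (h | ⟨i, hi⟩)
        · left; exact Subtype.ext h
        · right; exact ⟨i, Subtype.ext (by rw [hg'c, hi])⟩
      · rintro (h | ⟨i, hi⟩)
        · left; rw [h]
        · right; exact ⟨i, by rw [← hi, hg'c]⟩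
    rw [h2, ← adjoin_adjoin_left] at h1
    exact (restrictScalars_eq_top_iff).mp h1
  obtain ⟨u0, hu0, hu0'⟩ := exists_primitive_span k (Set.range g'.coeff) hgen
  -- make it nonzero
  obtain ⟨u, hu, hu', hune⟩ : ∃ u ∈ Submodule.span k (insert 1 (Set.range g'.coeff)),
      IntermediateField.adjoin k⟮t'⟯ {u} = ⊤ ∧ u ≠ 0 := by
    by_cases h0 : u0 = 0
    · refine ⟨1, Submodule.subset_span (Set.mem_insert _ _), ?_, one_ne_zero⟩
      rw [← hu0', h0]
      simp
    · exact ⟨u0, Submodule.span_mono (Set.subset_insert _ _) hu0, hu0', h0⟩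
  obtain ⟨V, P, hker, hPE⟩ := hE k L' t' u htt hfin' (hn'.trans hn) hune hu'
  have hconst : ∀ v, ∀ c : k, c ≠ 0 → (P.pl v).o (algebraMap k L' c) = 0 :=
    fun v c hc => const_ord P v c hc
  -- the relevant places
  obtain ⟨T0, hT0⟩ := exists_adm0 P (f := g') (by omega) hyo'.X
  set T := T0 ∪ (P.ord_finite u hune).toFinset with hT
  have hTadm : Adm0 P g' hyo'.X T := hT0.mono Finset.subset_union_left
  have hTu : ∀ v, v ∉ T → (P.pl v).o u = 0 := by
    intro v hv
    rw [hT, Finset.mem_union, not_or] at hv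
    have := hv.2
    rw [Set.Finite.mem_toFinset] at this
    simpa using this
  have h1 := hN1 k L' V P hker hconst (fun n hn _ => Nat.cast_ne_zero.mpr hn) g' hg'd y' N'
    (by omega) hyo' T hTadm
  have h2 := hPE T (fun v hv => (hTu v hv).ge)
  have h3 : ((P.E : ℤ) : ℝ) ≤ ((C1 + C2 * ∑ v ∈ T, max 0 (-(P.pl v).o u) : ℤ) : ℝ) := by
    exact_mod_cast h2
  push_cast at h3
  have h4 : ∀ v ∈ T, max 0 (-((P.pl v).o u : ℝ)) ≤ ((d : ℝ) - 1) * (eps (P.pl v) g' hyo'.X : ℝ) := by
    intro v _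
    have hε : (0 : ℝ) ≤ (eps (P.pl v) g' hyo'.X : ℝ) := NNReal.coe_nonneg _
    have hnn : 0 ≤ ((d : ℝ) - 1) * (eps (P.pl v) g' hyo'.X : ℝ) := mul_nonneg (by linarith) hε
    apply max_le hnn
    have h5 : (P.pl v).ge (-(((d : ℝ) - 1) * (eps (P.pl v) g' hyo'.X : ℝ))) u := by
      apply ge_of_mem_span (hconst v) _ hu
      intro z hz
      rcases Set.mem_insert_iff.mp hz with rfl | ⟨j, rfl⟩
      · right
        rw [DV.o_one, Int.cast_zero]
        linarith
      · have := coeff_ge (v := P.pl v) (g := g') (by omega) hyo'.X_inv (by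
          have := hyo'.mem_X 0
          rwa [hy0'] at this) (by
          have := hyo'.mem_X 1
          rwa [hy1'] at this) (by
          have := hyo'.step 0
          rw [hy0'] at this
          rw [← this, zero_add, hy1']) j
        rwa [hg'd] at this
    have := DV.ge_le h5 hune
    linarith
  have h5 := Finset.sum_le_sum h4
  rw [← Finset.mul_sum] at h5
  have h6 : ∑ v ∈ T, (eps (P.pl v) g' hyo'.X : ℝ) ≤ C1 := by
    have h7 : (C2 : ℝ) * ∑ v ∈ T, max 0 (-((P.pl v).o u : ℝ)) ≤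
        C2 * (((d : ℝ) - 1) * ∑ v ∈ T, (eps (P.pl v) g' hyo'.X : ℝ)) :=
      mul_le_mul_of_nonneg_left h5 (Nat.cast_nonneg _)
    nlinarith
  have h7 := hN2 P g' hg'd y' N' (by omega) hyo' T hTadm h6
  intro i
  obtain ⟨c, hc⟩ := h7 i
  refine ⟨c, ?_⟩
  have h8 : conj g' (y' 0) (y' 1) = g' := by
    rw [hy0', hy1']
    unfold conj
    simp
  rw [h8] at hc
  rw [← hg'c i, ← hc]
  rfl

end Pool.Agent.Helper93.SU
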