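import Mathlib

/-!
# Real valuations, truncations, and the Gauss norm formula
-/

set_option autoImplicit false

open Finset Polynomial

namespace Pool.Agent.Helper93.SU

/-- A real valued valuation (junk value at `0`). -/
structure RV (M : Type*) [Field M] where
  /-- the valuation -/
  o : M → ℝ
  mul : ∀ x y : M, x ≠ 0 → y ≠ 0 → o (x * y) = o x + o y
  add : ∀ x y : M, x ≠ 0 → y ≠ 0 → x + y ≠ 0 → min (o x) (o y) ≤ o (x + y)

variable {M : Type*} [Field M] (v : RV M)

namespace RV

lemma o_one : v.o 1 = 0 := by
  have := v.mul 1 1 one_ne_zero one_ne_zero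
  rw [mul_one] at this
  linarith

lemma o_neg_one : v.o (-1) = 0 := by
  have h := v.mul (-1) (-1) (neg_ne_zero.mpr one_ne_zero) (neg_ne_zero.mpr one_ne_zero)
  rw [neg_mul_neg, mul_one, v.o_one] at h
  linarith

lemma o_neg (x : M) : v.o (-x) = v.o x := by
  by_cases hx : x = 0
  · simp [hx]
  · have h := v.mul (-1) x (neg_ne_zero.mpr one_ne_zero) hx
    rw [neg_one_mul, v.o_neg_one] at h
    linarith

/-- the associated absolute value -/
noncomputable def abv : AbsoluteValue M ℝ where
  toFun x := open Classical in if x = 0 then 0 else Real.exp (-v.o x)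
  map_mul' x y := by
    by_cases hx : x = 0
    · simp [hx]
    by_cases hy : y = 0
    · simp [hy]
    rw [if_neg (mul_ne_zero hx hy), if_neg hx, if_neg hy, v.mul x y hx hy, neg_add, Real.exp_add]
  nonneg' x := by
    split_ifs
    · exact le_rfl
    · exact (Real.exp_pos _).le
  eq_zero' x := by
    constructor
    · intro h
      by_contra hx
      rw [if_neg hx] at h
      exact (Real.exp_pos _).ne' h
    · intro h; rw [if_pos h]
  add_le' x y := by
    by_cases hx : x = 0
    · subst hx
      rw [zero_add, if_pos rfl, zero_add]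
    by_cases hy : y = 0
    · subst hy
      rw [add_zero, if_pos (rfl : (0 : M) = 0), add_zero]
    by_cases hxy : x + y = 0
    · rw [if_pos hxy, if_neg hx, if_neg hy]
      positivity
    rw [if_neg hxy, if_neg hx, if_neg hy]
    have h := v.add x y hx hy hxy
    rcases min_le_iff.mp h with h1 | h1
    · have := Real.exp_le_exp.mpr (neg_le_neg h1)
      have := Real.exp_pos (-v.o y)
      linarith
    · have := Real.exp_le_exp.mpr (neg_le_neg h1)
      have := Real.exp_pos (-v.o x)
      linarith

lemma abv_apply {x : M} (hx : x ≠ 0) : v.abv x = Real.exp (-v.o x) := by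
  change (open Classical in if x = 0 then (0 : ℝ) else Real.exp (-v.o x)) = _
  rw [if_neg hx]

lemma isNonarchimedean_abv : IsNonarchimedean v.abv := by
  intro x y
  by_cases hx : x = 0
  · subst hx; rw [zero_add, map_zero]; exact le_max_right _ _
  by_cases hy : y = 0
  · subst hy; rw [add_zero, map_zero]; exact le_max_left _ _
  by_cases hxy : x + y = 0
  · rw [hxy, map_zero]; exact le_max_of_le_left (AbsoluteValue.nonneg _ _)
  rw [v.abv_apply hx, v.abv_apply hy, v.abv_apply hxy]
  rcases min_le_iff.mp (v.add x y hx hy hxy) with h1 | h1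
  · exact le_max_of_le_left (Real.exp_le_exp.mpr (neg_le_neg h1))
  · exact le_max_of_le_right (Real.exp_le_exp.mpr (neg_le_neg h1))

end RV

/-- truncated valuation -/
noncomputable def tau (s : ℝ) (x : M) : ℝ := open Classical in if x = 0 then s else min s (v.o x)

lemma tau_zero (s : ℝ) : tau v s 0 = s := by
  unfold tau; rw [if_pos rfl]

lemma tau_of_ne {s : ℝ} {x : M} (hx : x ≠ 0) : tau v s x = min s (v.o x) := by
  unfold tau; rw [if_neg hx]

lemma tau_le (s : ℝ) (x : M) : tau v s x ≤ s := by
  unfold tau
  split_ifs
  · exact le_rfl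
  · exact min_le_left _ _

lemma tau_le_o {s : ℝ} {x : M} (hx : x ≠ 0) : tau v s x ≤ v.o x := by
  rw [tau_of_ne v hx]; exact min_le_right _ _

lemma tau_neg (s : ℝ) (x : M) : tau v s (-x) = tau v s x := by
  by_cases hx : x = 0
  · simp [hx]
  · rw [tau_of_ne v hx, tau_of_ne v (neg_ne_zero.mpr hx), v.o_neg]

lemma tau_sub_comm (s : ℝ) (x y : M) : tau v s (x - y) = tau v s (y - x) := by
  rw [← tau_neg, neg_sub]

lemma tau_mono {s t : ℝ} (h : s ≤ t) (x : M) : tau v s x ≤ tau v t x := by
  unfold tau
  split_ifs
  · exact h
  · exact min_le_min_right _ h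

lemma tau_lip {s t : ℝ} (h : s ≤ t) (x : M) : tau v t x ≤ tau v s x + (t - s) := by
  unfold tau
  split_ifs
  · linarith
  · rcases le_total s (v.o x) with h1 | h1
    · rw [min_eq_left h1]
      have := min_le_left t (v.o x)
      linarith
    · rw [min_eq_right h1]
      have := min_le_right t (v.o x)
      linarith

lemma tau_add (s : ℝ) (x y : M) : min (tau v s x) (tau v s y) ≤ tau v s (x + y) := by
  by_cases hx : x = 0
  · subst hx; rw [zero_add]; exact min_le_right _ _
  by_cases hy : y = 0
  · subst hy; rw [add_zero]; exact min_le_left _ _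
  by_cases hxy : x + y = 0
  · rw [hxy, tau_zero]; exact (min_le_left _ _).trans (tau_le v _ _)
  rw [tau_of_ne v hx, tau_of_ne v hy, tau_of_ne v hxy]
  have h := v.add x y hx hy hxy
  apply le_min
  · exact (min_le_left _ _).trans (min_le_left _ _)
  · refine le_trans ?_ h
    exact min_le_min (min_le_right _ _) (min_le_right _ _)

lemma tau_sub (s : ℝ) (x y : M) : min (tau v s x) (tau v s y) ≤ tau v s (x - y) := by
  rw [sub_eq_add_neg, ← tau_neg v s y]
  exact tau_add v s x (-y)

/-- `x` and `y` lie in the same disc of level `s` -/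
def close (s : ℝ) (x y : M) : Prop := tau v s (x - y) = s

variable {v}

lemma close_iff {s : ℝ} {x y : M} : close v s x y ↔ x = y ∨ s ≤ v.o (x - y) := by
  unfold close
  by_cases h : x = y
  · subst h; rw [sub_self, tau_zero]; simp
  · rw [tau_of_ne v (sub_ne_zero.mpr h)]
    simp [h]

lemma close_refl (s : ℝ) (x : M) : close v s x x := by
  unfold close; rw [sub_self, tau_zero]

lemma close.symm {s : ℝ} {x y : M} (h : close v s x y) : close v s y x := by
  unfold close at *; rw [tau_sub_comm]; exact h

lemma close_comm {s : ℝ} {x y : M} : close v s x y ↔ close v s y x := ⟨close.symm, close.symm⟩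

lemma close_of_ge {s : ℝ} {x y : M} (h : s ≤ tau v s (x - y)) : close v s x y :=
  le_antisymm (tau_le v _ _) h

lemma close.mono {s t : ℝ} {x y : M} (h : close v t x y) (hs : s ≤ t) : close v s x y := by
  rw [close_iff] at *
  exact h.imp id fun h => hs.trans h

lemma close.trans {s : ℝ} {x y z : M} (h1 : close v s x y) (h2 : close v s y z) : close v s x z := by
  apply close_of_ge
  have := tau_add v s (x - y) (y - z)
  rw [sub_add_sub_cancel] at this
  unfold close at h1 h2
  rw [h1, h2, min_self] at this
  exact this

/-- moving the centre inside a disc -/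
lemma tau_eq_of_close {s : ℝ} {x y : M} (h : close v s x y) (z : M) :
    tau v s (x - z) = tau v s (y - z) := by
  apply le_antisymm
  · have := tau_add v s (y - x) (x - z)
    rw [sub_add_sub_cancel] at this
    have h' := h.symm
    unfold close at h'
    rw [h', min_eq_right (tau_le v _ _)] at this
    exact this
  · have := tau_add v s (x - y) (y - z)
    rw [sub_add_sub_cancel] at this
    unfold close at h
    rw [h, min_eq_right (tau_le v _ _)] at this
    exact this

lemma tau_eq_of_not_close {s t : ℝ} {x y : M} (h : ¬ close v s x y) (hst : s ≤ t) :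
    tau v t (x - y) = tau v s (x - y) := by
  rw [close_iff] at h
  push Not at h
  have hne : x - y ≠ 0 := sub_ne_zero.mpr h.1
  rw [tau_of_ne v hne, tau_of_ne v hne, min_eq_right (by linarith), min_eq_right h.2.le]

variable (v)

/-- sum of truncated valuations over a multiset -/
noncomputable def Sg (Z : Multiset M) (x : M) (s : ℝ) : ℝ := (Z.map fun z => tau v s (x - z)).sum

variable {v}

lemma Sg_add (Z Z' : Multiset M) (x : M) (s : ℝ) : Sg v (Z + Z') x s = Sg v Z x s + Sg v Z' x s := by
  unfold Sg; rw [Multiset.map_add, Multiset.sum_add]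

lemma Sg_cons (z : M) (Z : Multiset M) (x : M) (s : ℝ) :
    Sg v (z ::ₘ Z) x s = tau v s (x - z) + Sg v Z x s := by
  unfold Sg; rw [Multiset.map_cons, Multiset.sum_cons]

lemma Sg_mono (Z : Multiset M) (x : M) {s t : ℝ} (h : s ≤ t) : Sg v Z x s ≤ Sg v Z x t := by
  induction Z using Multiset.induction_on with
  | empty => simp [Sg]
  | cons a Z ih => rw [Sg_cons, Sg_cons]; exact add_le_add (tau_mono v h _) ih

lemma Sg_eq_of_close (Z : Multiset M) {x y : M} {s : ℝ} (h : close v s x y) :
    Sg v Z x s = Sg v Z y s := by
  unfold Sg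
  congr 1
  exact Multiset.map_congr rfl fun z _ => tau_eq_of_close h z

open Classical in
/-- growth of `Sg` -/
lemma Sg_sub_le (Z : Multiset M) (x : M) {s t : ℝ} (h : s ≤ t) :
    Sg v Z x t - Sg v Z x s ≤ (t - s) * (Multiset.card (Z.filter fun z => close v s x z)) := by
  induction Z using Multiset.induction_on with
  | empty => simp [Sg]
  | cons a Z ih =>
    rw [Sg_cons, Sg_cons]
    by_cases hc : close v s x a
    · rw [Multiset.filter_cons_of_pos _ hc, Multiset.card_cons]
      have := tau_lip v h (x - a)
      push_cast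
      nlinarith
    · rw [Multiset.filter_cons_of_neg _ hc, tau_eq_of_not_close hc h]
      linarith

/-- just below `s` there are no new valuations -/
lemma exists_gap (Z : Multiset M) (x : M) (s : ℝ) :
    ∃ s' < s, ∀ z ∈ Z, ∀ t, s' ≤ t → t ≤ s → (close v t x z ↔ close v s x z) := by
  induction Z using Multiset.induction_on with
  | empty => exact ⟨s - 1, by linarith, by simp⟩
  | cons a Z ih =>
    obtain ⟨s', hs', h⟩ := ih
    by_cases hc : close v s x a
    · refine ⟨s', hs', ?_⟩
      intro z hz t ht hts
      rcases Multiset.mem_cons.mp hz with rfl | hz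
      · exact ⟨fun _ => hc, fun _ => hc.mono hts⟩
      · exact h z hz t ht hts
    · have h1 : x ≠ a ∧ v.o (x - a) < s := by
        rw [close_iff] at hc
        push Not at hc
        exact hc
      refine ⟨max s' ((v.o (x - a) + s) / 2), max_lt hs' (by linarith), ?_⟩
      intro z hz t ht hts
      rcases Multiset.mem_cons.mp hz with rfl | hz
      · refine ⟨fun h2 => ?_, fun h2 => h2.mono hts⟩
        exfalso
        rw [close_iff] at h2
        rcases h2 with h2 | h2
        · exact h1.1 h2
        · have := le_max_right s' ((v.o (x - z) + s) / 2)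
          linarith
      · exact h z hz t ((le_max_left _ _).trans ht) hts

open Classical in
/-- exact growth when there are no valuations in between -/
lemma Sg_sub_eq (Z : Multiset M) (x : M) {s t : ℝ} (h : s ≤ t)
    (hZ : ∀ z ∈ Z, (close v s x z ↔ close v t x z)) :
    Sg v Z x t - Sg v Z x s = (t - s) * (Multiset.card (Z.filter fun z => close v t x z)) := by
  induction Z using Multiset.induction_on with
  | empty => simp [Sg]
  | cons a Z ih =>
    rw [Sg_cons, Sg_cons]
    have ih' := ih fun z hz => hZ z (Multiset.mem_cons_of_mem hz)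
    have ha := hZ a (Multiset.mem_cons_self a Z)
    by_cases hc : close v t x a
    · rw [Multiset.filter_cons_of_pos _ hc, Multiset.card_cons]
      have h1 : tau v t (x - a) = t := hc
      have h2 : tau v s (x - a) = s := ha.mpr hc
      rw [h1, h2]
      push_cast
      linarith
    · rw [Multiset.filter_cons_of_neg _ hc, tau_eq_of_not_close (fun h2 => hc (ha.mp h2)) h]
      linarith

open Classical in
/-- the number of points in a disc is determined by `Sg` below its level -/
lemma card_filter_eq (Z Z' : Multiset M) (x : M) (s : ℝ)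
    (h : ∀ t ≤ s, Sg v Z x t = Sg v Z' x t) :
    Multiset.card (Z.filter fun z => close v s x z) =
      Multiset.card (Z'.filter fun z => close v s x z) := by
  obtain ⟨s1, hs1, h1⟩ := exists_gap (v := v) (Z + Z') x s
  have e1 := Sg_sub_eq Z x hs1.le (fun z hz =>
    h1 z (Multiset.mem_add.mpr (Or.inl hz)) s1 le_rfl hs1.le)
  have e2 := Sg_sub_eq Z' x hs1.le (fun z hz =>
    h1 z (Multiset.mem_add.mpr (Or.inr hz)) s1 le_rfl hs1.le)
  rw [h s le_rfl, h s1 hs1.le, e2] at e1
  have h3 : (0 : ℝ) < s - s1 := by linarith
  have := mul_left_cancel₀ h3.ne' e1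
  exact_mod_cast this.symm

section gauss

/-- **Gauss norm formula** for products of linear factors. -/
lemma gauss_prod (Z : Multiset M) (x : M) (s : ℝ) :
    (∀ j, (taylor x (Z.map fun z => X - C z).prod).coeff j ≠ 0 →
      Sg v Z x s ≤ v.o ((taylor x (Z.map fun z => X - C z).prod).coeff j) + j * s) ∧
    ∃ j, (taylor x (Z.map fun z => X - C z).prod).coeff j ≠ 0 ∧
      Sg v Z x s = v.o ((taylor x (Z.map fun z => X - C z).prod).coeff j) + j * s := by
  have hpos : 0 < Real.exp (-s) := Real.exp_pos _
  have hnorm : gaussNorm v.abv (Real.exp (-s)) (taylor x (Z.map fun z => X - C z).prod) =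
      Real.exp (-Sg v Z x s) := by
    induction Z using Multiset.induction_on with
    | empty =>
      simp only [Multiset.map_zero, Multiset.prod_zero, taylor_one]
      rw [gaussNorm_C]
      simp [Sg]
    | cons a Z ih =>
      rw [Multiset.map_cons, Multiset.prod_cons, taylor_mul,
        gaussNorm_mul v.isNonarchimedean_abv hpos, ih, Sg_cons, neg_add, Real.exp_add]
      congr 1
      -- the linear factor
      have h1 : taylor x (X - C a) = X + C (x - a) := by
        rw [map_sub, taylor_X, taylor_C, C_sub]; ring
      rw [h1]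
      have hc1 : (X + C (x - a) : M[X]).coeff 1 = 1 := by simp
      have hc0 : (X + C (x - a) : M[X]).coeff 0 = x - a := by simp
      have h1le : Real.exp (-s) ≤ gaussNorm v.abv (Real.exp (-s)) (X + C (x - a)) := by
        have := le_gaussNorm v.abv (X + C (x - a) : M[X]) hpos.le 1
        rw [hc1, map_one, one_mul, pow_one] at this
        exact this
      have h0le : v.abv (x - a) ≤ gaussNorm v.abv (Real.exp (-s)) (X + C (x - a)) := by
        have := le_gaussNorm v.abv (X + C (x - a) : M[X]) hpos.le 0
        rw [hc0, pow_zero, mul_one] at this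
        exact this
      apply le_antisymm
      · obtain ⟨i, hi⟩ := exists_eq_gaussNorm v.abv (Real.exp (-s)) (X + C (x - a) : M[X])
        rw [hi]
        rcases i with _ | _ | i
        · rw [hc0, pow_zero, mul_one]
          by_cases hxa : x - a = 0
          · rw [hxa, map_zero]; positivity
          · rw [v.abv_apply hxa]
            exact Real.exp_le_exp.mpr (neg_le_neg (tau_le_o v hxa))
        · rw [zero_add, hc1, map_one, one_mul, pow_one]
          exact Real.exp_le_exp.mpr (neg_le_neg (tau_le v _ _))
        · have : (X + C (x - a) : M[X]).coeff (i + 1 + 1) = 0 := by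
            rw [coeff_add, coeff_X, coeff_C]; simp
          rw [this, map_zero, zero_mul]; positivity
      · by_cases hxa : x - a = 0
        · rw [hxa] at h1le ⊢
          rw [tau_zero]
          exact h1le
        · rw [v.abv_apply hxa] at h0le
          rw [tau_of_ne v hxa]
          rcases le_total s (v.o (x - a)) with h | h
          · rw [min_eq_left h]; exact h1le
          · rw [min_eq_right h]; exact h0le
  set P := taylor x (Z.map fun z => X - C z).prod with hP
  have hterm : ∀ j, P.coeff j ≠ 0 → v.abv (P.coeff j) * Real.exp (-s) ^ j =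
      Real.exp (-(v.o (P.coeff j) + j * s)) := by
    intro j hj
    rw [v.abv_apply hj, ← Real.exp_nat_mul, ← Real.exp_add]
    congr 1
    ring
  constructor
  · intro j hj
    have h1 := le_gaussNorm v.abv P hpos.le j
    rw [hnorm, hterm j hj, Real.exp_le_exp] at h1
    linarith
  · obtain ⟨j, hj⟩ := exists_eq_gaussNorm v.abv (Real.exp (-s)) P
    rw [hnorm] at hj
    have hj0 : P.coeff j ≠ 0 := by
      intro h
      rw [h, map_zero, zero_mul] at hj
      exact (Real.exp_pos _).ne' hj
    refine ⟨j, hj0, ?_⟩
    rw [hterm j hj0, Real.exp_eq_exp] at hj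
    linarith

variable [IsAlgClosed M]

lemma roots_prod {g : M[X]} (hg : g.Monic) : (g.roots.map fun z => X - C z).prod = g := by
  have h := (IsAlgClosed.splits g).eq_prod_roots
  rw [hg.leadingCoeff, C_1, one_mul] at h
  exact h.symm

/-- Gauss norm formula for a monic polynomial -/
lemma gauss {g : M[X]} (hg : g.Monic) (x : M) (s : ℝ) :
    (∀ j, (taylor x g).coeff j ≠ 0 → Sg v g.roots x s ≤ v.o ((taylor x g).coeff j) + j * s) ∧
    ∃ j, (taylor x g).coeff j ≠ 0 ∧ Sg v g.roots x s = v.o ((taylor x g).coeff j) + j * s := by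
  have := gauss_prod (v := v) g.roots x s
  rwa [roots_prod hg] at this

omit [IsAlgClosed M] in
lemma monic_sub_C {g : M[X]} (hg : g.Monic) (hd : 1 ≤ g.natDegree) (u : M) : (g - C u).Monic := by
  apply hg.sub_of_left
  refine degree_C_le.trans_lt ?_
  exact natDegree_pos_iff_degree_pos.mp hd

lemma card_roots_sub_C {g : M[X]} (u : M) : Multiset.card (g - C u).roots = g.natDegree := by
  rw [← (IsAlgClosed.splits (g - C u)).natDegree_eq_card_roots, natDegree_sub_C]

variable (v)

/-- level of the image of the disc `(x, s)` -/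
noncomputable def lam (g : M[X]) (x : M) (s : ℝ) : ℝ := Sg v (g - C (g.eval x)).roots x s

variable {v}

/-- **Push forward formula.** -/
lemma push {g : M[X]} (hg : g.Monic) (hd : 1 ≤ g.natDegree) (x u : M) (s : ℝ) :
    Sg v (g - C u).roots x s = tau v (lam v g x s) (g.eval x - u) := by
  by_cases hu : g.eval x = u
  · subst hu
    rw [sub_self, tau_zero]
    rfl
  have hne : g.eval x - u ≠ 0 := sub_ne_zero.mpr hu
  have c0 : ∀ w : M, (taylor x (g - C w)).coeff 0 = g.eval x - w := by
    intro w; rw [taylor_coeff_zero, eval_sub, eval_C]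
  have cj : ∀ (w : M) (j : ℕ), 1 ≤ j → (taylor x (g - C w)).coeff j = (taylor x g).coeff j := by
    intro w j hj
    rw [map_sub, taylor_C, coeff_sub, coeff_C, if_neg (by omega), sub_zero]
  obtain ⟨a1, j1, b1, c1⟩ := gauss (v := v) (monic_sub_C hg hd u) x s
  obtain ⟨a2, j2, b2, c2⟩ := gauss (v := v) (monic_sub_C hg hd (g.eval x)) x s
  have hj2 : 1 ≤ j2 := by
    by_contra h
    have : j2 = 0 := by omega
    rw [this, c0, sub_self] at b2
    exact b2 rfl
  rw [tau_of_ne v hne]
  apply le_antisymm
  · apply le_min
    · rw [lam, c2, cj _ j2 hj2, ← cj u j2 hj2]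
      apply a1
      rw [cj _ j2 hj2] at b2 ⊢
      exact b2
    · have := a1 0 (by rw [c0]; exact hne)
      rw [c0] at this
      simpa using this
  · rw [c1]
    rcases Nat.eq_zero_or_pos j1 with h | h
    · rw [h, c0]; simp
    · refine (min_le_left _ _).trans ?_
      rw [lam, cj u j1 h, ← cj (g.eval x) j1 h]
      apply a2
      rw [cj _ j1 h] at b1 ⊢
      exact b1

/-- images of discs -/
lemma lam_close {g : M[X]} (hg : g.Monic) (hd : 1 ≤ g.natDegree) {x y : M} {s : ℝ}
    (h : close v s x y) : lam v g x s = lam v g y s ∧ close v (lam v g x s) (g.eval x) (g.eval y) := by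
  have h1 : lam v g y s ≤ lam v g x s := by
    unfold lam
    rw [← Sg_eq_of_close _ h, push hg hd]
    exact tau_le v _ _
  have h2 : lam v g x s ≤ lam v g y s := by
    unfold lam
    rw [Sg_eq_of_close _ h, push hg hd]
    exact tau_le v _ _
  refine ⟨le_antisymm h2 h1, ?_⟩
  unfold close
  rw [← push hg hd, Sg_eq_of_close _ h]
  exact le_antisymm h1 h2

end gauss

end Pool.Agent.Helper93.SU
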