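import Pool.Agent.Helper93.SU.Mult

/-!
# Most components are deep
-/

set_option autoImplicit false
set_option linter.unusedSectionVars false
set_option linter.unusedVariables false

open Finset Polynomial

namespace Pool.Agent.Helper93.SU

variable {M : Type*} [Field M] [IsAlgClosed M] {v : RV M} {f : M[X]}

section aux

open Classical in
lemma card_filter_exists_aux {α β : Type*} (Z : Multiset α) (s : Finset β) (p : β → α → Prop) :
    Multiset.card (Z.filter fun a => ∃ b ∈ s, p b a) ≤ ∑ b ∈ s, Multiset.card (Z.filter (p b)) := by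
  induction s using Finset.induction_on with
  | empty => simp
  | insert b s hb ih =>
    rw [sum_insert hb]
    have h1 : Multiset.card (Z.filter fun a => ∃ b' ∈ insert b s, p b' a) ≤
        Multiset.card (Z.filter (p b)) + Multiset.card (Z.filter fun a => ∃ b ∈ s, p b a) := by
      rw [← Multiset.card_add]
      have e : (Z.filter fun a => ∃ b' ∈ insert b s, p b' a) =
          Z.filter fun a => p b a ∨ ∃ b ∈ s, p b a := by
        apply Multiset.filter_congr
        intro a _
        simp only [mem_insert, exists_eq_or_imp]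
      rw [e, Multiset.filter_add_filter, Multiset.card_add]
      omega
    omega

lemma card_filter_exists {α β : Type*} (Z : Multiset α) (s : Finset β) (p : β → α → Prop)
    [DecidablePred fun a => ∃ b ∈ s, p b a] [∀ b, DecidablePred (p b)] :
    Multiset.card (Z.filter fun a => ∃ b ∈ s, p b a) ≤ ∑ b ∈ s, Multiset.card (Z.filter (p b)) := by
  convert card_filter_exists_aux Z s p

lemma card_filter_mono {α : Type*} (Z : Multiset α) {p q : α → Prop} [DecidablePred p]
    [DecidablePred q] (h : ∀ a ∈ Z, p a → q a) :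
    Multiset.card (Z.filter p) ≤ Multiset.card (Z.filter q) := by
  apply Multiset.card_le_card
  rw [Multiset.le_filter]
  refine ⟨Multiset.filter_le _ _, ?_⟩
  intro a ha
  rw [Multiset.mem_filter] at ha
  exact h a ha.1 ha.2

lemma geom_aux (ρ : ℝ) (l u : ℕ) :
    (∑ j ∈ range u, ρ ^ (u + l - j)) * (1 - ρ) = ρ ^ (l + 1) - ρ ^ (u + l + 1) := by
  induction u with
  | zero => simp
  | succ u ih =>
    rw [sum_range_succ']
    have e : ∑ k ∈ range u, ρ ^ (u + 1 + l - (k + 1)) = ∑ j ∈ range u, ρ ^ (u + l - j) :=
      sum_congr rfl fun k _ => by congr 1; omega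
    rw [e, add_mul, ih, Nat.sub_zero]
    ring

end aux

namespace LocData

variable {X : Set M} {x0 z0 : M} (L : LocData v f X x0 z0)

include L

open Classical in
lemma card_crit_fiber {t T j : ℕ} (hj : j ≤ t) (ht : t ≤ T) {y : M} (hy : close v (-1) x0 y) (c : M) :
    Multiset.card ((Zt f (T - j) y).filter fun η => close v (sl v f (t - j) η) η c) ≤
      f.natDegree ^ (T - t) * (f.natDegree - 1) ^ (t - j) := by
  by_cases hc : close v (-1) x0 ((ev f)^[t - j] c)
  · refine (card_filter_mono _ (q := fun η => close v (sl v f (t - j) c) c η) ?_).trans ?_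
    · intro η _ h
      have := sl_eq_of_close L.monic L.hd1 h
      rw [this]
      exact h.symm
    · have e : T - j = (t - j) + (T - t) := by omega
      rw [e, L.card_fiber_add _ _ hc hy]
      exact Nat.mul_le_mul_left _ (L.mt_le _ hc)
  · have : (Zt f (T - j) y).filter (fun η => close v (sl v f (t - j) η) η c) = 0 := by
      rw [Multiset.filter_eq_nil]
      intro η hη h
      apply hc
      rw [mem_Zt L.hd1] at hη
      have h1 := L.K_mono (show t - j ≤ T - j by omega) (x := η) (by rw [hη]; exact hy)
      have h2 := (Lm_close L.monic L.hd1 (t - j) h).2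
      rw [Lm_sl L.hd1] at h2
      exact h1.trans h2
    rw [this]
    simp

open Classical in
/-- the number of points of `f^{-T}(y)` with a large degree at time `t` -/
lemma card_mt_large_aux (hchar : ∀ n : ℕ, n ≠ 0 → n ≤ f.natDegree → (n : M) ≠ 0 ∧ v.o (n : M) = 0)
    (l u T : ℕ) (hT : u + l ≤ T) {y : M} (hy : close v (-1) x0 y) :
    Multiset.card ((Zt f T y).filter fun z => (f.natDegree - 1) ^ l < mt v f (u + l) z) ≤
      ∑ j ∈ range u, (f.natDegree - 1) *
        (f.natDegree ^ j * (f.natDegree ^ (T - (u + l)) * (f.natDegree - 1) ^ (u + l - j))) := by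
  set crit := (derivative f).roots.toFinset with hcrit
  have hcard : crit.card ≤ f.natDegree - 1 :=
    (Multiset.toFinset_card_le _).trans ((card_roots' _).trans (natDegree_derivative_le f))
  refine (card_filter_mono _ (q := fun z => ∃ j ∈ range u, ∃ c ∈ crit,
    close v (sl v f (u + l - j) ((ev f)^[j] z)) ((ev f)^[j] z) c) ?_).trans ?_
  · intro z hz hlt
    by_contra hcon
    push Not at hcon
    rw [mem_Zt L.hd1] at hz
    have h1 := L.mt_le_of_noncrit hchar l u (x := z) (L.K_mono hT (by rw [hz]; exact hy)) (by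
      intro j hj c hc
      exact hcon j (mem_range.mpr hj) c (by rw [hcrit, Multiset.mem_toFinset]; exact hc))
    omega
  · refine (card_filter_exists (Zt f T y) (range u) (fun j z => ∃ c ∈ crit,
      close v (sl v f (u + l - j) ((ev f)^[j] z)) ((ev f)^[j] z) c)).trans (sum_le_sum ?_)
    intro j hj
    rw [mem_range] at hj
    refine (card_filter_exists (Zt f T y) crit (fun c z =>
      close v (sl v f (u + l - j) ((ev f)^[j] z)) ((ev f)^[j] z) c)).trans ?_
    refine (sum_le_card_nsmul _ _ (f.natDegree ^ j * (f.natDegree ^ (T - (u + l)) *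
      (f.natDegree - 1) ^ (u + l - j))) ?_).trans ?_
    · intro c _
      have e : T = j + (T - j) := by omega
      have e2 : Zt f T y = (Zt f (T - j) y).bind (Zt f j) := by
        conv_lhs => rw [e]
        exact Zt_add j (T - j) y
      rw [e2, card_filter_bind]
      refine (sum_map_le_of _ _ (f.natDegree ^ j)
        (fun η => close v (sl v f (u + l - j) η) η c) ?_ ?_).trans ?_
      · intro η _ _
        refine (Multiset.card_le_card (Multiset.filter_le _ _)).trans ?_
        rw [card_Zt L.hd1]
      · intro η _ hn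
        rw [Multiset.card_eq_zero, Multiset.filter_eq_nil]
        intro z hz h
        rw [mem_Zt L.hd1] at hz
        rw [hz] at h
        exact hn h
      · rw [mul_comm]
        exact Nat.mul_le_mul_left _ (L.card_crit_fiber (by omega) hT hy c)
    · rw [smul_eq_mul]
      exact Nat.mul_le_mul_right _ hcard

open Classical in
/-- real form, for all times -/
lemma card_mt_large (hchar : ∀ n : ℕ, n ≠ 0 → n ≤ f.natDegree → (n : M) ≠ 0 ∧ v.o (n : M) = 0)
    (l t T : ℕ) (hT : t ≤ T) {y : M} (hy : close v (-1) x0 y) :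
    ((Multiset.card ((Zt f T y).filter fun z => (f.natDegree - 1) ^ l < mt v f t z) : ℕ) : ℝ) ≤
      (f.natDegree : ℝ) ^ 2 * ((f.natDegree - 1) / f.natDegree) ^ l * f.natDegree ^ T := by
  have hd : (2 : ℝ) ≤ f.natDegree := by exact_mod_cast L.deg
  have hd0 : (0 : ℝ) < f.natDegree := by linarith
  set ρ : ℝ := (f.natDegree - 1) / f.natDegree with hρ
  have hρ0 : 0 ≤ ρ := div_nonneg (by linarith) hd0.le
  have hρ1 : 1 - ρ = 1 / f.natDegree := by rw [hρ]; field_simp; ring
  have hρd : ρ * f.natDegree = f.natDegree - 1 := by rw [hρ]; field_simp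
  rcases lt_or_ge t l with hlt | hge
  · have : (Zt f T y).filter (fun z => (f.natDegree - 1) ^ l < mt v f t z) = 0 := by
      rw [Multiset.filter_eq_nil]
      intro z hz h
      rw [mem_Zt L.hd1] at hz
      have h1 := L.mt_le t (L.K_mono hT (x := z) (by rw [hz]; exact hy))
      have h2 : (f.natDegree - 1) ^ t ≤ (f.natDegree - 1) ^ l :=
        Nat.pow_le_pow_right (by have := L.deg; omega) hlt.le
      omega
    rw [this]
    simp only [Multiset.card_zero, Nat.cast_zero]
    positivity
  · obtain ⟨u, rfl⟩ : ∃ u, t = u + l := ⟨t - l, by omega⟩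
    have h1 := L.card_mt_large_aux hchar l u T hT hy
    have h2 : ((Multiset.card ((Zt f T y).filter fun z => (f.natDegree - 1) ^ l < mt v f (u + l) z)
        : ℕ) : ℝ) ≤ ((∑ j ∈ range u, (f.natDegree - 1) *
        (f.natDegree ^ j * (f.natDegree ^ (T - (u + l)) * (f.natDegree - 1) ^ (u + l - j))) : ℕ) : ℝ) := by
      exact_mod_cast h1
    refine h2.trans ?_
    push_cast [Nat.cast_sub L.hd1]
    have h3 : ∀ j ∈ range u, ((f.natDegree : ℝ) - 1) *
        ((f.natDegree : ℝ) ^ j * ((f.natDegree : ℝ) ^ (T - (u + l)) *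
          ((f.natDegree : ℝ) - 1) ^ (u + l - j))) =
        (f.natDegree - 1) * f.natDegree ^ T * ρ ^ (u + l - j) := by
      intro j hj
      rw [mem_range] at hj
      rw [← hρd, mul_pow]
      have : (f.natDegree : ℝ) ^ T = (f.natDegree : ℝ) ^ j * (f.natDegree : ℝ) ^ (T - (u + l)) *
          (f.natDegree : ℝ) ^ (u + l - j) := by
        rw [← pow_add, ← pow_add]; congr 1; omega
      rw [this]
      ring
    rw [sum_congr rfl h3, ← mul_sum]
    have h4 := geom_aux ρ l u
    rw [hρ1] at h4
    have h5 : ∑ j ∈ range u, ρ ^ (u + l - j) ≤ f.natDegree * ρ ^ (l + 1) := by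
      have : 0 ≤ ρ ^ (u + l + 1) := pow_nonneg hρ0 _
      rw [mul_one_div, div_eq_iff hd0.ne'] at h4
      rw [h4]
      nlinarith
    have h6 : (f.natDegree : ℝ) * ρ ^ (l + 1) = (f.natDegree - 1) * ρ ^ l := by
      rw [pow_succ, ← hρd]; ring
    rw [h6] at h5
    have h7 : 0 ≤ ((f.natDegree : ℝ) - 1) * f.natDegree ^ T := mul_nonneg (by linarith) (by positivity)
    refine (mul_le_mul_of_nonneg_left h5 h7).trans ?_
    have h8 : 0 ≤ ρ ^ l * (f.natDegree : ℝ) ^ T := by positivity
    have h9 : ((f.natDegree : ℝ) - 1) * (f.natDegree - 1) ≤ f.natDegree ^ 2 := by nlinarith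
    calc ((f.natDegree : ℝ) - 1) * f.natDegree ^ T * ((f.natDegree - 1) * ρ ^ l)
        = (((f.natDegree : ℝ) - 1) * (f.natDegree - 1)) * (ρ ^ l * f.natDegree ^ T) := by ring
      _ ≤ f.natDegree ^ 2 * (ρ ^ l * f.natDegree ^ T) := mul_le_mul_of_nonneg_right h9 h8
      _ = f.natDegree ^ 2 * ρ ^ l * f.natDegree ^ T := by ring

open Classical in
/-- lower bound for the level -/
lemma sl_ge (B : ℕ) (hB : 1 ≤ B) (T : ℕ) {x : M} (hx : close v (-1) x0 ((ev f)^[T] x)) :
    -1 + ((T : ℝ) - ((range T).filter fun t => B < mt v f t x).card) / B ≤ sl v f T x := by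
  have hB0 : (0 : ℝ) < B := by exact_mod_cast hB
  induction T with
  | zero => simp [sl_zero L.hd1]
  | succ T ih =>
    have h1 := ih (L.K_mono (Nat.le_succ T) hx)
    have h2 := L.sl_growth T hx
    have hm : (0 : ℝ) < mt v f T x := by exact_mod_cast L.mt_pos T x
    rw [range_add_one, filter_insert]
    split_ifs with h
    · rw [card_insert_of_notMem (by simp)]
      push_cast
      have h3 : 0 ≤ 1 / (mt v f T x : ℝ) := by positivity
      have h4 : (T : ℝ) + 1 - (((range T).filter fun t => B < mt v f t x).card + 1) =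
          T - ((range T).filter fun t => B < mt v f t x).card := by ring
      rw [h4]
      linarith
    · push Not at h
      have h3 : 1 / (B : ℝ) ≤ 1 / mt v f T x :=
        one_div_le_one_div_of_le hm (by exact_mod_cast h)
      push_cast
      have h4 : ((T : ℝ) + 1 - ((range T).filter fun t => B < mt v f t x).card) / B =
          (T - ((range T).filter fun t => B < mt v f t x).card) / B + 1 / B := by ring
      rw [h4]
      linarith

lemma sum_card_comm {α β : Type*} (Z : Multiset α) (s : Finset β) (p : β → α → Prop)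
    [∀ b, DecidablePred (p b)] [∀ a, DecidablePred fun b => p b a] :
    (Z.map fun a => (s.filter fun b => p b a).card).sum = ∑ b ∈ s, Multiset.card (Z.filter (p b)) := by
  induction Z using Multiset.induction_on with
  | empty => simp
  | cons a Z ih =>
    rw [Multiset.map_cons, Multiset.sum_cons, ih, card_filter, ← sum_add_distrib]
    apply sum_congr rfl
    intro b _
    by_cases h : p b a
    · rw [Multiset.filter_cons_of_pos _ h, Multiset.card_cons, if_pos h]; ring
    · rw [Multiset.filter_cons_of_neg _ h, if_neg h, zero_add]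

open Classical in
/-- **Most points of `f^{-T}(y)` lie in deep components.** -/
theorem card_shallow (hchar : ∀ n : ℕ, n ≠ 0 → n ≤ f.natDegree → (n : M) ≠ 0 ∧ v.o (n : M) = 0)
    (l T : ℕ) (hT0 : 1 ≤ T) (A : ℝ) (hT : 2 * (f.natDegree - 1 : ℝ) ^ l * (A + 1) ≤ T) {y : M}
    (hy : close v (-1) x0 y) :
    ((Multiset.card ((Zt f T y).filter fun z => sl v f T z < A) : ℕ) : ℝ) ≤
      2 * ((f.natDegree : ℝ) ^ 2 * ((f.natDegree - 1) / f.natDegree) ^ l * f.natDegree ^ T) := by
  have hd : (2 : ℝ) ≤ f.natDegree := by exact_mod_cast L.deg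
  set B := (f.natDegree - 1) ^ l with hB
  have hB1 : 1 ≤ B := Nat.one_le_pow _ _ (by have := L.deg; omega)
  have hBr : (B : ℝ) = ((f.natDegree : ℝ) - 1) ^ l := by
    rw [hB]; push_cast [Nat.cast_sub L.hd1]; rfl
  have hB0 : (0 : ℝ) < B := by exact_mod_cast hB1
  rw [← hBr] at hT
  -- shallow points have many large degrees
  have key : ∀ z ∈ Zt f T y, sl v f T z < A →
      (T : ℝ) ≤ 2 * ((range T).filter fun t => B < mt v f t z).card := by
    intro z hz hlt
    rw [mem_Zt L.hd1] at hz
    have h1 := L.sl_ge B hB1 T (x := z) (by rw [hz]; exact hy)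
    by_contra hcon
    push Not at hcon
    have h2 : (T : ℝ) / 2 ≤ T - ((range T).filter fun t => B < mt v f t z).card := by linarith
    have h3 : (T : ℝ) / 2 / B ≤ (T - ((range T).filter fun t => B < mt v f t z).card) / B :=
      div_le_div_of_nonneg_right h2 hB0.le
    have h4 : A + 1 ≤ (T : ℝ) / 2 / B := by
      rw [le_div_iff₀ hB0, le_div_iff₀ (by norm_num : (0 : ℝ) < 2)]
      linarith
    linarith
  -- double counting
  have h1 : ∀ (Z : Multiset M), (∀ z ∈ Z, sl v f T z < A →
      (T : ℝ) ≤ 2 * ((range T).filter fun t => B < mt v f t z).card) →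
      (T : ℝ) * (Multiset.card (Z.filter fun z => sl v f T z < A) : ℕ) ≤
        2 * ((Z.map fun z => ((range T).filter fun t => B < mt v f t z).card).sum : ℕ) := by
    intro Z
    induction Z using Multiset.induction_on with
    | empty => intro _; simp
    | cons a Z ih =>
      intro h
      have ih' := ih fun z hz => h z (Multiset.mem_cons_of_mem hz)
      rw [Multiset.map_cons, Multiset.sum_cons]
      by_cases hc : sl v f T a < A
      · rw [Multiset.filter_cons_of_pos (p := fun z => sl v f T z < A) _ hc, Multiset.card_cons]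
        have := h a (Multiset.mem_cons_self a Z) hc
        rw [Nat.cast_add, Nat.cast_add, Nat.cast_one]
        linarith
      · rw [Multiset.filter_cons_of_neg (p := fun z => sl v f T z < A) _ hc]
        rw [Nat.cast_add]
        have : (0 : ℝ) ≤ ((range T).filter fun t => B < mt v f t a).card := Nat.cast_nonneg _
        linarith
  have h2 := h1 (Zt f T y) key
  rw [sum_card_comm L] at h2
  push_cast at h2
  have h3 : ∑ t ∈ range T, ((Multiset.card ((Zt f T y).filter fun z => B < mt v f t z) : ℕ) : ℝ) ≤
      T * ((f.natDegree : ℝ) ^ 2 * ((f.natDegree - 1) / f.natDegree) ^ l * f.natDegree ^ T) := by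
    refine (sum_le_card_nsmul _ _ _ fun t ht => L.card_mt_large hchar l t T
      (mem_range.mp ht).le hy).trans ?_
    rw [card_range, nsmul_eq_mul]
  have hTpos : (0 : ℝ) < T := by exact_mod_cast hT0
  have h4 : (T : ℝ) * (Multiset.card ((Zt f T y).filter fun z => sl v f T z < A) : ℕ) ≤
      T * (2 * ((f.natDegree : ℝ) ^ 2 * ((f.natDegree - 1) / f.natDegree) ^ l * f.natDegree ^ T)) := by
    linarith
  exact le_of_mul_le_mul_left h4 hTpos

end LocData

end Pool.Agent.Helper93.SU
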