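import Pool.Agent.Helper93.SU.Basic

/-!
# Levels of components of preimages
-/

set_option autoImplicit false
set_option linter.unusedSectionVars false
set_option linter.unusedVariables false

open Finset Polynomial

namespace Pool.Agent.Helper93.SU

variable {M : Type*} [Field M] [IsAlgClosed M] {v : RV M} {f : M[X]}

section levels

/-- the polynomial as a function -/
noncomputable abbrev ev (f : M[X]) : M → M := fun x => f.eval x

lemma mem_pre (hd : 1 ≤ f.natDegree) {η z : M} : z ∈ (f - C η).roots ↔ f.eval z = η := by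
  rw [mem_roots_sub_C']
  constructor
  · exact fun h => h.2
  · intro h
    refine ⟨?_, h⟩
    intro h2
    rw [h2, natDegree_C] at hd
    omega

/-- preimages of order `T` -/
noncomputable def Zt (f : M[X]) : ℕ → M → Multiset M
  | 0, y => {y}
  | T + 1, y => (Zt f T y).bind fun η => (f - C η).roots

/-- level of the image of a disc under the `T`-th iterate -/
noncomputable def Lm (v : RV M) (f : M[X]) : ℕ → M → ℝ → ℝ
  | 0, _, s => s
  | T + 1, x, s => Lm v f T (f.eval x) (lam v f x s)

lemma Sg_bind (Z : Multiset M) (F : M → Multiset M) (x : M) (s : ℝ) :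
    Sg v (Z.bind F) x s = (Z.map fun η => Sg v (F η) x s).sum := by
  induction Z using Multiset.induction_on with
  | empty => simp [Sg]
  | cons a Z ih => rw [Multiset.cons_bind, Sg_add, ih, Multiset.map_cons, Multiset.sum_cons]

/-- **Potential formula.** -/
lemma pot (hf : f.Monic) (hd : 1 ≤ f.natDegree) (T : ℕ) (x y : M) (s : ℝ) :
    Sg v (Zt f T y) x s = tau v (Lm v f T x s) ((ev f)^[T] x - y) := by
  induction T generalizing x s with
  | zero => simp [Zt, Lm, Sg]
  | succ T ih =>
    rw [Zt, Sg_bind, Function.iterate_succ_apply, Lm, ← ih]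
    unfold Sg
    congr 1
    apply Multiset.map_congr rfl
    intro η _
    exact push hf hd x η s

lemma card_Zt (hd : 1 ≤ f.natDegree) (T : ℕ) (y : M) : Multiset.card (Zt f T y) = f.natDegree ^ T := by
  induction T with
  | zero => simp [Zt]
  | succ T ih =>
    rw [Zt, Multiset.card_bind]
    have : (Multiset.card ∘ fun η => (f - C η).roots) = fun _ : M => f.natDegree := by
      ext η; exact card_roots_sub_C η
    rw [this, Multiset.map_const', Multiset.sum_replicate, ih, smul_eq_mul, pow_succ]

lemma mem_Zt (hd : 1 ≤ f.natDegree) {T : ℕ} {y z : M} : z ∈ Zt f T y ↔ (ev f)^[T] z = y := by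
  induction T generalizing z with
  | zero => simp [Zt]
  | succ T ih =>
    rw [Zt, Multiset.mem_bind, Function.iterate_succ_apply]
    constructor
    · rintro ⟨η, h1, h2⟩
      rw [mem_pre hd] at h2
      rw [← ih]
      change f.eval z ∈ _
      rw [h2]; exact h1
    · intro h
      exact ⟨f.eval z, ih.mpr h, (mem_pre hd).mpr rfl⟩

lemma Zt_add (a b : ℕ) (y : M) : Zt f (a + b) y = (Zt f b y).bind (Zt f a) := by
  induction a with
  | zero =>
    rw [zero_add]
    have : Zt f 0 = fun y : M => ({y} : Multiset M) := rfl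
    rw [this, Multiset.bind_singleton, Multiset.map_id']
  | succ a ih =>
    rw [show a + 1 + b = (a + b) + 1 by ring, Zt, ih, Multiset.bind_assoc]
    rfl

lemma Lm_add (a b : ℕ) (x : M) (s : ℝ) :
    Lm v f (a + b) x s = Lm v f b ((ev f)^[a] x) (Lm v f a x s) := by
  induction a generalizing x s with
  | zero => simp [Lm]
  | succ a ih =>
    rw [show a + 1 + b = (a + b) + 1 by ring, Lm, ih, Function.iterate_succ_apply, Lm]

/-- images of discs, iterated -/
lemma Lm_close (hf : f.Monic) (hd : 1 ≤ f.natDegree) (T : ℕ) {x y : M} {s : ℝ} (h : close v s x y) :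
    Lm v f T x s = Lm v f T y s ∧ close v (Lm v f T x s) ((ev f)^[T] x) ((ev f)^[T] y) := by
  induction T generalizing x y s with
  | zero => exact ⟨rfl, h⟩
  | succ T ih =>
    obtain ⟨h1, h2⟩ := lam_close hf hd h
    obtain ⟨h3, h4⟩ := ih h2
    rw [Lm, Lm, Function.iterate_succ_apply, Function.iterate_succ_apply, ← h1]
    exact ⟨h3, h4⟩

lemma exists_cons (hd : 1 ≤ f.natDegree) (x : M) :
    ∃ Z : Multiset M, (f - C (f.eval x)).roots = x ::ₘ Z ∧ Multiset.card Z = f.natDegree - 1 := by
  obtain ⟨Z, hZ⟩ := Multiset.exists_cons_of_mem ((mem_pre hd).mpr (rfl : f.eval x = f.eval x))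
  refine ⟨Z, hZ, ?_⟩
  have := card_roots_sub_C (g := f) (f.eval x)
  rw [hZ, Multiset.card_cons] at this
  omega

lemma continuous_Sg (Z : Multiset M) (x : M) : Continuous fun s => Sg v Z x s := by
  induction Z using Multiset.induction_on with
  | empty => simp only [Sg, Multiset.map_zero, Multiset.sum_zero]; exact continuous_const
  | cons a Z ih =>
    simp only [Sg_cons]
    refine Continuous.add ?_ ih
    by_cases h : x - a = 0
    · rw [h]
      simp only [tau_zero]
      exact continuous_id
    · simp only [tau_of_ne v h]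
      exact continuous_id.min continuous_const

lemma lam_strictMono (hd : 1 ≤ f.natDegree) (x : M) : StrictMono (lam v f x) := by
  obtain ⟨Z, hZ, _⟩ := exists_cons hd x
  intro s t hst
  unfold lam
  rw [hZ, Sg_cons, Sg_cons, sub_self, tau_zero, tau_zero]
  have := Sg_mono (v := v) Z x hst.le
  linarith

lemma lam_surj (hd : 1 ≤ f.natDegree) (x : M) (t : ℝ) : ∃ s, lam v f x s = t := by
  obtain ⟨Z, hZ, _⟩ := exists_cons hd x
  have hlam : ∀ s, lam v f x s = s + Sg v Z x s := by
    intro s
    unfold lam
    rw [hZ, Sg_cons, sub_self, tau_zero]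
  set a := min 0 (t - Sg v Z x 0) with ha
  set b := max 0 (t - Sg v Z x 0) with hb
  have hab : a ≤ b := (min_le_left _ _).trans (le_max_left _ _)
  have h1 : lam v f x a ≤ t := by
    rw [hlam]
    have h2 : a ≤ 0 := min_le_left _ _
    have h3 : a ≤ t - Sg v Z x 0 := min_le_right _ _
    have := Sg_mono (v := v) Z x h2
    linarith
  have h2 : t ≤ lam v f x b := by
    rw [hlam]
    have h2 : 0 ≤ b := le_max_left _ _
    have h3 : t - Sg v Z x 0 ≤ b := le_max_right _ _
    have := Sg_mono (v := v) Z x h2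
    linarith
  have hcont : ContinuousOn (lam v f x) (Set.Icc a b) := (continuous_Sg _ _).continuousOn
  obtain ⟨s, _, hs⟩ := intermediate_value_Icc hab hcont ⟨h1, h2⟩
  exact ⟨s, hs⟩

lemma Lm_strictMono (hd : 1 ≤ f.natDegree) (T : ℕ) (x : M) : StrictMono (Lm v f T x) := by
  induction T generalizing x with
  | zero => intro s t h; exact h
  | succ T ih => intro s t h; exact ih _ (lam_strictMono hd x h)

lemma Lm_surj (hd : 1 ≤ f.natDegree) (T : ℕ) (x : M) (t : ℝ) : ∃ s, Lm v f T x s = t := by
  induction T generalizing x with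
  | zero => exact ⟨t, rfl⟩
  | succ T ih =>
    obtain ⟨s, hs⟩ := ih (f.eval x)
    obtain ⟨s', hs'⟩ := lam_surj (v := v) hd x s
    exact ⟨s', by rw [Lm, hs', hs]⟩

variable (v f) in
open Classical in
/-- the level of the component of `f^{-T}(D_0)` through `x`, `D_0` having level `-1` -/
noncomputable def sl (T : ℕ) (x : M) : ℝ :=
  if h : ∃ s, Lm v f T x s = -1 then h.choose else 0

lemma Lm_sl (hd : 1 ≤ f.natDegree) (T : ℕ) (x : M) : Lm v f T x (sl v f T x) = -1 := by
  have h := Lm_surj (v := v) hd T x (-1)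
  unfold sl
  rw [dif_pos h]
  exact h.choose_spec

lemma sl_eq (hd : 1 ≤ f.natDegree) {T : ℕ} {x : M} {s : ℝ} (h : Lm v f T x s = -1) :
    sl v f T x = s :=
  (Lm_strictMono hd T x).injective ((Lm_sl hd T x).trans h.symm)

lemma sl_zero (hd : 1 ≤ f.natDegree) (x : M) : sl v f 0 x = -1 := sl_eq hd rfl

lemma le_sl_iff (hd : 1 ≤ f.natDegree) {T : ℕ} {x : M} {s : ℝ} :
    s ≤ sl v f T x ↔ Lm v f T x s ≤ -1 := by
  rw [← (Lm_strictMono (v := v) hd T x).le_iff_le, Lm_sl hd]

lemma sl_le_iff (hd : 1 ≤ f.natDegree) {T : ℕ} {x : M} {s : ℝ} :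
    sl v f T x ≤ s ↔ -1 ≤ Lm v f T x s := by
  rw [← (Lm_strictMono (v := v) hd T x).le_iff_le, Lm_sl hd]

/-- the relation between levels for one more step -/
lemma lam_sl (hd : 1 ≤ f.natDegree) (T : ℕ) (x : M) :
    lam v f x (sl v f (T + 1) x) = sl v f T (f.eval x) := by
  symm
  apply sl_eq hd
  exact Lm_sl hd (T + 1) x

lemma Lm_sl_add (hd : 1 ≤ f.natDegree) (a b : ℕ) (x : M) :
    Lm v f a x (sl v f (a + b) x) = sl v f b ((ev f)^[a] x) := by
  symm
  apply sl_eq hd
  rw [← Lm_add]
  exact Lm_sl hd (a + b) x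

/-- points in the same component have the same level -/
lemma sl_eq_of_close (hf : f.Monic) (hd : 1 ≤ f.natDegree) {T : ℕ} {x y : M}
    (h : close v (sl v f T x) x y) : sl v f T y = sl v f T x := by
  apply sl_eq hd
  rw [← (Lm_close hf hd T h).1, Lm_sl hd]

/-- the truncated kernel -/
noncomputable def kap (v : RV M) (f : M[X]) (T : ℕ) (x y : M) : ℝ := tau v (sl v f T x) (x - y)

lemma kap_self (T : ℕ) (x : M) : kap v f T x x = sl v f T x := by
  unfold kap; rw [sub_self, tau_zero]

lemma kap_le_self (T : ℕ) (x y : M) : kap v f T x y ≤ kap v f T x x := by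
  rw [kap_self]; exact tau_le v _ _

lemma kap_comm (hf : f.Monic) (hd : 1 ≤ f.natDegree) (T : ℕ) (x y : M) :
    kap v f T x y = kap v f T y x := by
  unfold kap
  rw [tau_sub_comm v _ y x]
  by_cases h : close v (sl v f T x) x y
  · rw [sl_eq_of_close hf hd h]
  · have h' : ¬ close v (sl v f T y) x y := by
      intro h2
      have := sl_eq_of_close hf hd h2.symm
      rw [← this] at h2
      exact h h2
    rcases le_total (sl v f T x) (sl v f T y) with h3 | h3
    · exact (tau_eq_of_not_close h h3).symm
    · exact tau_eq_of_not_close h' h3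

lemma kap_ultra (hf : f.Monic) (hd : 1 ≤ f.natDegree) (T : ℕ) (x y z : M) :
    min (kap v f T x y) (kap v f T y z) ≤ kap v f T x z := by
  unfold kap
  by_cases h : close v (sl v f T x) x y
  · rw [sl_eq_of_close hf hd h]
    have := tau_add v (sl v f T x) (x - y) (y - z)
    rwa [sub_add_sub_cancel] at this
  · have hlt : tau v (sl v f T x) (x - y) < sl v f T x := lt_of_le_of_ne (tau_le v _ _) h
    have h1 := tau_add v (sl v f T x) (x - y) (y - z)
    rw [sub_add_sub_cancel] at h1
    refine le_trans ?_ h1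
    apply le_min (min_le_left _ _)
    by_cases hyz : y - z = 0
    · rw [hyz, tau_zero, tau_zero]
      exact (min_le_left _ _).trans hlt.le
    · rw [tau_of_ne v hyz, tau_of_ne v hyz]
      apply le_min
      · exact (min_le_left _ _).trans hlt.le
      · exact (min_le_right _ _).trans (min_le_right _ _)

end levels

end Pool.Agent.Helper93.SU
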