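import Mathlib

/-!
# Ultrametric kernels are nonnegative on vectors of mass zero
-/

set_option autoImplicit false

open Finset

namespace Pool.Agent.Helper93.SU

variable {ι : Type*} [DecidableEq ι]

/-- quadratic form with off-diagonal part `k` and diagonal `D` -/
noncomputable def QF (k : ι → ι → ℝ) (s : Finset ι) (D σ : ι → ℝ) : ℝ :=
  ∑ a ∈ s, ∑ b ∈ s, σ a * σ b * (if a = b then D a else k a b)

lemma QF_insert (k : ι → ι → ℝ) (hs : ∀ i j, k i j = k j i) (s : Finset ι) (D σ : ι → ℝ) {i : ι}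
    (hi : i ∉ s) : QF k (insert i s) D σ = σ i ^ 2 * D i + 2 * σ i * ∑ b ∈ s, σ b * k i b + QF k s D σ := by
  unfold QF
  rw [sum_insert hi, sum_insert hi, if_pos rfl]
  have h1 : ∑ b ∈ s, σ i * σ b * (if i = b then D i else k i b) = σ i * ∑ b ∈ s, σ b * k i b := by
    rw [mul_sum]
    apply sum_congr rfl
    intro b hb
    rw [if_neg (fun h : i = b => hi (h ▸ hb))]
    ring
  have h2 : ∑ a ∈ s, ∑ b ∈ insert i s, σ a * σ b * (if a = b then D a else k a b) =
      σ i * ∑ b ∈ s, σ b * k i b + ∑ a ∈ s, ∑ b ∈ s, σ a * σ b * (if a = b then D a else k a b) := by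
    rw [mul_sum, ← sum_add_distrib]
    apply sum_congr rfl
    intro a ha
    rw [sum_insert hi, if_neg (fun h : a = i => hi (h ▸ ha)), hs a i]
    ring
  rw [h1, h2]
  ring

lemma QF_congr (k : ι → ι → ℝ) (s : Finset ι) (D σ D' σ' : ι → ℝ) (hD : ∀ a ∈ s, D a = D' a)
    (hσ : ∀ a ∈ s, σ a = σ' a) : QF k s D σ = QF k s D' σ' := by
  unfold QF
  apply sum_congr rfl
  intro a ha
  apply sum_congr rfl
  intro b hb
  rw [hD a ha, hσ a ha, hσ b hb]

lemma QF_nonneg (k : ι → ι → ℝ) (hs : ∀ i j, k i j = k j i)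
    (hu : ∀ i j l, i ≠ j → j ≠ l → i ≠ l → min (k i j) (k j l) ≤ k i l) (n : ℕ) :
    ∀ (s : Finset ι), s.card = n → ∀ (D σ : ι → ℝ), (∀ i ∈ s, ∀ j ∈ s, i ≠ j → k i j ≤ D i) →
      ∑ i ∈ s, σ i = 0 → 0 ≤ QF k s D σ := by
  induction n with
  | zero =>
    intro s hcard D σ _ _
    rw [card_eq_zero] at hcard
    subst hcard
    simp [QF]
  | succ n ih =>
    intro s hcard D σ hD h0
    by_cases hone : s.card = 1
    · obtain ⟨a, rfl⟩ := card_eq_one.mp hone
      rw [sum_singleton] at h0
      simp [QF, h0]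
    have htwo : 1 < s.card := by omega
    have hne : s.offDiag.Nonempty := by
      obtain ⟨a, ha, b, hb, hab⟩ := one_lt_card.mp htwo
      exact ⟨(a, b), mem_offDiag.mpr ⟨ha, hb, hab⟩⟩
    obtain ⟨⟨i, j⟩, hij, hmax⟩ := exists_max_image s.offDiag (fun q => k q.1 q.2) hne
    obtain ⟨hi, hj, hne'⟩ := mem_offDiag.mp hij
    simp only at hi hj hne' hmax
    -- maximality
    have hkeq : ∀ l ∈ s, l ≠ i → l ≠ j → k i l = k j l := by
      intro l hl hli hlj
      have m1 := hmax (i, l) (mem_offDiag.mpr ⟨hi, hl, hli.symm⟩)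
      have m2 := hmax (j, l) (mem_offDiag.mpr ⟨hj, hl, hlj.symm⟩)
      simp only at m1 m2
      have u1 := hu i j l hne' hlj.symm hli.symm
      have u2 := hu j i l hne'.symm hli.symm hlj.symm
      rw [hs j i] at u2
      rw [min_eq_right m2] at u1
      rw [min_eq_right m1] at u2
      exact le_antisymm u2 u1
    set t := (s.erase j).erase i with ht
    have hit : i ∉ t := notMem_erase i _
    have hjt : j ∉ t := fun h => (mem_erase.mp (mem_erase.mp h).2).1 rfl
    have hs1 : s.erase j = insert i t := (insert_erase (mem_erase.mpr ⟨hne', hi⟩)).symm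
    have hs2 : s = insert j (insert i t) := by rw [← hs1, insert_erase hj]
    have hjit : j ∉ insert i t := by
      rw [mem_insert]; push Not; exact ⟨hne'.symm, hjt⟩
    set σ' : ι → ℝ := Function.update σ i (σ i + σ j) with hσ'
    set D' : ι → ℝ := Function.update D i (k i j) with hD'
    have hσt : ∀ a ∈ t, σ' a = σ a := fun a ha => by
      rw [hσ', Function.update_of_ne (fun h : a = i => hit (h ▸ ha))]
    have hDt : ∀ a ∈ t, D' a = D a := fun a ha => by
      rw [hD', Function.update_of_ne (fun h : a = i => hit (h ▸ ha))]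
    have hσi : σ' i = σ i + σ j := by rw [hσ', Function.update_self]
    have hDi : D' i = k i j := by rw [hD', Function.update_self]
    have key : 0 ≤ QF k (insert i t) D' σ' := by
      apply ih
      · rw [← hs1, card_erase_of_mem hj]; omega
      · intro a ha b hb hab
        rw [← hs1, mem_erase] at ha hb
        by_cases hai : a = i
        · subst hai
          rw [hDi]
          exact hmax (a, b) (mem_offDiag.mpr ⟨hi, hb.2, hab⟩)
        · rw [hD', Function.update_of_ne hai]
          exact hD a ha.2 b hb.2 hab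
      · rw [sum_insert hit, hσi, sum_congr rfl hσt]
        rw [hs2, sum_insert hjit, sum_insert hit] at h0
        linarith
    rw [QF_insert k hs t D' σ' hit, hσi, hDi] at key
    rw [hs2, QF_insert k hs _ D σ hjit, QF_insert k hs t D σ hit, sum_insert hit]
    have e1 : ∑ b ∈ t, σ' b * k i b = ∑ b ∈ t, σ b * k i b :=
      sum_congr rfl fun b hb => by rw [hσt b hb]
    have e2 : ∑ b ∈ t, σ b * k j b = ∑ b ∈ t, σ b * k i b :=
      sum_congr rfl fun b hb => by
        rw [hkeq b (by rw [hs2]; exact mem_insert_of_mem (mem_insert_of_mem hb))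
          (fun h => hit (h ▸ hb)) (fun h => hjt (h ▸ hb))]
    have e3 : QF k t D' σ' = QF k t D σ := QF_congr k t _ _ _ _ hDt hσt
    rw [e1, e3] at key
    rw [e2, hs j i]
    have d1 := hD i hi j hj hne'
    have d2 := hD j hj i hi hne'.symm
    rw [hs j i] at d2
    nlinarith [mul_nonneg (sq_nonneg (σ i)) (sub_nonneg.mpr d1),
      mul_nonneg (sq_nonneg (σ j)) (sub_nonneg.mpr d2)]

/-- **Positivity.** -/
theorem pd [Fintype ι] (k : ι → ι → ℝ) (hs : ∀ i j, k i j = k j i)
    (hu : ∀ i j l, min (k i j) (k j l) ≤ k i l) (hd : ∀ i j, k i j ≤ k i i) (σ : ι → ℝ)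
    (h0 : ∑ i, σ i = 0) : 0 ≤ ∑ i, ∑ j, σ i * σ j * k i j := by
  have h1 := QF_nonneg k hs (fun i j l _ _ _ => hu i j l) univ.card univ rfl (fun i => k i i) σ
    (fun i _ j _ _ => hd i j) h0
  refine h1.trans (le_of_eq ?_)
  unfold QF
  apply sum_congr rfl
  intro a _
  apply sum_congr rfl
  intro b _
  split_ifs with h
  · rw [h]
  · rfl

end Pool.Agent.Helper93.SU
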