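import Pool.Agent.Helper93.SU.Depth
import Pool.Agent.Helper93.SU.PD

/-!
# The energy inequality
-/

set_option autoImplicit false
set_option linter.unusedSectionVars false
set_option linter.unusedVariables false

open Finset Polynomial

namespace Pool.Agent.Helper93.SU

section pdm

variable {α : Type*}

/-- positivity for weighted multisets of points -/
theorem pd_multiset (K : α → α → ℝ) (hs : ∀ a b, K a b = K b a) (W : Multiset (ℝ × α))
    (hu : ∀ a ∈ W, ∀ b ∈ W, ∀ c ∈ W, min (K a.2 b.2) (K b.2 c.2) ≤ K a.2 c.2)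
    (hd : ∀ a ∈ W, ∀ b ∈ W, K a.2 b.2 ≤ K a.2 a.2)
    (h0 : (W.map fun a => a.1).sum = 0) :
    0 ≤ (W.map fun a => a.1 * (W.map fun b => b.1 * K a.2 b.2).sum).sum := by
  classical
  have hsum : ∀ F : ℝ × α → ℝ, ∑ x : W, F (x : ℝ × α) = (W.map F).sum := by
    intro F
    rw [← Multiset.map_univ W F]
    rfl
  have h1 := pd (ι := W) (fun a b => K (a : ℝ × α).2 (b : ℝ × α).2) (fun a b => hs _ _)
    (fun a b c => hu _ (Multiset.coe_mem) _ (Multiset.coe_mem) _ (Multiset.coe_mem))
    (fun a b => hd _ (Multiset.coe_mem) _ (Multiset.coe_mem))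
    (fun a => (a : ℝ × α).1) (by rw [hsum fun a => a.1]; exact h0)
  refine h1.trans (le_of_eq ?_)
  rw [← hsum]
  apply sum_congr rfl
  intro a _
  rw [← hsum, mul_sum]
  apply sum_congr rfl
  intro b _
  ring

lemma sum_map_finset_sum {β : Type*} (Z : Multiset α) (I : Finset β) (F : α → β → ℝ) :
    (Z.map fun z => ∑ y ∈ I, F z y).sum = ∑ y ∈ I, (Z.map fun z => F z y).sum := by
  induction Z using Multiset.induction_on with
  | empty => simp
  | cons a Z ih => simp only [Multiset.map_cons, Multiset.sum_cons, sum_add_distrib, ih]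

lemma sum_map_add' (Z : Multiset α) (F G : α → ℝ) :
    (Z.map fun z => F z + G z).sum = (Z.map F).sum + (Z.map G).sum := by
  induction Z using Multiset.induction_on with
  | empty => simp
  | cons a Z ih => simp only [Multiset.map_cons, Multiset.sum_cons, ih]; ring

lemma sum_map_mul' (Z : Multiset α) (c : ℝ) (F : α → ℝ) :
    (Z.map fun z => c * F z).sum = c * (Z.map F).sum := by
  induction Z using Multiset.induction_on with
  | empty => simp
  | cons a Z ih => simp only [Multiset.map_cons, Multiset.sum_cons, ih]; ring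

lemma sum_map_const' (Z : Multiset α) (c : ℝ) : (Z.map fun _ => c).sum = Multiset.card Z * c := by
  rw [Multiset.map_const', Multiset.sum_replicate, nsmul_eq_mul]

end pdm

variable {M : Type*} [Field M] [IsAlgClosed M] {v : RV M} {f : M[X]}

/-- the kernel with an extra vertex: the disc of level `s` about `p` -/
noncomputable def KK (v : RV M) (f : M[X]) (T : ℕ) (s : ℝ) (p : M) : Option M → Option M → ℝ
  | some x, some y => kap v f T x y
  | some x, none => tau v s (p - x)
  | none, some y => tau v s (p - y)
  | none, none => s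

namespace LocData

variable {X : Set M} {x0 z0 : M} (L : LocData v f X x0 z0)

include L

lemma KK_comm (T : ℕ) (s : ℝ) (p : M) (a b : Option M) :
    KK v f T s p a b = KK v f T s p b a := by
  rcases a with _ | x <;> rcases b with _ | y
  · rfl
  · rfl
  · rfl
  · exact kap_comm L.monic L.hd1 T x y

lemma tau_le_sl {l T : ℕ} (hl : l ≤ T) {p x : M} (hx : close v (-1) x0 ((ev f)^[T] x)) :
    tau v (sl v f l p) (p - x) ≤ sl v f T x := by
  by_contra hcon
  push Not at hcon
  have h1 : close v (sl v f T x) x p := by
    apply close_of_ge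
    rw [tau_sub_comm]
    by_cases hpx : p - x = 0
    · rw [hpx, tau_zero]
    · rw [tau_of_ne v hpx]
      apply le_min le_rfl
      exact hcon.le.trans (tau_le_o v hpx)
  have h2 := sl_eq_of_close L.monic L.hd1 h1
  have h3 : close v (-1) x0 ((ev f)^[T] p) := by
    have := (Lm_close L.monic L.hd1 T h1).2
    rw [Lm_sl L.hd1] at this
    exact hx.trans this
  have h4 := L.sl_mono hl h3
  have h5 := tau_le v (sl v f l p) (p - x)
  rw [h2] at h4
  linarith

/-- conditions on the points of the extended kernel -/
def Ok (f : M[X]) (x0 : M) (v : RV M) (T : ℕ) (a : Option M) : Prop :=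
  ∀ x, a = some x → close v (-1) x0 ((ev f)^[T] x)

lemma KK_diag {l T : ℕ} (hl : l ≤ T) (p : M) {a : Option M} (ha : Ok f x0 v T a) (b : Option M) :
    KK v f T (sl v f l p) p a b ≤ KK v f T (sl v f l p) p a a := by
  rcases a with _ | x <;> rcases b with _ | y
  · exact le_rfl
  · exact tau_le v _ _
  · change tau v (sl v f l p) (p - x) ≤ kap v f T x x
    rw [kap_self]
    exact L.tau_le_sl hl (ha x rfl)
  · exact kap_le_self T x y

lemma KK_ultra {l T : ℕ} (hl : l ≤ T) (p : M) {a b c : Option M} (ha : Ok f x0 v T a)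
    (hb : Ok f x0 v T b) (hc : Ok f x0 v T c) :
    min (KK v f T (sl v f l p) p a b) (KK v f T (sl v f l p) p b c) ≤
      KK v f T (sl v f l p) p a c := by
  have key : ∀ y z : M, min (tau v (sl v f l p) (p - y)) (kap v f T y z) ≤
      tau v (sl v f l p) (p - z) := by
    intro y z
    have h1 := tau_add v (sl v f l p) (p - y) (y - z)
    rw [sub_add_sub_cancel] at h1
    refine le_trans (le_min (min_le_left _ _) ?_) h1
    unfold kap
    by_cases hyz : y - z = 0
    · rw [hyz, tau_zero]
      exact (min_le_left _ _).trans ((tau_le v _ _).trans (by rw [tau_zero]))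
    · rw [tau_of_ne v hyz, tau_of_ne v hyz]
      exact le_min ((min_le_left _ _).trans (tau_le v _ _)) ((min_le_right _ _).trans (min_le_right _ _))
  rcases a with _ | x <;> rcases b with _ | y <;> rcases c with _ | z
  · exact min_le_left _ _
  · exact min_le_right _ _
  · exact (min_le_left _ _).trans (tau_le v _ _)
  · exact key y z
  · exact min_le_left _ _
  · change min (tau v (sl v f l p) (p - x)) (tau v (sl v f l p) (p - z)) ≤ kap v f T x z
    unfold kap
    by_cases hxz : x - z = 0
    · rw [hxz, tau_zero]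
      exact (min_le_left _ _).trans (L.tau_le_sl hl (ha x rfl))
    · rw [tau_of_ne v hxz]
      apply le_min
      · exact (min_le_left _ _).trans (L.tau_le_sl hl (ha x rfl))
      · have h1 := tau_add v (sl v f l p) (x - p) (p - z)
        rw [sub_add_sub_cancel, tau_sub_comm] at h1
        exact h1.trans (tau_le_o v hxz)
  · change min (kap v f T x y) (tau v (sl v f l p) (p - y)) ≤ tau v (sl v f l p) (p - x)
    rw [min_comm, kap_comm L.monic L.hd1]
    exact key y x
  · exact kap_ultra L.monic L.hd1 T x y z

/-- potential of the whole preimage at a point -/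
lemma pot_point (T : ℕ) {x : M} (hx : close v (-1) x0 ((ev f)^[T] x)) :
    ((Zt f T x0).map fun z => kap v f T x z).sum = -1 := by
  have h := pot (v := v) L.monic L.hd1 T x x0 (sl v f T x)
  rw [Lm_sl L.hd1] at h
  have h2 : tau v (-1) ((ev f)^[T] x - x0) = -1 := hx.symm
  rw [h2] at h
  exact h

/-- potential of the whole preimage at the extra vertex -/
lemma pot_vertex {l T : ℕ} (hl : l ≤ T) {p : M} (hp : close v (-1) x0 ((ev f)^[l] p)) :
    ((Zt f T x0).map fun z => tau v (sl v f l p) (p - z)).sum = -(f.natDegree : ℝ) ^ (T - l) := by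
  have hd : (1 : ℝ) ≤ f.natDegree := by exact_mod_cast L.hd1
  have h := pot (v := v) L.monic L.hd1 T p x0 (sl v f l p)
  have e : T = l + (T - l) := by omega
  have h1 : Lm v f T p (sl v f l p) = -(f.natDegree : ℝ) ^ (T - l) := by
    conv_lhs => rw [e]
    rw [Lm_add, Lm_sl L.hd1, L.Lm_low (T - l) L.mem0 le_rfl hp]
    ring
  rw [h1] at h
  have h2 : close v (-(f.natDegree : ℝ) ^ (T - l)) ((ev f)^[T] p) x0 := by
    have h3 := (Lm_close L.monic L.hd1 (T - l) hp).2
    rw [← Function.iterate_add_apply, show T - l + l = T by omega,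
      L.Lm_low (T - l) L.mem0 le_rfl (close_refl _ _), mul_neg_one] at h3
    have h4 : close v (-(f.natDegree : ℝ) ^ (T - l)) x0 ((ev f)^[T - l] x0) :=
      (L.X_K' (T - l) L.mem0).mono (by
        have := one_le_pow₀ hd (n := T - l)
        linarith)
    exact (h4.trans h3).symm
  have h3 : tau v (-(f.natDegree : ℝ) ^ (T - l)) ((ev f)^[T] p - x0) = -(f.natDegree : ℝ) ^ (T - l) := h2
  rw [h3] at h
  exact h

open Classical in
/-- outside the disc the kernels agree -/
lemma kap_eq_tau {l T : ℕ} (hl : l ≤ T) {p x z : M} (hx : close v (-1) x0 ((ev f)^[T] x))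
    (hz : close v (-1) x0 ((ev f)^[T] z))
    (h : ¬ (close v (sl v f l p) p x ∧ close v (sl v f l p) p z)) :
    (close v (sl v f l p) p x → kap v f T x z = tau v (sl v f l p) (p - z)) ∧
    (close v (sl v f l p) p z → kap v f T x z = tau v (sl v f l p) (p - x)) := by
  have key : ∀ y w : M, close v (-1) x0 ((ev f)^[T] y) → close v (sl v f l p) p y →
      ¬ close v (sl v f l p) p w → kap v f T y w = tau v (sl v f l p) (p - w) := by
    intro y w hy h1 h2
    have h3 : sl v f l p ≤ sl v f T y := by
      rw [← sl_eq_of_close L.monic L.hd1 h1]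
      exact L.sl_mono hl hy
    have h4 : ¬ close v (sl v f l p) y w := fun h5 => h2 (h1.trans h5)
    unfold kap
    rw [tau_eq_of_not_close h4 h3]
    exact (tau_eq_of_close h1 w).symm
  constructor
  · intro h1
    exact key x z hx h1 fun h2 => h ⟨h1, h2⟩
  · intro h1
    rw [kap_comm L.monic L.hd1]
    exact key z x hz h1 fun h2 => h ⟨h2, h1⟩

open Classical in
/-- potential of the part of the preimage in the disc -/
lemma pot_part {l T : ℕ} (hl : l ≤ T) {p x : M} (hp : close v (-1) x0 ((ev f)^[l] p))
    (hx : close v (-1) x0 ((ev f)^[T] x)) :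
    (((Zt f T x0).filter fun z => close v (sl v f l p) p z).map fun z => kap v f T x z).sum =
      (if close v (sl v f l p) p x then (f.natDegree : ℝ) ^ (T - l) - 1 else 0) +
        (Multiset.card ((Zt f T x0).filter fun z => close v (sl v f l p) p z)) *
          tau v (sl v f l p) (p - x) := by
  set Z := Zt f T x0 with hZ
  have hZK : ∀ z ∈ Z, close v (-1) x0 ((ev f)^[T] z) := by
    intro z hz
    rw [hZ, mem_Zt L.hd1] at hz
    rw [hz]; exact close_refl _ _
  by_cases hc : close v (sl v f l p) p x
  · rw [if_pos hc]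
    have hτ : tau v (sl v f l p) (p - x) = sl v f l p := hc
    rw [hτ]
    have e1 := L.pot_point T hx
    have e2 := L.pot_vertex hl hp
    rw [← hZ] at e1 e2
    rw [← Multiset.filter_add_not (fun z => close v (sl v f l p) p z) Z, Multiset.map_add,
      Multiset.sum_add] at e1 e2
    have e3 : ((Z.filter fun z => ¬ close v (sl v f l p) p z).map fun z => kap v f T x z).sum =
        ((Z.filter fun z => ¬ close v (sl v f l p) p z).map fun z =>
          tau v (sl v f l p) (p - z)).sum := by
      congr 1
      apply Multiset.map_congr rfl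
      intro z hz
      rw [Multiset.mem_filter] at hz
      exact (L.kap_eq_tau hl hx (hZK z hz.1) fun h => hz.2 h.2).1 hc
    have e4 : ((Z.filter fun z => close v (sl v f l p) p z).map fun z =>
        tau v (sl v f l p) (p - z)).sum =
        Multiset.card (Z.filter fun z => close v (sl v f l p) p z) * sl v f l p := by
      rw [Multiset.map_congr rfl (g := fun _ => sl v f l p) (fun z hz => by
        rw [Multiset.mem_filter] at hz
        exact hz.2), Multiset.map_const', Multiset.sum_replicate, nsmul_eq_mul]
    rw [e3] at e1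
    rw [e4] at e2
    linarith
  · rw [if_neg hc, zero_add]
    rw [Multiset.map_congr rfl (g := fun _ => tau v (sl v f l p) (p - x)) (fun z hz => by
      rw [Multiset.mem_filter] at hz
      exact (L.kap_eq_tau hl hx (hZK z hz.1) fun h => hc h.1).2 hz.2), Multiset.map_const',
      Multiset.sum_replicate, nsmul_eq_mul]

open Classical in
/-- **Energy inequality.** -/
theorem energy {l T : ℕ} (hl : l ≤ T) {p : M} (hp : close v (-1) x0 ((ev f)^[l] p)) (I : Finset M)
    (hI : ∀ x ∈ I, x ∈ X) (hne : I.Nonempty) :
    ((f.natDegree : ℝ) ^ (T - l) - 1) / f.natDegree ^ T *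
      (((I.filter fun x => close v (sl v f l p) p x).card : ℝ) / I.card -
        (Multiset.card ((Zt f T x0).filter fun z => close v (sl v f l p) p z) : ℕ) /
          (f.natDegree : ℝ) ^ T) ^ 2 ≤
      (∑ x ∈ I, ∑ y ∈ I, kap v f T x y) / (I.card : ℝ) ^ 2 + 1 / (f.natDegree : ℝ) ^ T := by
  have hd : (1 : ℝ) ≤ f.natDegree := by exact_mod_cast L.hd1
  set s := sl v f l p with hs
  set Z := Zt f T x0 with hZ
  set ZD := Z.filter fun z => close v s p z with hZD
  set m : ℝ := ((Multiset.card ZD : ℕ) : ℝ) with hm
  set ND : ℝ := ((I.filter fun x => close v s p x).card : ℝ) with hND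
  set N : ℝ := (I.card : ℝ) with hN
  set n : ℝ := (f.natDegree : ℝ) ^ T with hn
  set g : ℝ := (f.natDegree : ℝ) ^ (T - l) - 1 with hg
  have hN0 : 0 < N := by rw [hN]; exact_mod_cast hne.card_pos
  have hn0 : 0 < n := by rw [hn]; positivity
  have hcardZ : ((Multiset.card Z : ℕ) : ℝ) = n := by
    rw [hZ, card_Zt L.hd1, hn]; push_cast; rfl
  have hmn : m ≤ n := by
    rw [hm, ← hcardZ]
    exact_mod_cast Multiset.card_le_card (Multiset.filter_le _ _)
  have hm0 : 0 ≤ m := Nat.cast_nonneg _
  have hg0 : 0 ≤ g := by rw [hg]; have := one_le_pow₀ hd (n := T - l); linarith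
  set K := KK v f T s p with hK
  set lam' : ℝ := -(ND / N - m / n) with hlam'
  have hZK : ∀ z ∈ Z, close v (-1) x0 ((ev f)^[T] z) := by
    intro z hz
    rw [hZ, mem_Zt L.hd1] at hz
    rw [hz]; exact close_refl _ _
  have hIK : ∀ x ∈ I, close v (-1) x0 ((ev f)^[T] x) := fun x hx => L.X_K' T (hI x hx)
  -- the signed measure
  set W : Multiset (ℝ × Option M) := I.val.map (fun x => (1 / N, some x)) +
    Z.map (fun z => (-(1 / n), some z)) + ZD.map (fun z => (lam' / n, some z)) +
      {(-(lam' * m / n), none)} with hW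
  have hWsum : ∀ F : ℝ × Option M → ℝ, (W.map F).sum =
      ∑ x ∈ I, F (1 / N, some x) + (Z.map fun z => F (-(1 / n), some z)).sum +
        (ZD.map fun z => F (lam' / n, some z)).sum + F (-(lam' * m / n), none) := by
    intro F
    rw [hW]
    simp only [Multiset.map_add, Multiset.sum_add, Multiset.map_map, Function.comp_def,
      Multiset.map_singleton, Multiset.sum_singleton]
    rfl
  have hWok : ∀ a ∈ W, Ok f x0 v T a.2 := by
    intro a ha x hx
    rw [hW] at ha
    simp only [Multiset.mem_add, Multiset.mem_map, Multiset.mem_singleton] at ha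
    rcases ha with ((⟨y, hy, rfl⟩ | ⟨y, hy, rfl⟩) | ⟨y, hy, rfl⟩) | rfl
    · simp only [Option.some.injEq] at hx
      rw [← hx]; exact hIK y hy
    · simp only [Option.some.injEq] at hx
      rw [← hx]; exact hZK y hy
    · simp only [Option.some.injEq] at hx
      rw [← hx]; exact hZK y (Multiset.mem_filter.mp hy).1
    · exact absurd hx (by simp)
  have hpos := pd_multiset K (fun a b => L.KK_comm T s p a b) W
    (fun a ha b hb c hc => L.KK_ultra hl p (hWok a ha) (hWok b hb) (hWok c hc))
    (fun a ha b _ => L.KK_diag hl p (hWok a ha) b.2)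
    (by
      rw [hWsum]
      simp only
      rw [sum_const, nsmul_eq_mul, sum_map_const', sum_map_const', hcardZ]
      change N * (1 / N) + n * -(1 / n) + m * (lam' / n) + -(lam' * m / n) = 0
      field_simp
      ring)
  -- potentials
  set Uf : Option M → ℝ := fun a => (W.map fun b => b.1 * K a b.2).sum with hUf
  have hUf1 : ∀ a, Uf a = (1 / N) * ∑ y ∈ I, K a (some y) - (1 / n) * (Z.map fun z => K a (some z)).sum +
      (lam' / n) * (ZD.map fun z => K a (some z)).sum - lam' * m / n * K a none := by
    intro a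
    simp only [hUf]
    rw [hWsum]
    simp only
    rw [← mul_sum, sum_map_mul', sum_map_mul']
    ring
  have hU : ∀ x, close v (-1) x0 ((ev f)^[T] x) → Uf (some x) = (1 / N) * ∑ y ∈ I, kap v f T x y +
      1 / n + lam' / n * (if close v s p x then g else 0) := by
    intro x hx
    rw [hUf1]
    have e1 := L.pot_point T hx
    have e2 := L.pot_part hl hp hx
    rw [← hZ, ← hs] at e2
    rw [← hZ] at e1
    change 1 / N * ∑ y ∈ I, kap v f T x y - 1 / n * (Z.map fun z => kap v f T x z).sum +
      lam' / n * (ZD.map fun z => kap v f T x z).sum - lam' * m / n * tau v s (p - x) = _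
    rw [e1, e2]
    ring
  have hUnone : Uf none = (1 / N) * ∑ y ∈ I, tau v s (p - y) + 1 / n * (g + 1) := by
    rw [hUf1]
    have e1 := L.pot_vertex hl hp
    rw [← hZ, ← hs] at e1
    change 1 / N * ∑ y ∈ I, tau v s (p - y) - 1 / n * (Z.map fun z => tau v s (p - z)).sum +
      lam' / n * (ZD.map fun z => tau v s (p - z)).sum - lam' * m / n * s = _
    have e2 : (ZD.map fun z => tau v s (p - z)).sum = m * s := by
      rw [Multiset.map_congr rfl (g := fun _ => s) (fun z hz => by
        rw [hZD, Multiset.mem_filter] at hz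
        exact hz.2), sum_map_const']
    rw [e1, e2, hg]
    ring
  have hQ : (W.map fun a => a.1 * Uf a.2).sum = (1 / N) * ∑ x ∈ I, Uf (some x) -
      (1 / n) * (Z.map fun z => Uf (some z)).sum + (lam' / n) * (ZD.map fun z => Uf (some z)).sum -
      lam' * m / n * Uf none := by
    rw [hWsum]
    simp only
    rw [← mul_sum, sum_map_mul', sum_map_mul']
    ring
  have hIf : ∑ x ∈ I, (if close v s p x then g else 0) = g * ND := by
    rw [← sum_filter, sum_const, nsmul_eq_mul, mul_comm]
  have hS1 : ∑ x ∈ I, Uf (some x) = (1 / N) * ∑ x ∈ I, ∑ y ∈ I, kap v f T x y + N / n +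
      lam' / n * (g * ND) := by
    rw [sum_congr rfl fun x hx => hU x (hIK x hx), sum_add_distrib, sum_add_distrib, ← mul_sum,
      ← mul_sum, hIf, sum_const, nsmul_eq_mul]
    ring
  have hZf : ((Z.map fun z => if close v s p z then g else 0).sum : ℝ) = m * g := by
    have : ∀ Z' : Multiset M, ((Z'.map fun z => if close v s p z then g else 0).sum : ℝ) =
        (Multiset.card (Z'.filter fun z => close v s p z) : ℕ) * g := by
      intro Z'
      induction Z' using Multiset.induction_on with
      | empty => simp
      | cons a Z' ih =>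
        rw [Multiset.map_cons, Multiset.sum_cons, ih]
        split_ifs with h
        · rw [Multiset.filter_cons_of_pos _ h, Multiset.card_cons]; push_cast; ring
        · rw [Multiset.filter_cons_of_neg _ h]; ring
    exact this Z
  have hS2 : (Z.map fun z => Uf (some z)).sum = lam' / n * (m * g) := by
    rw [Multiset.map_congr rfl fun z hz => hU z (hZK z hz), sum_map_add', sum_map_add', sum_map_mul',
      sum_map_mul', hZf, sum_map_const', hcardZ, sum_map_finset_sum]
    have : ∑ y ∈ I, (Z.map fun z => kap v f T z y).sum = -N := by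
      have h1 : ∀ y ∈ I, (Z.map fun z => kap v f T z y).sum = -1 := by
        intro y hy
        rw [Multiset.map_congr rfl fun z _ => kap_comm L.monic L.hd1 T z y]
        exact L.pot_point T (hIK y hy)
      rw [sum_congr rfl h1, sum_const, nsmul_eq_mul]
      ring
    rw [this]
    field_simp
    ring
  have hS3 : (ZD.map fun z => Uf (some z)).sum = (1 / N) * (g * ND + m * ∑ y ∈ I, tau v s (p - y)) +
      m / n + lam' / n * (m * g) := by
    have hZDK : ∀ z ∈ ZD, close v (-1) x0 ((ev f)^[T] z) := fun z hz =>
      hZK z (Multiset.mem_filter.mp hz).1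
    rw [Multiset.map_congr rfl fun z hz => hU z (hZDK z hz), sum_map_add', sum_map_add', sum_map_mul',
      sum_map_mul', sum_map_const', sum_map_finset_sum]
    have h1 : ((ZD.map fun z => if close v s p z then g else 0).sum : ℝ) = m * g := by
      rw [Multiset.map_congr rfl (g := fun _ => g) (fun z hz => by
        rw [hZD, Multiset.mem_filter] at hz
        exact if_pos hz.2), sum_map_const']
    have h2 : ∑ y ∈ I, (ZD.map fun z => kap v f T z y).sum = g * ND + m * ∑ y ∈ I, tau v s (p - y) := by
      have h3 : ∀ y ∈ I, (ZD.map fun z => kap v f T z y).sum =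
          (if close v s p y then g else 0) + m * tau v s (p - y) := by
        intro y hy
        rw [Multiset.map_congr rfl fun z _ => kap_comm L.monic L.hd1 T z y]
        exact L.pot_part hl hp (hIK y hy)
      rw [sum_congr rfl h3, sum_add_distrib, hIf, mul_sum]
    rw [h1, h2]
    ring
  have hfin : 0 ≤ (∑ x ∈ I, ∑ y ∈ I, kap v f T x y) / N ^ 2 + 1 / n +
      2 * lam' * (g / n) * (ND / N - m / n) + lam' ^ 2 * (g / n) * (m / n) := by
    refine (hpos.trans (le_of_eq hQ)).trans (le_of_eq ?_)
    rw [hS1, hS2, hS3, hUnone]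
    field_simp
    ring
  rw [hlam'] at hfin
  have hmn1 : m / n ≤ 1 := by rw [div_le_one hn0]; exact hmn
  have hgn : 0 ≤ g / n := div_nonneg hg0 hn0.le
  nlinarith [mul_nonneg (mul_nonneg hgn (sq_nonneg (ND / N - m / n))) (sub_nonneg.mpr hmn1)]

end LocData

end Pool.Agent.Helper93.SU
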