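import Pool.Agent.Helper93.SU.Assemble

/-!
# The strong uniform boundedness principle for polynomials: field theory
-/

set_option autoImplicit false
set_option linter.style.haveILetI false

open Polynomial IntermediateField

namespace Pool.Agent.Helper93.SU

open Pool.Agent.Helper33 Pool.Agent.Helper33.UB

section rank

variable {k F : Type} [Field k] [Field F] [Algebra k F]

/-- degree over `k(t)` in a tower -/
lemma finrank_tower_le {M : Type} [Field M] [Algebra k M] [Algebra F M] [IsScalarTower k F M]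
    (t : F) [FiniteDimensional k⟮t⟯ F] [FiniteDimensional F M] :
    FiniteDimensional k⟮algebraMap F M t⟯ M ∧
      Module.finrank k⟮algebraMap F M t⟯ M ≤ Module.finrank k⟮t⟯ F * Module.finrank F M := by
  let φ : F →ₐ[k] M := IsScalarTower.toAlgHom k F M
  let i0 : k⟮t⟯ ≃ₐ[k] k⟮algebraMap F M t⟯ :=
    (equivMap k⟮t⟯ φ).trans (equivOfEq (by rw [adjoin_map, Set.image_singleton]; rfl))
  have hi0 : ∀ z : k⟮t⟯, ((i0 z : k⟮algebraMap F M t⟯) : M) = algebraMap F M (z : F) := fun z => rfl
  haveI : FiniteDimensional k⟮t⟯ M := FiniteDimensional.trans k⟮t⟯ F M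
  have h1 : Module.rank k⟮algebraMap F M t⟯ M ≤ Module.rank k⟮t⟯ M := by
    refine _root_.Algebra.rank_le_of_surjective_injective
      (i0.symm : k⟮algebraMap F M t⟯ →+* k⟮t⟯) (RingHom.id M)
      i0.symm.surjective Function.injective_id ?_
    ext z
    obtain ⟨w, rfl⟩ := i0.surjective z
    change algebraMap k⟮t⟯ M (i0.symm (i0 w)) = ((i0 w : k⟮algebraMap F M t⟯) : M)
    rw [hi0, AlgEquiv.symm_apply_apply]
    rfl
  have h2 : Module.rank k⟮algebraMap F M t⟯ M < Cardinal.aleph0 :=
    lt_of_le_of_lt h1 (Module.rank_lt_aleph0 k⟮t⟯ M)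
  refine ⟨Module.rank_lt_aleph0_iff.mp h2, ?_⟩
  rw [Module.finrank_mul_finrank]
  exact Cardinal.toNat_le_toNat h1 (Module.rank_lt_aleph0 k⟮t⟯ M)

end rank

section final

variable {k K : Type} [Field k] [CharZero k] [Field K] [Algebra k K]

/-- **Per point bound.** -/
theorem point_bound (d : ℕ) (hd : 2 ≤ d) (hle : TransLe d) (hst : TransSt d)
    (hE : ∀ n, PsysBound n)
    (hfg : (⊤ : IntermediateField k K).FG)
    (htr : ∃ x : K, Transcendental k x ∧ Algebra.IsAlgebraic (IntermediateField.adjoin k {x}) K)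
    (D : ℕ) :
    ∃ N : ℕ, ∀ f : Polynomial (AlgebraicClosure K), f.natDegree = d →
      (¬ ∃ (a b : AlgebraicClosure K) (g : Polynomial (AlgebraicClosure K)), a ≠ 0 ∧
          (∀ i, IsAlgebraic k (g.coeff i)) ∧ ∀ z, f.eval (a * z + b) = a * g.eval z + b) →
      ∀ L : IntermediateField K (AlgebraicClosure K), FiniteDimensional K L →
      Module.finrank K L ≤ D → (∀ i, f.coeff i ∈ L) →
      ∀ z : AlgebraicClosure K, (∃ m n : ℕ, m < n ∧
          (fun t => f.eval t)^[m] z = (fun t => f.eval t)^[n] z) →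
      (∃ L' : IntermediateField K (AlgebraicClosure K), FiniteDimensional K L' ∧
        Module.finrank K L' ≤ D ∧ z ∈ L') →
      ∃ a b : ℕ, a < b ∧ b ≤ N ∧
      (fun t => f.eval t)^[a] z = (fun t => f.eval t)^[b] z := by
  classical
  haveI : CharZero (kb k K) := charZero_of_injective_algebraMap (algebraMap k (kb k K)).injective
  haveI : CharZero K := charZero_of_injective_algebraMap (algebraMap k K).injective
  have hN := Pool.Agent.Helper45.FF.isFunctionField_of (KK_fg k K hfg) (KK_tr k K htr)
  obtain ⟨t, ht, -⟩ := KK_tr k K htr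
  haveI hfin0 : FiniteDimensional (kb k K)⟮t⟯ (KK k K) := hN.finiteDimensional t ht
  obtain ⟨N, hN⟩ := abs_bound d hd hle hst (Module.finrank (kb k K)⟮t⟯ (KK k K) * (D * D)) (hE _)
  refine ⟨N + 1, ?_⟩
  intro f hfd hiso L hLfin hLD hfL z hz ⟨L', hL'fin, hL'D, hzL'⟩
  apply exists_small_coincidence f (N + 1) z hz
  rintro ⟨x, hx0, hx⟩
  apply hiso
  -- the compositum
  haveI := hLfin
  haveI := hL'fin
  have hEdim : FiniteDimensional K (L ⊔ L' : IntermediateField K (AlgebraicClosure K)) :=
    IntermediateField.finiteDimensional_sup L L'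
  have hED : Module.finrank K (L ⊔ L' : IntermediateField K (AlgebraicClosure K)) ≤ D * D :=
    (IntermediateField.finrank_sup_le L L').trans (Nat.mul_le_mul hLD hL'D)
  obtain ⟨θ, hθ⟩ := Field.exists_primitive_element K
    (L ⊔ L' : IntermediateField K (AlgebraicClosure K))
  have hθ' : K⟮(θ : AlgebraicClosure K)⟯ = L ⊔ L' := by
    have := congrArg IntermediateField.lift hθ
    rwa [lift_top, lift_adjoin_simple] at this
  have hθint : IsIntegral K (θ : AlgebraicClosure K) := Algebra.IsIntegral.isIntegral _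
  have hθdeg : (minpoly K (θ : AlgebraicClosure K)).natDegree ≤ D * D := by
    rw [← IntermediateField.adjoin.finrank hθint, hθ']
    exact hED
  -- the field over which everything lives
  set M : IntermediateField (KK k K) (AlgebraicClosure K) := (KK k K)⟮(θ : AlgebraicClosure K)⟯ with hM
  have hroot : aeval (θ : AlgebraicClosure K)
      ((minpoly K (θ : AlgebraicClosure K)).map (toKK k K : K →+* KK k K)) = 0 := by
    rw [aeval_def, eval₂_map]
    exact minpoly.aeval K (θ : AlgebraicClosure K)
  have hroot0 : (minpoly K (θ : AlgebraicClosure K)).map (toKK k K : K →+* KK k K) ≠ 0 :=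
    (Polynomial.map_ne_zero_iff (toKK k K : K →+* KK k K).injective).mpr (minpoly.ne_zero hθint)
  have hθint' : IsIntegral (KK k K) (θ : AlgebraicClosure K) :=
    ⟨_, (minpoly.monic hθint).map _, hroot⟩
  haveI hMfin : FiniteDimensional (KK k K) M := adjoin.finiteDimensional hθint'
  have hMD : Module.finrank (KK k K) M ≤ D * D := by
    rw [hM, IntermediateField.adjoin.finrank hθint']
    refine le_trans ?_ hθdeg
    refine (natDegree_le_of_dvd (minpoly.dvd _ _ hroot) hroot0).trans ?_
    exact natDegree_map_le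
  have hKM : ∀ c : K, algebraMap K (AlgebraicClosure K) c ∈ M := by
    intro c
    exact M.algebraMap_mem (toKK k K c)
  have hsub : ∀ w : AlgebraicClosure K, w ∈ L ⊔ L' → w ∈ M := by
    intro w hw
    rw [← hθ'] at hw
    have h1 : (K⟮(θ : AlgebraicClosure K)⟯).toSubfield ≤ M.toSubfield := by
      rw [IntermediateField.adjoin_toSubfield, Subfield.closure_le]
      rintro y (⟨c, rfl⟩ | hy)
      · exact hKM c
      · rw [Set.mem_singleton_iff] at hy
        rw [hy]
        exact mem_adjoin_simple_self (KK k K) _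
    exact h1 hw
  have hfM : ∀ i, f.coeff i ∈ M := fun i => hsub _ ((le_sup_left : L ≤ L ⊔ L') (hfL i))
  have hzM : z ∈ M := hsub _ ((le_sup_right : L' ≤ L ⊔ L') hzL')
  obtain ⟨hfinM, hfrM⟩ := finrank_tower_le (k := kb k K) (F := KK k K) (M := M) t
  have htM : Transcendental (kb k K) (algebraMap (KK k K) M t) := by
    intro h
    exact ht ((isAlgebraic_algebraMap_iff (algebraMap (KK k K) M).injective).mp h)
  -- descend
  obtain ⟨F, hF⟩ : ∃ F : M[X], F.map (algebraMap M (AlgebraicClosure K)) = f := by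
    have : f ∈ lifts (algebraMap M (AlgebraicClosure K)) := by
      rw [lifts_iff_coeff_lifts]
      intro i
      exact ⟨⟨f.coeff i, hfM i⟩, rfl⟩
    obtain ⟨F, hF⟩ := (mem_lifts _).mp this
    exact ⟨F, hF⟩
  have hFd : F.natDegree = d := by rw [← hfd, ← hF, natDegree_map]
  have hev : ∀ w : M, ((F.eval w : M) : AlgebraicClosure K) = f.eval (w : AlgebraicClosure K) := by
    intro w
    rw [← hF]
    exact (eval_map_apply (algebraMap M (AlgebraicClosure K)) w).symm
  have hxM : ∀ i, x i ∈ M := by
    intro i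
    induction i with
    | zero => rw [hx0]; exact hzM
    | succ i ih =>
      rw [hx.step i]
      have := hev ⟨x i, ih⟩
      rw [← this]
      exact (F.eval _).2
  have hxo : Orbit F (fun i => (⟨x i, hxM i⟩ : M)) (N + 1) := by
    refine ⟨?_, ?_, ?_⟩
    · intro i
      apply Subtype.ext
      rw [hev]
      exact hx.step i
    · intro i j hi hj hij
      exact hx.inj i j hi hj (congrArg Subtype.val hij)
    · apply Set.Finite.of_finite_image (f := fun z : M => (z : AlgebraicClosure K))
      · refine hx.fin.subset ?_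
        rintro _ ⟨_, ⟨i, rfl⟩, rfl⟩
        exact ⟨i, rfl⟩
      · exact Subtype.val_injective.injOn
  have hres := hN (kb k K) M (algebraMap (KK k K) M t) htM hfinM
    (hfrM.trans (Nat.mul_le_mul_left _ hMD)) F hFd _ (N + 1) (by omega) hxo
  choose c hc using hres
  have hne : x 1 ≠ x 0 := by
    intro he
    have := hx.inj 1 0 (by omega) (by omega) he
    omega
  have hconj : (conj F (⟨x 0, hxM 0⟩ : M) ⟨x 1, hxM 1⟩).map (algebraMap M (AlgebraicClosure K)) =
      conj f (x 0) (x 1) := by
    unfold conj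
    rw [Polynomial.map_mul, Polynomial.map_sub, Polynomial.map_comp, hF]
    simp only [Polynomial.map_add, Polynomial.map_mul, map_C, map_X]
    rfl
  refine ⟨x 1 - x 0, x 0, conj f (x 0) (x 1), sub_ne_zero.mpr hne, ?_, ?_⟩
  · intro i
    rw [← hconj, coeff_map, ← hc i]
    exact mem_algebraicClosure_iff.mp (c i).2
  · intro w
    have h1 := congrArg (Polynomial.eval w) (conj_comp f hne)
    simpa [eval_comp] using h1

/-- **The strong uniform boundedness principle for polynomials in characteristic zero.** -/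
theorem supb (d : ℕ) (hd : 2 ≤ d) (hle : TransLe d) (hst : TransSt d)
    (hE : ∀ n, PsysBound n)
    (hfg : (⊤ : IntermediateField k K).FG)
    (htr : ∃ x : K, Transcendental k x ∧ Algebra.IsAlgebraic (IntermediateField.adjoin k {x}) K)
    (D : ℕ) :
    ∃ B : ℕ, ∀ f : Polynomial (AlgebraicClosure K), f.natDegree = d →
      (¬ ∃ (a b : AlgebraicClosure K) (g : Polynomial (AlgebraicClosure K)), a ≠ 0 ∧
          (∀ i, IsAlgebraic k (g.coeff i)) ∧ ∀ z, f.eval (a * z + b) = a * g.eval z + b) →
      ∀ L : IntermediateField K (AlgebraicClosure K), FiniteDimensional K L →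
      Module.finrank K L ≤ D → (∀ i, f.coeff i ∈ L) →
      {z : AlgebraicClosure K | (∃ m n : ℕ, m < n ∧
          (fun t => f.eval t)^[m] z = (fun t => f.eval t)^[n] z) ∧
        ∃ L' : IntermediateField K (AlgebraicClosure K), FiniteDimensional K L' ∧
        Module.finrank K L' ≤ D ∧ z ∈ L'}.encard ≤ B := by
  classical
  obtain ⟨N, hN⟩ := point_bound d hd hle hst hE hfg htr D
  refine ⟨(N + 1) ^ 2 * d ^ N, ?_⟩
  intro f hfd hiso L hLfin hLD hfL
  by_contra hcon
  push Not at hcon
  obtain ⟨A, hAsub, hAcard⟩ := Set.exists_subset_encard_eq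
      (k := (((N + 1) ^ 2 * d ^ N + 1 : ℕ) : ℕ∞)) (by
    exact_mod_cast Order.add_one_le_of_lt hcon)
  have hAfin : A.Finite := Set.finite_of_encard_eq_coe hAcard
  have h1 := card_coincidence f (by omega) N hAfin.toFinset (by
    intro z hz
    rw [Set.Finite.mem_toFinset] at hz
    exact hN f hfd hiso L hLfin hLD hfL z (hAsub hz).1 (hAsub hz).2)
  have h2 : (hAfin.toFinset.card : ℕ∞) = A.encard := by
    rw [← Set.encard_coe_eq_coe_finsetCard, Set.Finite.coe_toFinset]
  rw [hAcard] at h2
  have h3 : hAfin.toFinset.card = (N + 1) ^ 2 * d ^ N + 1 := by exact_mod_cast h2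
  rw [hfd] at h1
  omega

end final

end Pool.Agent.Helper93.SU
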