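import Pool.Agent.Helper93.SU.EwDef
import Pool.Agent.Helper33.UB.Greedy
import Pool.Agent.Helper33.UB.PolyInst
import Pool.Agent.Helper88.PolyFinal

/-!
# The global inequality: the gain is arbitrarily large
-/

set_option autoImplicit false
set_option linter.unusedSectionVars false

open Finset Polynomial

namespace Pool.Agent.Helper93.SU

open Pool.Agent.Helper33 Pool.Agent.Helper33.UB

section main

variable {k K V : Type*} [Field k] [Field K] [Algebra k K] {P : PSys k K V}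
  {f : K[X]} {X : Finset K} {T : Finset V}

lemma Ew_eq [DecidableEq K] (v : DV K) (f : K[X]) (I : Finset K) :
    Ew v f I = ∑ x ∈ I, ∑ y ∈ I.erase x, w v f x y := by
  unfold Ew
  apply sum_congr rfl
  intro x _
  congr!

/-- the local hypothesis at a place -/
structure LocHyp (v : DV K) (f : K[X]) (X I : Finset K) (A δ : ℝ) : Prop where
  le : 0 < eps v f X → -(δ / 2 * (I.card : ℝ) ^ 2 * (eps v f X : ℝ)) ≤ Ew v f I
  st : 0 < eps v f X → Ew v f I ≤ δ * (I.card : ℝ) ^ 2 * (eps v f X : ℝ) → ∀ s : Finset K, s ⊆ I →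
    1 / 4 * (I.card : ℝ) < s.card → ∃ x ∈ s, ∃ y ∈ s, x ≠ y ∧ A * (eps v f X : ℝ) ≤ w v f x y

variable [DecidableEq K]

/-- matching at a place with small energy -/
lemma exists_matching_good {v : DV K} (hd : 2 ≤ f.natDegree) (hX : ∀ x ∈ X, f.eval x ∈ X)
    {I : Finset K} (hI : I ⊆ X) {r : ℕ} (hcard : I.card = 2 * (r + 1)) {A δ : ℝ} (hA : 1 ≤ A)
    (h : LocHyp v f X I A δ) (hpos : 0 < eps v f X)
    (hE : Ew v f I ≤ δ * (I.card : ℝ) ^ 2 * (eps v f X : ℝ)) :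
    ∃ a b : Fin (r + 1) → K, Enum I a b ∧
      ((r : ℝ) + 1) * (A / 2 * (eps v f X : ℝ)) ≤ ∑ i, w v f (a i) (b i) := by
  classical
  have hcr : (I.card : ℝ) = 2 * ((r : ℝ) + 1) := by rw [hcard]; push_cast; ring
  obtain ⟨a, b, hE1, hbad⟩ := exists_greedy (fun x y => A * (eps v f X : ℝ) ≤ w v f x y)
    ⌊1 / 4 * (I.card : ℝ)⌋₊ (r + 1) I hcard (by
      intro s hs hs2
      exact h.st hpos hE s hs ((Nat.floor_lt (by positivity)).mp hs2))
  refine ⟨a, b, hE1, ?_⟩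
  set e : ℝ := (eps v f X : ℝ) with he
  have he0 : 0 ≤ e := NNReal.coe_nonneg _
  have h1 := sum_ge_of_greedy (fun i => w v f (a i) (b i)) (fun i => A * e ≤ w v f (a i) (b i))
    (c := A * e) (e := e) (N0 := 1 / 4 * (I.card : ℝ)) (by positivity) he0 (by
      have h2 : (2 * ((univ.filter fun i => ¬ (A * e ≤ w v f (a i) (b i))).card) : ℝ) ≤
          ⌊1 / 4 * (I.card : ℝ)⌋₊ := by exact_mod_cast hbad
      exact h2.trans (Nat.floor_le (by positivity))) (fun i hi => hi)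
    (fun i => w_ge_neg_eps hd hX (hI (hE1.memA i)) (hI (hE1.memB i)) (hE1.ne i i))
  refine le_trans ?_ h1
  rw [hcr]
  push_cast
  have hr : (0 : ℝ) ≤ r := Nat.cast_nonneg r
  have h3 : 0 ≤ (r + 1) * ((A - 1) * e) := by
    apply mul_nonneg (by linarith) (mul_nonneg (by linarith) he0)
  nlinarith

/-- matching at any place -/
lemma exists_matching_any {v : DV K} (hd : 2 ≤ f.natDegree) (hX : ∀ x ∈ X, f.eval x ∈ X)
    {I : Finset K} (hI : I ⊆ X) {r : ℕ} (hcard : I.card = 2 * (r + 1)) :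
    ∃ a b : Fin (r + 1) → K, Enum I a b ∧
      -(((r : ℝ) + 1) * (eps v f X : ℝ)) ≤ ∑ i, w v f (a i) (b i) := by
  classical
  obtain ⟨a, b, hE1, -⟩ := exists_greedy (fun _ _ : K => True) 1 (r + 1) I hcard (by
      intro s hs hs2
      obtain ⟨x, hx, y, hy, hxy⟩ := one_lt_card.mp hs2
      exact ⟨x, hx, y, hy, hxy, trivial⟩)
  refine ⟨a, b, hE1, ?_⟩
  have h1 := sum_le_sum (s := (univ : Finset (Fin (r + 1)))) fun i _ =>
    w_ge_neg_eps (v := v) hd hX (hI (hE1.memA i)) (hI (hE1.memB i)) (hE1.ne i i)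
  rw [sum_const, card_univ, Fintype.card_fin, nsmul_eq_mul] at h1
  push_cast at h1
  linarith

lemma Ew_nonneg_of_eps {v : DV K} (hd : 2 ≤ f.natDegree) (hX : ∀ x ∈ X, f.eval x ∈ X)
    {I : Finset K} (hI : I ⊆ X) (h0 : eps v f X = 0) : 0 ≤ Ew v f I := by
  rw [Ew_eq]
  apply sum_nonneg
  intro x hx
  apply sum_nonneg
  intro y hy
  rw [mem_erase] at hy
  have := w_ge_neg_eps (v := v) hd hX (hI hx) (hI hy.2) hy.1.symm
  rw [h0] at this
  simpa using this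

lemma sum_Ew (hd : 2 ≤ f.natDegree) (hT : Adm0 P f X T) {I : Finset K} (hI : I ⊆ X) :
    ∑ v ∈ T, Ew (P.pl v) f I = 0 := by
  rw [sum_congr rfl (fun v _ => Ew_eq (P.pl v) f I), sum_comm]
  apply sum_eq_zero
  intro x hx
  rw [sum_comm]
  apply sum_eq_zero
  intro y hy
  rw [mem_erase] at hy
  exact hT.sum_w0 hd (hI hx) (hI hy.2) hy.1.symm

/-- the places of large energy carry at most half of the badness of the others -/
lemma fail_le [DecidableEq V] (hd : 2 ≤ f.natDegree) (hX : ∀ x ∈ X, f.eval x ∈ X) (hT : Adm0 P f X T)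
    {I : Finset K} (hI : I ⊆ X) (hne : I.Nonempty) {A δ : ℝ} (hδ : 0 < δ)
    (hloc : ∀ v ∈ T, LocHyp (P.pl v) f X I A δ) :
    ∃ Fi ⊆ T, (∀ v ∈ Fi, 0 < eps (P.pl v) f X ∧
      Ew (P.pl v) f I ≤ δ * (I.card : ℝ) ^ 2 * (eps (P.pl v) f X : ℝ)) ∧
      (∀ v ∈ T, v ∉ Fi → δ * (I.card : ℝ) ^ 2 * (eps (P.pl v) f X : ℝ) ≤ Ew (P.pl v) f I) ∧
      2 * ∑ v ∈ T with v ∉ Fi, (eps (P.pl v) f X : ℝ) ≤ ∑ v ∈ Fi, (eps (P.pl v) f X : ℝ) := by
  classical
  set Fi := T.filter fun v => 0 < eps (P.pl v) f X ∧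
    Ew (P.pl v) f I ≤ δ * (I.card : ℝ) ^ 2 * (eps (P.pl v) f X : ℝ) with hFi
  have hsub : Fi ⊆ T := filter_subset _ _
  have h2 : ∀ v ∈ T, v ∉ Fi → δ * (I.card : ℝ) ^ 2 * (eps (P.pl v) f X : ℝ) ≤ Ew (P.pl v) f I := by
    intro v hv hvF
    by_cases h0 : eps (P.pl v) f X = 0
    · rw [h0]
      simp only [NNReal.coe_zero, mul_zero]
      exact Ew_nonneg_of_eps hd hX hI h0
    · by_contra hcon
      push Not at hcon
      exact hvF (mem_filter.mpr ⟨hv, pos_iff_ne_zero.mpr h0, hcon.le⟩)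
  refine ⟨Fi, hsub, fun v hv => (mem_filter.mp hv).2, h2, ?_⟩
  have hIc : (0 : ℝ) < (I.card : ℝ) ^ 2 := by
    have : (0 : ℝ) < I.card := by exact_mod_cast hne.card_pos
    positivity
  have h3 : ∑ v ∈ T with v ∉ Fi, δ * (I.card : ℝ) ^ 2 * (eps (P.pl v) f X : ℝ) ≤
      ∑ v ∈ T with v ∉ Fi, Ew (P.pl v) f I := by
    apply sum_le_sum
    intro v hv
    rw [mem_filter] at hv
    exact h2 v hv.1 hv.2
  have h4 : ∑ v ∈ Fi, -(δ / 2 * (I.card : ℝ) ^ 2 * (eps (P.pl v) f X : ℝ)) ≤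
      ∑ v ∈ Fi, Ew (P.pl v) f I := by
    apply sum_le_sum
    intro v hv
    have hv' := mem_filter.mp hv
    exact (hloc v hv'.1).le hv'.2.1
  have h5 : ∑ v ∈ Fi, Ew (P.pl v) f I + ∑ v ∈ T with v ∉ Fi, Ew (P.pl v) f I = 0 := by
    rw [← sum_Ew hd hT hI]
    have h6 : T.filter (fun v => v ∈ Fi) = Fi := by
      ext v
      rw [mem_filter]
      exact ⟨fun h => h.2, fun h => ⟨hsub h, h⟩⟩
    have h7 := sum_filter_add_sum_filter_not T (fun v => v ∈ Fi) (fun v => Ew (P.pl v) f I)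
    rw [h6] at h7
    exact h7
  rw [← mul_sum] at h3
  rw [sum_neg_distrib, ← mul_sum] at h4
  set a := ∑ v ∈ T with v ∉ Fi, (eps (P.pl v) f X : ℝ)
  set b := ∑ v ∈ Fi, (eps (P.pl v) f X : ℝ)
  have h8 : δ * (I.card : ℝ) ^ 2 * a ≤ δ / 2 * (I.card : ℝ) ^ 2 * b := by linarith
  have h9 : (δ / 2 * (I.card : ℝ) ^ 2) * (2 * a) ≤ (δ / 2 * (I.card : ℝ) ^ 2) * b := by linarith
  exact le_of_mul_le_mul_left h9 (by positivity)

/-- **Main inequality.** -/
theorem main_ineq [DecidableEq V] (hd : 2 ≤ f.natDegree) (hX : ∀ x ∈ X, f.eval x ∈ X) (hT : Adm0 P f X T)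
    {I : Finset K} (hI : I ⊆ X) {r : ℕ} (hcard : I.card = 2 * (r + 1))
    (hdet : (hankel P.D I r).det ≠ 0) {A δ : ℝ} (hA : 1 ≤ A) (hδ : 0 < δ)
    (hloc : ∀ v ∈ T, LocHyp (P.pl v) f X I A δ) (S : Finset V)
    (hS : ∀ v ∈ T, v ∉ S → Star (P.pl v) I) :
    (A - 1) / 3 * ∑ v ∈ T, (eps (P.pl v) f X : ℝ) ≤ 2 * ((S.card : ℝ) + P.E) := by
  classical
  have hne : I.Nonempty := by rw [← card_pos]; omega
  obtain ⟨Fi, hFiT, hFi, -, hfail⟩ := fail_le hd hX hT hI hne hδ hloc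
  set e : V → ℝ := fun v => (eps (P.pl v) f X : ℝ) with he
  have he0 : ∀ v, 0 ≤ e v := fun v => NNReal.coe_nonneg _
  have hex : ∀ v ∈ T, ∃ a b : Fin (r + 1) → K, Enum I a b ∧
      ((r : ℝ) + 1) * (if v ∈ Fi then A / 2 * e v else - e v) ≤ ∑ i, w (P.pl v) f (a i) (b i) := by
    intro v hv
    by_cases hvF : v ∈ Fi
    · rw [if_pos hvF]
      exact exists_matching_good hd hX hI hcard hA (hloc v hv) (hFi v hvF).1 (hFi v hvF).2
    · rw [if_neg hvF]
      obtain ⟨a, b, h1, h2⟩ := exists_matching_any (v := P.pl v) hd hX hI hcard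
      refine ⟨a, b, h1, ?_⟩
      rw [mul_neg]
      exact h2
  choose! a b hE hsum using hex
  have ham := am P (I := I) hdet T S hT.e (by
    intro v hv x hx y hy hxy
    exact hT.diff x (hI hx) y (hI hy) hxy v hv) hS a b hE
  have h1 : ∑ v ∈ T, ∑ i, w (P.pl v) f (a v i) (b v i) =
      ((∑ v ∈ T, ∑ i, (P.pl v).o (a v i - b v i) : ℤ) : ℝ) := by
    have h2 : ∀ v ∈ T, ∑ i, w (P.pl v) f (a v i) (b v i) =
        ∑ i, ((P.pl v).o (a v i - b v i) : ℝ) + (r + 1) * alpha (P.pl v) f := by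
      intro v _
      unfold w
      rw [sum_add_distrib, sum_const, card_univ, Fintype.card_fin, nsmul_eq_mul]
      push_cast
      ring
    rw [sum_congr rfl h2, sum_add_distrib, ← mul_sum, hT.sum_alpha0 hd, mul_zero, add_zero]
    push_cast
    rfl
  have h2 := sum_le_sum hsum
  rw [h1] at h2
  have h3 : ((∑ v ∈ T, ∑ i, (P.pl v).o (a v i - b v i) : ℤ) : ℝ) ≤
      2 * r * ((S.card : ℝ) + P.E) := by
    have : ((∑ v ∈ T, ∑ i, (P.pl v).o (a v i - b v i) : ℤ) : ℝ) ≤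
      ((2 * r * ((S.card : ℤ) + P.E) : ℤ) : ℝ) := by exact_mod_cast ham
    push_cast at this ⊢
    exact this
  rw [← mul_sum] at h2
  have h4 : ∑ v ∈ T, (if v ∈ Fi then A / 2 * e v else - e v) =
      A / 2 * ∑ v ∈ Fi, e v - ∑ v ∈ T with v ∉ Fi, e v := by
    rw [sum_ite]
    have h6 : T.filter (fun v => v ∈ Fi) = Fi := by
      ext v
      rw [mem_filter]
      exact ⟨fun h => h.2, fun h => ⟨hFiT h, h⟩⟩
    rw [h6, ← mul_sum, sum_neg_distrib]
    ring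
  have h5 : ∑ v ∈ T, e v = ∑ v ∈ Fi, e v + ∑ v ∈ T with v ∉ Fi, e v := by
    have h6 : T.filter (fun v => v ∈ Fi) = Fi := by
      ext v
      rw [mem_filter]
      exact ⟨fun h => h.2, fun h => ⟨hFiT h, h⟩⟩
    have h7 := sum_filter_add_sum_filter_not T (fun v => v ∈ Fi) e
    rw [h6] at h7
    exact h7.symm
  rw [h4] at h2
  change (A - 1) / 3 * ∑ v ∈ T, e v ≤ _
  rw [h5]
  change 2 * ∑ v ∈ T with v ∉ Fi, e v ≤ ∑ v ∈ Fi, e v at hfail
  set p := ∑ v ∈ Fi, e v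
  set q := ∑ v ∈ T with v ∉ Fi, e v
  have hSE : (0 : ℝ) ≤ (S.card : ℝ) + P.E := by positivity
  have hr : (0 : ℝ) ≤ r := Nat.cast_nonneg r
  have h8 : ((r : ℝ) + 1) * ((A - 1) / 3 * (p + q)) ≤ ((r : ℝ) + 1) * (A / 2 * p - q) := by
    apply mul_le_mul_of_nonneg_left _ (by linarith)
    nlinarith
  have h9 : ((r : ℝ) + 1) * ((A - 1) / 3 * (p + q)) ≤ ((r : ℝ) + 1) * (2 * ((S.card : ℝ) + P.E)) := by
    refine h8.trans (h2.trans (h3.trans ?_))
    nlinarith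
  exact le_of_mul_le_mul_left h9 (by linarith)

/-- stars everywhere force `h = 0` -/
theorem sum_eps_of_star (hd : 2 ≤ f.natDegree) (hX : ∀ x ∈ X, f.eval x ∈ X) (hT : Adm0 P f X T)
    {I : Finset K} (hI : I ⊆ X) {r : ℕ} (hr : 1 ≤ r) (hcard : I.card = 2 * (r + 1))
    {A δ : ℝ} (hA : 1 ≤ A) (hδ : 0 < δ)
    (hloc : ∀ v ∈ T, LocHyp (P.pl v) f X I A δ) (hstar : ∀ v ∈ T, Star (P.pl v) I) :
    ∑ v ∈ T, (eps (P.pl v) f X : ℝ) ≤ 0 := by
  classical
  have hne : I.Nonempty := by rw [← card_pos]; omega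
  have hrr : (1 : ℝ) ≤ r := by exact_mod_cast hr
  have hcr : (I.card : ℝ) = 2 * ((r : ℝ) + 1) := by rw [hcard]; push_cast; ring
  set c : ℝ := min δ 1 with hc
  have hc0 : 0 < c := lt_min hδ one_pos
  have key : ∀ v ∈ T, c * (eps (P.pl v) f X : ℝ) ≤ Ew (P.pl v) f I := by
    intro v hv
    have he0 : (0 : ℝ) ≤ (eps (P.pl v) f X : ℝ) := NNReal.coe_nonneg _
    have hbig : c * (eps (P.pl v) f X : ℝ) ≤ δ * (I.card : ℝ) ^ 2 * (eps (P.pl v) f X : ℝ) := by
      apply mul_le_mul_of_nonneg_right _ he0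
      have : (1 : ℝ) ≤ (I.card : ℝ) ^ 2 := by rw [hcr]; nlinarith
      calc c ≤ δ := min_le_left _ _
        _ = δ * 1 := by ring
        _ ≤ _ := mul_le_mul_of_nonneg_left this hδ.le
    by_cases h0 : eps (P.pl v) f X = 0
    · rw [h0]
      simp only [NNReal.coe_zero, mul_zero]
      exact Ew_nonneg_of_eps hd hX hI h0
    have hpos : 0 < eps (P.pl v) f X := pos_iff_ne_zero.mpr h0
    by_cases hfine : Ew (P.pl v) f I ≤ δ * (I.card : ℝ) ^ 2 * (eps (P.pl v) f X : ℝ)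
    · obtain ⟨a, b, hE, hsum⟩ := exists_matching_good hd hX hI hcard hA (hloc v hv) hpos hfine
      obtain ⟨β, hβ⟩ := (hstar v hv).exists_split (by omega)
      set g : K → ℝ := fun x => β x + alpha (P.pl v) f / 2 with hg
      have hw : ∀ x ∈ I, ∀ y ∈ I, x ≠ y → w (P.pl v) f x y = g x + g y := by
        intro x hx y hy hxy
        unfold w
        rw [hβ x hx y hy hxy, hg]
        ring
      have h1 : ∑ i, w (P.pl v) f (a i) (b i) = ∑ x ∈ I, g x := by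
        rw [hE.sum, ← sum_add_distrib]
        apply sum_congr rfl
        intro i _
        exact hw _ (hE.memA i) _ (hE.memB i) (hE.ne i i)
      have h2 : Ew (P.pl v) f I = 2 * ((I.card : ℝ) - 1) * ∑ x ∈ I, g x := by
        rw [Ew_eq]
        have h3 : ∀ x ∈ I, ∑ y ∈ I.erase x, w (P.pl v) f x y =
            ((I.card : ℝ) - 1) * g x + (∑ y ∈ I, g y - g x) := by
          intro x hx
          rw [sum_congr rfl (fun y hy => hw x hx y (mem_erase.mp hy).2 (Ne.symm (mem_erase.mp hy).1)),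
            sum_add_distrib, sum_const, card_erase_of_mem hx, nsmul_eq_mul, ← add_sum_erase I _ hx,
            Nat.cast_sub (by omega)]
          push_cast
          ring
        rw [sum_congr rfl h3, sum_add_distrib, ← mul_sum, sum_sub_distrib, sum_const, nsmul_eq_mul]
        ring
      rw [h2, ← h1]
      have h3 : ((r : ℝ) + 1) * (A / 2 * (eps (P.pl v) f X : ℝ)) ≤
          ∑ i, w (P.pl v) f (a i) (b i) := hsum
      have h4 : c ≤ 1 := min_le_right _ _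
      have h5 : 0 ≤ ∑ i, w (P.pl v) f (a i) (b i) := le_trans (by positivity) h3
      calc c * (eps (P.pl v) f X : ℝ) ≤ 1 * (eps (P.pl v) f X : ℝ) :=
            mul_le_mul_of_nonneg_right h4 he0
        _ ≤ ((r : ℝ) + 1) * (A / 2 * (eps (P.pl v) f X : ℝ)) := by
            have : 0 ≤ ((r : ℝ) + 1) * (A / 2) - 1 := by nlinarith
            have := mul_nonneg this he0
            linarith
        _ ≤ 1 * ∑ i, w (P.pl v) f (a i) (b i) := by rw [one_mul]; exact h3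
        _ ≤ _ := mul_le_mul_of_nonneg_right (by rw [hcr]; linarith) h5
    · push Not at hfine
      exact hbig.trans hfine.le
  have h1 := sum_le_sum key
  rw [sum_Ew hd hT hI, ← mul_sum] at h1
  by_contra hcon
  push Not at hcon
  have := mul_pos hc0 hcon
  linarith

end main

end Pool.Agent.Helper93.SU
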