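import Pool.Agent.Helper93.SU.Energy

/-!
# The local theorem
-/

set_option autoImplicit false
set_option linter.unusedSectionVars false
set_option linter.unusedVariables false

open Finset Polynomial

namespace Pool.Agent.Helper93.SU

variable {M : Type*} [Field M] [IsAlgClosed M] {v : RV M} {f : M[X]}

open Classical in
/-- the energy of a finite set -/
noncomputable def Esum (v : RV M) (I : Finset M) : ℝ := ∑ x ∈ I, ∑ y ∈ I.erase x, v.o (x - y)

namespace LocData

variable {X : Set M} {x0 z0 : M} (L : LocData v f X x0 z0)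

include L

lemma sum_kap_le (T : ℕ) (I : Finset M) (hI : ∀ x ∈ I, x ∈ X) :
    ∑ x ∈ I, ∑ y ∈ I, kap v f T x y ≤ Esum v I + I.card * (T * (f.natDegree - 1)) := by
  classical
  unfold Esum
  have h1 : ∀ x ∈ I, ∑ y ∈ I, kap v f T x y ≤ ∑ y ∈ I.erase x, v.o (x - y) + T * (f.natDegree - 1) := by
    intro x hx
    rw [← add_sum_erase I _ hx, add_comm]
    apply add_le_add
    · apply sum_le_sum
      intro y hy
      exact tau_le_o v (sub_ne_zero.mpr (ne_of_mem_erase hy).symm)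
    · rw [kap_self]
      exact L.sl_le T (L.X_K' T (hI x hx))
  refine (sum_le_sum h1).trans (le_of_eq ?_)
  rw [sum_add_distrib, sum_const, nsmul_eq_mul]

/-- **Lower bound for the energy.** -/
theorem energy_ge (T : ℕ) (I : Finset M) (hI : ∀ x ∈ I, x ∈ X) (hne : I.Nonempty) :
    -((T * (f.natDegree - 1)) / (I.card : ℝ) + 1 / (f.natDegree : ℝ) ^ T) ≤
      Esum v I / (I.card : ℝ) ^ 2 := by
  classical
  have hN : (0 : ℝ) < I.card := by exact_mod_cast hne.card_pos
  have hd : (1 : ℝ) ≤ f.natDegree := by exact_mod_cast L.hd1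
  have h1 := L.energy (Nat.zero_le T) (p := x0) (close_refl _ _) I hI hne
  have h2 := L.sum_kap_le T I hI
  have h3 : (∑ x ∈ I, ∑ y ∈ I, kap v f T x y) / (I.card : ℝ) ^ 2 ≤
      Esum v I / (I.card : ℝ) ^ 2 + (T * (f.natDegree - 1)) / I.card := by
    refine (div_le_div_of_nonneg_right h2 (by positivity)).trans (le_of_eq ?_)
    field_simp
  have h4 : 0 ≤ ((f.natDegree : ℝ) ^ (T - 0) - 1) / f.natDegree ^ T := by
    apply div_nonneg _ (by positivity)
    have := one_le_pow₀ hd (n := T - 0)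
    linarith
  have h5 := mul_nonneg h4 (sq_nonneg (((I.filter fun x => close v (sl v f 0 x0) x0 x).card : ℝ) / I.card -
        (Multiset.card ((Zt f T x0).filter fun z => close v (sl v f 0 x0) x0 z) : ℕ) /
          (f.natDegree : ℝ) ^ T))
  linarith

lemma mt_eq_of_close (t : ℕ) {x z : M} (hx : close v (-1) x0 ((ev f)^[t] x))
    (h : close v (sl v f t x) x z) : mt v f t z = mt v f t x := by
  classical
  have hs := sl_eq_of_close L.monic L.hd1 h
  have hz : close v (-1) x0 ((ev f)^[t] z) := by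
    have := (Lm_close L.monic L.hd1 t h).2
    rw [Lm_sl L.hd1] at this
    exact hx.trans this
  rw [← L.card_fiber t hx (close_refl _ _), ← L.card_fiber t hz (close_refl _ _), hs]
  congr 1
  apply Multiset.filter_congr
  intro w _
  exact ⟨fun h' => h.trans h', fun h' => h.symm.trans h'⟩

open Classical in
/-- bound for the number of points of `I` in a component -/
lemma card_comp_le {T1 k : ℕ} (hk : 1 ≤ k) {p : M} (hp : close v (-1) x0 ((ev f)^[T1] p))
    (I : Finset M) (hI : ∀ x ∈ I, x ∈ X) (hne : I.Nonempty)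
    (hE : Esum v I / (I.card : ℝ) ^ 2 + (((T1 + k : ℕ) : ℝ) * (f.natDegree - 1)) / I.card +
      1 / (f.natDegree : ℝ) ^ (T1 + k) ≤ 1 / (2 * (f.natDegree : ℝ) ^ (3 * T1))) :
    ((I.filter fun x => close v (sl v f T1 p) p x).card : ℝ) ≤
      I.card * (2 * mt v f T1 p / (f.natDegree : ℝ) ^ T1) := by
  have hd : (2 : ℝ) ≤ f.natDegree := by exact_mod_cast L.deg
  have hN : (0 : ℝ) < I.card := by exact_mod_cast hne.card_pos
  have h1 := L.energy (Nat.le_add_right T1 k) hp I hI hne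
  have h2 := L.sum_kap_le (T1 + k) I hI
  rw [L.card_fiber_add T1 k hp (close_refl _ _)] at h1
  set q : ℝ := (f.natDegree : ℝ) with hq
  have hq0 : 0 < q := by linarith
  set N : ℝ := (I.card : ℝ) with hNdef
  set ND : ℝ := ((I.filter fun x => close v (sl v f T1 p) p x).card : ℝ) with hND
  set m : ℝ := (mt v f T1 p : ℝ) with hm
  have hm1 : 1 ≤ m := by rw [hm]; exact_mod_cast L.mt_pos T1 p
  have e1 : (((f.natDegree ^ k * mt v f T1 p : ℕ) : ℝ)) / q ^ (T1 + k) = m / q ^ T1 := by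
    push_cast
    rw [← hq, ← hm, pow_add]
    field_simp
  rw [e1, Nat.add_sub_cancel_left] at h1
  have h3 : (∑ x ∈ I, ∑ y ∈ I, kap v f (T1 + k) x y) / N ^ 2 ≤
      Esum v I / N ^ 2 + (((T1 + k : ℕ) : ℝ) * (q - 1)) / N := by
    refine (div_le_div_of_nonneg_right h2 (by positivity)).trans (le_of_eq ?_)
    field_simp
  have h4 : 1 / (2 * q ^ T1) ≤ (q ^ k - 1) / q ^ (T1 + k) := by
    rw [div_le_div_iff₀ (by positivity) (by positivity), pow_add]
    have : (2 : ℝ) ≤ q ^ k := by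
      calc (2 : ℝ) ≤ q := hd
        _ = q ^ 1 := (pow_one q).symm
        _ ≤ q ^ k := pow_le_pow_right₀ (by linarith) hk
    have h5 : 0 < q ^ T1 := by positivity
    nlinarith
  set dev := ND / N - m / q ^ T1 with hdev
  have h5 : dev ^ 2 ≤ (1 / q ^ T1) ^ 2 := by
    have h6 : 1 / (2 * q ^ T1) * dev ^ 2 ≤ 1 / (2 * q ^ (3 * T1)) :=
      (mul_le_mul_of_nonneg_right h4 (sq_nonneg _)).trans (h1.trans (by linarith))
    have h7 : q ^ (3 * T1) = q ^ T1 * (q ^ T1) ^ 2 := by rw [← pow_mul, ← pow_add]; congr 1; ring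
    rw [h7] at h6
    have h8 : (0 : ℝ) < q ^ T1 := by positivity
    have h9 : 1 / (2 * (q ^ T1 * (q ^ T1) ^ 2)) = 1 / (2 * q ^ T1) * (1 / q ^ T1) ^ 2 := by
      field_simp
    rw [h9] at h6
    exact le_of_mul_le_mul_left h6 (by positivity)
  have h6 : dev ≤ 1 / q ^ T1 := by
    have h7 : (0 : ℝ) ≤ 1 / q ^ T1 := by positivity
    exact le_of_sq_le_sq h5 h7
  have h7 : ND / N ≤ (1 + m) / q ^ T1 := by
    have : ND / N = dev + m / q ^ T1 := by rw [hdev]; ring
    rw [this, add_div]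
    linarith
  rw [div_le_iff₀ hN] at h7
  refine h7.trans ?_
  rw [mul_comm]
  apply mul_le_mul_of_nonneg_left _ hN.le
  apply div_le_div_of_nonneg_right _ (by positivity)
  linarith

open Classical in
/-- the points of `I` in shallow components are few -/
lemma card_shallow_le (hchar : ∀ n : ℕ, n ≠ 0 → n ≤ f.natDegree → (n : M) ≠ 0 ∧ v.o (n : M) = 0) {T1 k l : ℕ}
    (hk : 1 ≤ k) (hT1 : 1 ≤ T1) {A κ : ℝ} (hT : 2 * (f.natDegree - 1 : ℝ) ^ l * (A + 1) ≤ T1)
    (hl : (f.natDegree : ℝ) ^ 2 * ((f.natDegree - 1) / f.natDegree) ^ l ≤ κ / 8)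
    (I : Finset M) (hI : ∀ x ∈ I, x ∈ X) (hne : I.Nonempty)
    (hE : Esum v I / (I.card : ℝ) ^ 2 + (((T1 + k : ℕ) : ℝ) * (f.natDegree - 1)) / I.card +
      1 / (f.natDegree : ℝ) ^ (T1 + k) ≤ 1 / (2 * (f.natDegree : ℝ) ^ (3 * T1))) :
    ((I.filter fun x => sl v f T1 x < A).card : ℝ) ≤ κ / 2 * I.card := by
  have hd : (2 : ℝ) ≤ f.natDegree := by exact_mod_cast L.deg
  have hN : (0 : ℝ) < I.card := by exact_mod_cast hne.card_pos
  set q : ℝ := (f.natDegree : ℝ) with hq
  have hq0 : 0 < q := by linarith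
  set Z := Zt f T1 x0 with hZ
  have hZK : ∀ z ∈ Z, close v (-1) x0 ((ev f)^[T1] z) := by
    intro z hz
    rw [hZ, mem_Zt L.hd1] at hz
    rw [hz]; exact close_refl _ _
  set R := I.filter fun x => sl v f T1 x < A with hR
  -- each point of `R` is counted
  have h1 : ∀ x ∈ R, (1 : ℝ) = (Z.map fun z =>
      if close v (sl v f T1 z) z x ∧ sl v f T1 z < A then 1 / (mt v f T1 z : ℝ) else 0).sum := by
    intro x hx
    rw [hR, mem_filter] at hx
    have hxK := L.X_K' T1 (hI x hx.1)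
    have hm : (0 : ℝ) < mt v f T1 x := by exact_mod_cast L.mt_pos T1 x
    have e1 : ∀ z ∈ Z, (if close v (sl v f T1 z) z x ∧ sl v f T1 z < A then
        1 / (mt v f T1 z : ℝ) else 0) =
        (1 / (mt v f T1 x : ℝ)) * (if close v (sl v f T1 x) x z then 1 else 0) := by
      intro z _
      by_cases hc : close v (sl v f T1 x) x z
      · have hs := sl_eq_of_close L.monic L.hd1 hc
        rw [if_pos hc, if_pos ⟨by rw [hs]; exact hc.symm, by rw [hs]; exact hx.2⟩,
          L.mt_eq_of_close T1 hxK hc, mul_one]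
      · rw [if_neg hc, mul_zero, if_neg]
        rintro ⟨h2, _⟩
        apply hc
        have hs := sl_eq_of_close L.monic L.hd1 h2
        rw [hs]
        exact h2.symm
    rw [Multiset.map_congr rfl e1, sum_map_mul']
    have e2 : (Z.map fun z => if close v (sl v f T1 x) x z then (1 : ℝ) else 0).sum =
        mt v f T1 x := by
      rw [← L.card_fiber T1 hxK (close_refl _ _), ← hZ]
      have : ∀ Z' : Multiset M, (Z'.map fun z => if close v (sl v f T1 x) x z then (1 : ℝ) else 0).sum =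
          (Multiset.card (Z'.filter fun z => close v (sl v f T1 x) x z) : ℕ) := by
        intro Z'
        induction Z' using Multiset.induction_on with
        | empty => simp
        | cons a Z' ih =>
          rw [Multiset.map_cons, Multiset.sum_cons, ih]
          split_ifs with h
          · rw [Multiset.filter_cons_of_pos _ h, Multiset.card_cons]; push_cast; ring
          · rw [Multiset.filter_cons_of_neg _ h]; ring
      exact this Z
    rw [e2]
    field_simp
  have h2 : (R.card : ℝ) = (Z.map fun z => ∑ x ∈ R,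
      if close v (sl v f T1 z) z x ∧ sl v f T1 z < A then 1 / (mt v f T1 z : ℝ) else 0).sum := by
    rw [sum_map_finset_sum, ← sum_congr rfl h1, sum_const, nsmul_eq_mul, mul_one]
  have h3 : ∀ Z' : Multiset M, (∀ z ∈ Z', z ∈ Z) → (Z'.map fun z => ∑ x ∈ R,
      if close v (sl v f T1 z) z x ∧ sl v f T1 z < A then 1 / (mt v f T1 z : ℝ) else 0).sum ≤
      (Multiset.card (Z'.filter fun z => sl v f T1 z < A) : ℕ) * (I.card * (2 / q ^ T1)) := by
    intro Z'
    induction Z' using Multiset.induction_on with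
    | empty => intro _; simp
    | cons a Z' ih =>
      intro hZ'
      have ih' := ih fun z hz => hZ' z (Multiset.mem_cons_of_mem hz)
      rw [Multiset.map_cons, Multiset.sum_cons]
      by_cases h : sl v f T1 a < A
      · rw [Multiset.filter_cons_of_pos (p := fun z => sl v f T1 z < A) _ h, Multiset.card_cons,
          Nat.cast_add, Nat.cast_one, add_mul, one_mul, add_comm]
        apply add_le_add ih'
        have haZ := hZ' a (Multiset.mem_cons_self a Z')
        have hm : (0 : ℝ) < mt v f T1 a := by exact_mod_cast L.mt_pos T1 a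
        have e1 : ∑ x ∈ R, (if close v (sl v f T1 a) a x ∧ sl v f T1 a < A then
            1 / (mt v f T1 a : ℝ) else 0) =
            (R.filter fun x => close v (sl v f T1 a) a x).card * (1 / (mt v f T1 a : ℝ)) := by
          conv_rhs => rw [← nsmul_eq_mul, ← sum_const, sum_filter]
          apply sum_congr rfl
          intro x _
          by_cases hc : close v (sl v f T1 a) a x
          · rw [if_pos ⟨hc, h⟩, if_pos hc]
          · rw [if_neg (fun h' => hc h'.1), if_neg hc]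
        rw [e1]
        have e2 : ((R.filter fun x => close v (sl v f T1 a) a x).card : ℝ) ≤
            I.card * (2 * mt v f T1 a / q ^ T1) := by
          refine le_trans ?_ (L.card_comp_le hk (hZK a haZ) I hI hne hE)
          exact_mod_cast card_le_card (filter_subset_filter _ (filter_subset _ _))
        calc ((R.filter fun x => close v (sl v f T1 a) a x).card : ℝ) * (1 / (mt v f T1 a : ℝ))
            ≤ (I.card * (2 * mt v f T1 a / q ^ T1)) * (1 / (mt v f T1 a : ℝ)) :=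
              mul_le_mul_of_nonneg_right e2 (by positivity)
          _ = I.card * (2 / q ^ T1) := by field_simp
      · rw [Multiset.filter_cons_of_neg (p := fun z => sl v f T1 z < A) _ h]
        have e1 : ∑ x ∈ R, (if close v (sl v f T1 a) a x ∧ sl v f T1 a < A then
            1 / (mt v f T1 a : ℝ) else 0) = 0 := by
          apply sum_eq_zero
          intro x _
          rw [if_neg (fun h' => h h'.2)]
        rw [e1, zero_add]
        exact ih'
  have h4 := h3 Z fun z hz => hz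
  rw [← h2] at h4
  have h5 := L.card_shallow hchar l T1 hT1 A hT (close_refl (-1) x0)
  rw [← hZ] at h5
  have h6 : (0 : ℝ) < q ^ T1 := by positivity
  calc (R.card : ℝ) ≤ (Multiset.card (Z.filter fun z => sl v f T1 z < A) : ℕ) *
        (I.card * (2 / q ^ T1)) := h4
    _ ≤ (2 * (q ^ 2 * ((q - 1) / q) ^ l * q ^ T1)) * (I.card * (2 / q ^ T1)) :=
        mul_le_mul_of_nonneg_right h5 (by positivity)
    _ ≤ (2 * (κ / 8 * q ^ T1)) * (I.card * (2 / q ^ T1)) := by
        apply mul_le_mul_of_nonneg_right _ (by positivity)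
        apply mul_le_mul_of_nonneg_left _ (by norm_num)
        exact mul_le_mul_of_nonneg_right hl h6.le
    _ = κ / 2 * I.card := by field_simp; ring

open Classical in
/-- close pairs in large subsets -/
lemma exists_close_pair (hchar : ∀ n : ℕ, n ≠ 0 → n ≤ f.natDegree → (n : M) ≠ 0 ∧ v.o (n : M) = 0) {T1 k l : ℕ}
    (hk : 1 ≤ k) (hT1 : 1 ≤ T1) {A κ : ℝ} (hT : 2 * (f.natDegree - 1 : ℝ) ^ l * (A + 1) ≤ T1)
    (hl : (f.natDegree : ℝ) ^ 2 * ((f.natDegree - 1) / f.natDegree) ^ l ≤ κ / 8)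
    (I : Finset M) (hI : ∀ x ∈ I, x ∈ X) (hne : I.Nonempty)
    (hE : Esum v I / (I.card : ℝ) ^ 2 + (((T1 + k : ℕ) : ℝ) * (f.natDegree - 1)) / I.card +
      1 / (f.natDegree : ℝ) ^ (T1 + k) ≤ 1 / (2 * (f.natDegree : ℝ) ^ (3 * T1)))
    (hN : (f.natDegree : ℝ) ^ T1 ≤ κ / 2 * I.card)
    (s : Finset M) (hs : s ⊆ I) (hcard : κ * I.card < s.card) :
    ∃ x ∈ s, ∃ y ∈ s, x ≠ y ∧ A ≤ v.o (x - y) := by
  have h1 := L.card_shallow_le hchar hk hT1 hT hl I hI hne hE
  set s' := s.filter fun x => ¬ sl v f T1 x < A with hs'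
  have h2 : (s.card : ℝ) = (s.filter fun x => sl v f T1 x < A).card + s'.card := by
    rw [hs']
    exact_mod_cast (card_filter_add_card_filter_not (s := s) (fun x => sl v f T1 x < A)).symm
  have h3 : ((s.filter fun x => sl v f T1 x < A).card : ℝ) ≤ κ / 2 * I.card := by
    refine le_trans ?_ h1
    exact_mod_cast card_le_card (filter_subset_filter _ hs)
  have h4 : (f.natDegree : ℝ) ^ T1 < s'.card := by linarith
  set Zf := (Zt f T1 x0).toFinset with hZf
  have h5 : Zf.card < s'.card := by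
    have h6 : Zf.card ≤ f.natDegree ^ T1 := by
      refine (Multiset.toFinset_card_le _).trans ?_
      rw [card_Zt L.hd1]
    have h7 : (Zf.card : ℝ) ≤ (f.natDegree : ℝ) ^ T1 := by exact_mod_cast h6
    exact_mod_cast h7.trans_lt h4
  have hex : ∀ x ∈ s', ∃ z, z ∈ Zf ∧ close v (sl v f T1 x) x z := by
    intro x hx
    rw [hs', mem_filter] at hx
    have hxK := L.X_K' T1 (hI x (hs hx.1))
    have h6 := L.mt_pos T1 x
    rw [← L.card_fiber T1 hxK (close_refl _ _)] at h6
    obtain ⟨z, hz⟩ := Multiset.card_pos_iff_exists_mem.mp h6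
    rw [Multiset.mem_filter] at hz
    exact ⟨z, by rw [hZf, Multiset.mem_toFinset]; exact hz.1, hz.2⟩
  choose! g hg using hex
  obtain ⟨x, hx, y, hy, hxy, hgxy⟩ := exists_ne_map_eq_of_card_lt_of_maps_to h5
    (f := g) (fun x hx => (hg x hx).1)
  have hx' := (hg x hx).2
  have hy' := (hg y hy).2
  rw [← hgxy] at hy'
  have e1 := sl_eq_of_close L.monic L.hd1 hx'
  have e2 := sl_eq_of_close L.monic L.hd1 hy'
  have e3 : sl v f T1 x = sl v f T1 y := by rw [← e1, e2]
  rw [← e3] at hy'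
  have hcl := hx'.trans hy'.symm
  rw [hs', mem_filter] at hx hy
  refine ⟨x, hx.1, y, hy.1, hxy, ?_⟩
  rw [close_iff] at hcl
  rcases hcl with h | h
  · exact absurd h hxy
  · exact (not_lt.mp hx.2).trans h

end LocData

section final

/-- **Local theorem, lower bound for the energy.** -/
theorem local_le (d : ℕ) (hd : 2 ≤ d) (δ : ℝ) (hδ : 0 < δ) :
    ∃ N0 : ℕ, ∀ {M : Type*} [Field M] [IsAlgClosed M] {v : RV M} {f : M[X]} {X : Set M} {x0 z0 : M}
      (_ : LocData v f X x0 z0) (_ : f.natDegree = d) (I : Finset M) (_ : ∀ x ∈ I, x ∈ X)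
      (_ : N0 ≤ I.card), -(δ * (I.card : ℝ) ^ 2) ≤ Esum v I := by
  have hd2 : (2 : ℝ) ≤ d := by exact_mod_cast hd
  obtain ⟨T, hT⟩ := exists_pow_lt_of_lt_one (show 0 < δ / 2 by linarith)
    (show (1 : ℝ) / d < 1 by rw [div_lt_one (by linarith)]; linarith)
  obtain ⟨N0, hN0⟩ := exists_nat_ge ((T * (d - 1 : ℝ)) / (δ / 2))
  refine ⟨N0 + 1, ?_⟩
  intro M _ _ v f X x0 z0 L hdeg I hI hcard
  have hne : I.Nonempty := by rw [← card_pos]; omega
  have hN : (0 : ℝ) < I.card := by exact_mod_cast hne.card_pos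
  have h1 := L.energy_ge T I hI hne
  rw [hdeg] at h1
  have h2 : (T * ((d : ℝ) - 1)) / (I.card : ℝ) ≤ δ / 2 := by
    rw [div_le_iff₀ hN]
    rw [div_le_iff₀ (by linarith)] at hN0
    have : (N0 : ℝ) ≤ I.card := by exact_mod_cast (by omega : N0 ≤ I.card)
    nlinarith
  have h3 : 1 / (d : ℝ) ^ T ≤ δ / 2 := by
    rw [one_div_pow] at hT
    exact hT.le
  rw [le_div_iff₀ (by positivity)] at h1
  nlinarith [sq_nonneg (I.card : ℝ)]

/-- **Local theorem, gain** (residue characteristic `0` or larger than the degree). -/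
theorem local_st' (d : ℕ) (hd : 2 ≤ d) (A κ : ℝ) (hκ : 0 < κ) :
    ∃ δ : ℝ, 0 < δ ∧ ∃ N0 : ℕ, ∀ {M : Type*} [Field M] [IsAlgClosed M] {v : RV M} {f : M[X]}
      {X : Set M} {x0 z0 : M} (_ : LocData v f X x0 z0) (_ : f.natDegree = d)
      (_ : ∀ n : ℕ, n ≠ 0 → n ≤ f.natDegree → (n : M) ≠ 0 ∧ v.o (n : M) = 0) (I : Finset M)
      (_ : ∀ x ∈ I, x ∈ X)
      (_ : N0 ≤ I.card) (_ : Esum v I ≤ δ * (I.card : ℝ) ^ 2) (s : Finset M) (_ : s ⊆ I)
      (_ : κ * I.card < s.card), ∃ x ∈ s, ∃ y ∈ s, x ≠ y ∧ A ≤ v.o (x - y) := by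
  have hd2 : (2 : ℝ) ≤ d := by exact_mod_cast hd
  have hd0 : (0 : ℝ) < d := by linarith
  obtain ⟨l, hl⟩ := exists_pow_lt_of_lt_one (show 0 < κ / 8 / d ^ 2 by positivity)
    (show ((d : ℝ) - 1) / d < 1 by rw [div_lt_one hd0]; linarith)
  have hl' : (d : ℝ) ^ 2 * (((d : ℝ) - 1) / d) ^ l ≤ κ / 8 := by
    rw [lt_div_iff₀ (by positivity)] at hl
    rw [mul_comm]
    exact hl.le
  obtain ⟨T1', hT1'⟩ := exists_nat_ge (2 * (d - 1 : ℝ) ^ l * (A + 1))
  set T1 := T1' + 1 with hT1
  set ω : ℝ := 1 / (2 * (d : ℝ) ^ (3 * T1)) with hω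
  have hω0 : 0 < ω := by positivity
  obtain ⟨k', hk'⟩ := exists_pow_lt_of_lt_one (show 0 < ω / 3 by positivity)
    (show (1 : ℝ) / d < 1 by rw [div_lt_one hd0]; linarith)
  set k := k' + 1 with hk
  obtain ⟨N1, hN1⟩ := exists_nat_ge ((((T1 + k : ℕ) : ℝ) * (d - 1 : ℝ)) / (ω / 3))
  obtain ⟨N2, hN2⟩ := exists_nat_ge ((d : ℝ) ^ T1 / (κ / 2))
  refine ⟨ω / 3, by positivity, N1 + N2 + 1, ?_⟩
  intro M _ _ v f X x0 z0 L hdeg hchar I hI hcard hE s hs hsc
  have hne : I.Nonempty := by rw [← card_pos]; omega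
  have hN : (0 : ℝ) < I.card := by exact_mod_cast hne.card_pos
  have c1 : (N1 : ℝ) ≤ I.card := by exact_mod_cast (by omega : N1 ≤ I.card)
  have c2 : (N2 : ℝ) ≤ I.card := by exact_mod_cast (by omega : N2 ≤ I.card)
  apply L.exists_close_pair hchar (T1 := T1) (k := k) (l := l) (by omega) (by omega) (κ := κ)
    _ _ I hI hne _ _ s hs hsc
  · rw [hdeg, hT1]; push_cast; linarith
  · rw [hdeg]; exact hl'
  · rw [hdeg]
    have h1 : Esum v I / (I.card : ℝ) ^ 2 ≤ ω / 3 := by
      rw [div_le_iff₀ (by positivity)]; exact hE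
    have h2 : (((T1 + k : ℕ) : ℝ) * (d - 1)) / I.card ≤ ω / 3 := by
      rw [div_le_iff₀ hN]
      rw [div_le_iff₀ (by positivity)] at hN1
      nlinarith
    have h3 : 1 / (d : ℝ) ^ (T1 + k) ≤ ω / 3 := by
      have h4 : (1 / (d : ℝ)) ^ (T1 + k) ≤ (1 / (d : ℝ)) ^ k' :=
        pow_le_pow_of_le_one (by positivity) (by rw [div_le_one hd0]; linarith) (by omega)
      rw [one_div_pow] at h4
      exact h4.trans hk'.le
    linarith
  · rw [hdeg]
    rw [div_le_iff₀ (by positivity)] at hN2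
    nlinarith

/-- **Local theorem, gain.** -/
theorem local_st (d : ℕ) (hd : 2 ≤ d) (A κ : ℝ) (hκ : 0 < κ) :
    ∃ δ : ℝ, 0 < δ ∧ ∃ N0 : ℕ, ∀ {M : Type*} [Field M] [IsAlgClosed M] {v : RV M} {f : M[X]}
      {X : Set M} {x0 z0 : M} (_ : LocData v f X x0 z0) (_ : f.natDegree = d)
      (_ : ∀ n : ℕ, n ≠ 0 → (n : M) ≠ 0 ∧ v.o (n : M) = 0) (I : Finset M) (_ : ∀ x ∈ I, x ∈ X)
      (_ : N0 ≤ I.card) (_ : Esum v I ≤ δ * (I.card : ℝ) ^ 2) (s : Finset M) (_ : s ⊆ I)
      (_ : κ * I.card < s.card), ∃ x ∈ s, ∃ y ∈ s, x ≠ y ∧ A ≤ v.o (x - y) := by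
  obtain ⟨δ, hδ, N0, h⟩ := local_st' d hd A κ hκ
  exact ⟨δ, hδ, N0, fun L hdeg hchar => h L hdeg fun n hn _ => hchar n hn⟩

end final

end Pool.Agent.Helper93.SU
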