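import Pool.Agent.Helper93.SU.Setup

/-!
# Multiplicities of components
-/

set_option autoImplicit false
set_option linter.unusedSectionVars false
set_option linter.unusedVariables false

open Finset Polynomial

namespace Pool.Agent.Helper93.SU

variable {M : Type*} [Field M] [IsAlgClosed M] {v : RV M} {f : M[X]}

open Classical in
/-- degree of the `t`-th iterate on the component of level `sl t x` through `x` -/
noncomputable def mt (v : RV M) (f : M[X]) (t : ℕ) (x : M) : ℕ :=
  Multiset.card ((Zt f t ((ev f)^[t] x)).filter fun z => close v (sl v f t x) x z)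

section aux

lemma card_filter_bind {α β : Type*} (Z : Multiset α) (F : α → Multiset β) (p : β → Prop)
    [DecidablePred p] :
    Multiset.card ((Z.bind F).filter p) =
      (Z.map fun a => Multiset.card ((F a).filter p)).sum := by
  induction Z using Multiset.induction_on with
  | empty => simp
  | cons a Z ih =>
    rw [Multiset.cons_bind, Multiset.filter_add, Multiset.card_add, ih, Multiset.map_cons,
      Multiset.sum_cons]

lemma sum_map_const_of {α : Type*} (Z : Multiset α) (F : α → ℕ) (c : ℕ) (h : ∀ a ∈ Z, F a = c) :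
    (Z.map F).sum = Multiset.card Z * c := by
  rw [Multiset.map_congr rfl h, Multiset.map_const', Multiset.sum_replicate, smul_eq_mul]

lemma sum_map_le_of {α : Type*} (Z : Multiset α) (F : α → ℕ) (c : ℕ) (p : α → Prop)
    [DecidablePred p]
    (h : ∀ a ∈ Z, p a → F a ≤ c) (h0 : ∀ a ∈ Z, ¬ p a → F a = 0) :
    (Z.map F).sum ≤ Multiset.card (Z.filter p) * c := by
  induction Z using Multiset.induction_on with
  | empty => simp
  | cons a Z ih =>
    rw [Multiset.map_cons, Multiset.sum_cons]
    have ih' := ih (fun b hb => h b (Multiset.mem_cons_of_mem hb))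
      (fun b hb => h0 b (Multiset.mem_cons_of_mem hb))
    by_cases hp : p a
    · rw [Multiset.filter_cons_of_pos _ hp, Multiset.card_cons]
      have := h a (Multiset.mem_cons_self a Z) hp
      rw [add_mul, one_mul]
      omega
    · rw [Multiset.filter_cons_of_neg _ hp, h0 a (Multiset.mem_cons_self a Z) hp, zero_add]
      exact ih'

end aux

section tame

lemma gauss' {g : M[X]} (hg : g ≠ 0) (x : M) (s : ℝ) :
    (∀ j, (taylor x g).coeff j ≠ 0 →
      Sg v g.roots x s + v.o g.leadingCoeff ≤ v.o ((taylor x g).coeff j) + j * s) ∧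
    ∃ j, (taylor x g).coeff j ≠ 0 ∧
      Sg v g.roots x s + v.o g.leadingCoeff = v.o ((taylor x g).coeff j) + j * s := by
  have hl : g.leadingCoeff ≠ 0 := leadingCoeff_ne_zero.mpr hg
  have hprod : C g.leadingCoeff * (g.roots.map fun z => X - C z).prod = g :=
    (IsAlgClosed.splits g).eq_prod_roots.symm
  obtain ⟨h1, j0, h2, h3⟩ := gauss_prod (v := v) g.roots x s
  set P := (g.roots.map fun z => X - C z).prod with hP
  have hc : ∀ j, (taylor x g).coeff j = g.leadingCoeff * (taylor x P).coeff j := by
    intro j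
    conv_lhs => rw [← hprod]
    rw [taylor_mul, taylor_C, coeff_C_mul]
  constructor
  · intro j hj
    rw [hc] at hj ⊢
    have hj' := right_ne_zero_of_mul hj
    rw [v.mul _ _ hl hj']
    have := h1 j hj'
    linarith
  · refine ⟨j0, ?_, ?_⟩
    · rw [hc]; exact mul_ne_zero hl h2
    · rw [hc, v.mul _ _ hl h2, h3]; ring

lemma taylor_derivative_coeff (x : M) (g : M[X]) (j : ℕ) :
    (taylor x (derivative g)).coeff j = (j + 1) * (taylor x g).coeff (j + 1) := by
  rw [taylor_coeff, taylor_coeff]
  have h := congrArg (eval x) (congrFun (congrArg (fun h : M[X] →ₗ[M] M[X] => (h : M[X] → M[X]))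
    (hasseDeriv_comp (R := M) j 1)) g)
  simp only [LinearMap.comp_apply, hasseDeriv_one, LinearMap.smul_apply, eval_smul] at h
  rw [h]
  simp

open Classical in
/-- **Rolle-type lemma** (residue characteristic zero): a disc without critical points is mapped
injectively. -/
lemma tame (hchar : ∀ n : ℕ, n ≠ 0 → n ≤ f.natDegree → (n : M) ≠ 0 ∧ v.o (n : M) = 0)
    (hf : f.Monic) (hd : 2 ≤ f.natDegree) (x η : M) (s : ℝ)
    (hcrit : ∀ c ∈ (derivative f).roots, ¬ close v s x c) :
    Multiset.card ((f - C η).roots.filter fun z => close v s x z) ≤ 1 := by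
  by_contra hcon
  push Not at hcon
  set P := f - C η with hP
  have hPm : P.Monic := monic_sub_C hf (by omega) η
  have hder : derivative P = derivative f := by rw [hP, derivative_sub, derivative_C, sub_zero]
  have hder0 : derivative f ≠ 0 := by
    intro h
    have h1 := congrArg (fun p => coeff p (f.natDegree - 1)) h
    simp only [coeff_derivative, coeff_zero] at h1
    rw [Nat.sub_add_cancel (by omega)] at h1
    change f.leadingCoeff * _ = 0 at h1
    rw [hf.leadingCoeff, one_mul] at h1
    have h2 := (hchar (f.natDegree - 1 + 1) (by omega) (by omega)).1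
    apply h2
    push_cast
    exact h1
  obtain ⟨s1, hs1, hgap⟩ := exists_gap (v := v) (P.roots + (derivative f).roots) x s
  set s2 := (s1 + s) / 2 with hs2
  have h12 : s1 < s2 := by rw [hs2]; linarith
  have h23 : s2 < s := by rw [hs2]; linarith
  -- growth of the Gauss norm of `P`
  have e1 := Sg_sub_eq P.roots x h23.le (fun z hz =>
    hgap z (Multiset.mem_add.mpr (Or.inl hz)) s2 h12.le h23.le)
  obtain ⟨a2, j, hj0, hj⟩ := gauss (v := v) hPm x s2
  obtain ⟨a3, -⟩ := gauss (v := v) hPm x s
  have hj2 : 2 ≤ j := by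
    by_contra h
    push Not at h
    have h4 := a3 j hj0
    have h5 : (2 : ℝ) ≤ (Multiset.card (P.roots.filter fun z => close v s x z) : ℕ) := by
      exact_mod_cast hcon
    have h6 : (j : ℝ) ≤ 1 := by exact_mod_cast Nat.lt_succ_iff.mp h
    nlinarith
  -- the derivative
  have e2 : Sg v (derivative f).roots x s1 = Sg v (derivative f).roots x s2 := by
    have h := Sg_sub_eq (derivative f).roots x h12.le (fun z hz => by
      rw [hgap z (Multiset.mem_add.mpr (Or.inr hz)) s1 le_rfl hs1.le,
        hgap z (Multiset.mem_add.mpr (Or.inr hz)) s2 h12.le h23.le])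
    have h0 : (derivative f).roots.filter (fun z => close v s2 x z) = 0 := by
      rw [Multiset.filter_eq_nil]
      intro c hc hcc
      rw [hgap c (Multiset.mem_add.mpr (Or.inr hc)) s2 h12.le h23.le] at hcc
      exact hcrit c hc hcc
    rw [h0] at h
    simp only [Multiset.card_zero, Nat.cast_zero, mul_zero] at h
    linarith
  have hT : ∀ i, (taylor x (derivative f)).coeff i = ((i + 1 : ℕ) : M) * (taylor x P).coeff (i + 1) := by
    intro i
    rw [← hder, taylor_derivative_coeff]
    push_cast
    ring
  obtain ⟨b1, -⟩ := gauss' (v := v) hder0 x s1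
  obtain ⟨-, i, hi0, hi⟩ := gauss' (v := v) hder0 x s2
  have h7 : (taylor x P).coeff (i + 1) ≠ 0 := by
    rw [hT] at hi0
    exact right_ne_zero_of_mul hi0
  have hle : ∀ m : ℕ, (taylor x P).coeff m ≠ 0 → m ≤ f.natDegree := by
    intro m hm
    have := le_natDegree_of_ne_zero hm
    rwa [natDegree_taylor, hP, natDegree_sub_C] at this
  have hi1 := hle _ h7
  have hj1 := hle _ hj0
  have h8 := a2 (i + 1) h7
  rw [hT, v.mul _ _ (hchar (i + 1) (by omega) hi1).1 h7, (hchar (i + 1) (by omega) hi1).2, zero_add] at hi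
  have h9 : (taylor x (derivative f)).coeff (j - 1) ≠ 0 := by
    rw [hT, Nat.sub_add_cancel (by omega)]
    exact mul_ne_zero (hchar j (by omega) hj1).1 hj0
  have h10 := b1 (j - 1) h9
  rw [hT, Nat.sub_add_cancel (by omega : 1 ≤ j), v.mul _ _ (hchar j (by omega) hj1).1 hj0,
    (hchar j (by omega) hj1).2, zero_add, Nat.cast_sub (by omega : 1 ≤ j), e2] at h10
  have h11 : (2 : ℝ) ≤ j := by exact_mod_cast hj2
  push_cast at h8 h10
  nlinarith

end tame

namespace LocData

variable {X : Set M} {x0 z0 : M} (L : LocData v f X x0 z0)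

include L

open Classical in
/-- the degree can be computed over any point of the basic disc -/
lemma card_fiber (t : ℕ) {x y : M} (hx : close v (-1) x0 ((ev f)^[t] x)) (hy : close v (-1) x0 y) :
    Multiset.card ((Zt f t y).filter fun z => close v (sl v f t x) x z) = mt v f t x := by
  apply card_filter_eq
  intro s hs
  rw [pot L.monic L.hd1, pot L.monic L.hd1, sub_self, tau_zero]
  rw [le_sl_iff L.hd1] at hs
  exact (L.D0_close hx hy).mono hs

open Classical in
lemma card_fiber_add (a b : ℕ) {x y : M} (hx : close v (-1) x0 ((ev f)^[a] x))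
    (hy : close v (-1) x0 y) :
    Multiset.card ((Zt f (a + b) y).filter fun z => close v (sl v f a x) x z) =
      f.natDegree ^ b * mt v f a x := by
  rw [Zt_add, card_filter_bind, sum_map_const_of _ _ (mt v f a x), card_Zt L.hd1]
  intro η hη
  rw [mem_Zt L.hd1] at hη
  exact L.card_fiber a hx (L.K_pre b hy hη)

lemma mt_pos (t : ℕ) (x : M) : 1 ≤ mt v f t x := by
  classical
  unfold mt
  rw [Nat.one_le_iff_ne_zero, Ne, Multiset.card_eq_zero]
  intro h
  have : x ∈ (Zt f t ((ev f)^[t] x)).filter fun z => close v (sl v f t x) x z := by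
    rw [Multiset.mem_filter, mem_Zt L.hd1]
    exact ⟨rfl, close_refl _ _⟩
  rw [h] at this
  exact absurd this (Multiset.notMem_zero x)

open Classical in
/-- growth of levels -/
lemma sl_growth (t : ℕ) {x : M} (hx : close v (-1) x0 ((ev f)^[t + 1] x)) :
    sl v f t x + 1 / mt v f t x ≤ sl v f (t + 1) x := by
  obtain ⟨h1, h2⟩ := L.sl_succ_ge_aux t hx
  have h3 := L.sl_mono_succ t hx
  have h4 := Sg_sub_le (v := v) (Zt f t ((ev f)^[t] x)) x h3
  rw [pot L.monic L.hd1, pot L.monic L.hd1, sub_self, tau_zero, tau_zero, h1, Lm_sl L.hd1] at h4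
  have h5 : (0 : ℝ) < mt v f t x := by exact_mod_cast L.mt_pos t x
  have h6 : 1 ≤ (sl v f (t + 1) x - sl v f t x) * mt v f t x := by
    change _ ≤ (sl v f (t + 1) x - sl v f t x) * (mt v f t x : ℕ) at h4
    linarith
  rw [← div_le_iff₀ h5] at h6
  linarith

open Classical in
lemma mt_succ_le (t : ℕ) {x : M} (hx : close v (-1) x0 ((ev f)^[t + 1] x)) (B : ℕ)
    (hB : ∀ η, close v (-1) x0 η →
      Multiset.card ((f - C η).roots.filter fun z => close v (sl v f (t + 1) x) x z) ≤ B) :
    mt v f (t + 1) x ≤ B * mt v f t (f.eval x) := by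
  unfold mt
  rw [Zt, card_filter_bind, mul_comm]
  have hy : (ev f)^[t] (f.eval x) = (ev f)^[t + 1] x := (Function.iterate_succ_apply _ _ _).symm
  rw [hy]
  apply sum_map_le_of _ _ _ (fun η => close v (sl v f t (f.eval x)) (f.eval x) η)
  · intro η hη _
    apply hB
    rw [mem_Zt L.hd1] at hη
    exact L.K_pre t hx hη
  · intro η hη hnc
    rw [Multiset.card_eq_zero, Multiset.filter_eq_nil]
    intro z hz hcl
    apply hnc
    rw [mem_pre L.hd1] at hz
    have := (lam_close L.monic L.hd1 hcl).2
    rw [lam_sl L.hd1, hz] at this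
    exact this

open Classical in
lemma card_pre_le {x η : M} (hη : close v (-1) x0 η) {s : ℝ} (hs : 0 ≤ s) :
    Multiset.card ((f - C η).roots.filter fun z => close v s x z) ≤ f.natDegree - 1 := by
  obtain ⟨z, hz, hz'⟩ := L.two hη x (show (-1 : ℝ) < 0 by norm_num)
  have h1 : (f - C η).roots.filter (fun z => close v s x z) < (f - C η).roots := by
    refine lt_of_le_of_ne (Multiset.filter_le _ _) ?_
    intro h
    rw [← h, Multiset.mem_filter] at hz
    exact hz' (hz.2.mono hs)
  have h2 := Multiset.card_lt_card h1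
  rw [card_roots_sub_C] at h2
  omega

lemma mt_succ_le' (t : ℕ) {x : M} (hx : close v (-1) x0 ((ev f)^[t + 1] x)) :
    mt v f (t + 1) x ≤ (f.natDegree - 1) * mt v f t (f.eval x) := by
  classical
  exact L.mt_succ_le t hx _ fun η hη => L.card_pre_le hη (L.sl_nonneg t hx)

lemma mt_le (t : ℕ) {x : M} (hx : close v (-1) x0 ((ev f)^[t] x)) :
    mt v f t x ≤ (f.natDegree - 1) ^ t := by
  induction t generalizing x with
  | zero =>
    classical
    rw [pow_zero]
    unfold mt
    refine (Multiset.card_le_card (Multiset.filter_le _ _)).trans ?_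
    simp [Zt]
  | succ t ih =>
    refine (L.mt_succ_le' t hx).trans ?_
    rw [pow_succ, mul_comm]
    apply Nat.mul_le_mul_right
    apply ih
    rw [Function.iterate_succ_apply] at hx
    exact hx

lemma mt_succ_le_tame (hchar : ∀ n : ℕ, n ≠ 0 → n ≤ f.natDegree → (n : M) ≠ 0 ∧ v.o (n : M) = 0)
    (t : ℕ) {x : M} (hx : close v (-1) x0 ((ev f)^[t + 1] x))
    (hcrit : ∀ c ∈ (derivative f).roots, ¬ close v (sl v f (t + 1) x) x c) :
    mt v f (t + 1) x ≤ mt v f t (f.eval x) := by
  classical
  have := L.mt_succ_le t hx 1 fun η _ => tame hchar L.monic L.deg x η _ hcrit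
  rwa [one_mul] at this

/-- if the first `u` components avoid the critical points the degree is bounded -/
lemma mt_le_of_noncrit (hchar : ∀ n : ℕ, n ≠ 0 → n ≤ f.natDegree → (n : M) ≠ 0 ∧ v.o (n : M) = 0)
    (l u : ℕ) {x : M} (hx : close v (-1) x0 ((ev f)^[u + l] x))
    (hcrit : ∀ j < u, ∀ c ∈ (derivative f).roots,
      ¬ close v (sl v f (u + l - j) ((ev f)^[j] x)) ((ev f)^[j] x) c) :
    mt v f (u + l) x ≤ (f.natDegree - 1) ^ l := by
  induction u generalizing x with
  | zero =>
    rw [zero_add] at hx ⊢
    exact L.mt_le l hx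
  | succ u ih =>
    have e1 : u + 1 + l = u + l + 1 := by ring
    rw [e1] at hx ⊢
    refine (L.mt_succ_le_tame hchar (u + l) hx ?_).trans ?_
    · intro c hc
      have := hcrit 0 (by omega) c hc
      rwa [Nat.sub_zero, Function.iterate_zero, id, e1] at this
    · apply ih
      · rw [Function.iterate_succ_apply] at hx
        exact hx
      · intro j hj c hc
        have := hcrit (j + 1) (by omega) c hc
        rw [Function.iterate_succ_apply] at this
        rw [show u + l - j = u + 1 + l - (j + 1) by omega]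
        exact this

end LocData

end Pool.Agent.Helper93.SU
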