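import Pool.Agent.Helper93.SU.Dyn

/-!
# Components of the preimages of the basic disc
-/

set_option autoImplicit false
set_option linter.unusedSectionVars false
set_option linter.unusedVariables false

open Finset Polynomial

namespace Pool.Agent.Helper93.SU

variable {M : Type*} [Field M] [IsAlgClosed M] {v : RV M} {f : M[X]}

/-- the local situation, normalised so that the badness is `1` -/
structure LocData (v : RV M) (f : M[X]) (X : Set M) (x0 z0 : M) : Prop where
  monic : f.Monic
  deg : 2 ≤ f.natDegree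
  inv : ∀ x ∈ X, f.eval x ∈ X
  mem0 : x0 ∈ X
  ge : ∀ x ∈ X, close v (-1) x0 x
  root_ge : ∀ x ∈ X, ∀ z, f.eval z = f.eval x → close v (-1) x z
  att : f.eval z0 = f.eval x0
  att' : ∀ s, -1 < s → ¬ close v s x0 z0

section aux

lemma Sg_le (Z : Multiset M) (x : M) (s : ℝ) : Sg v Z x s ≤ Multiset.card Z * s := by
  induction Z using Multiset.induction_on with
  | empty => simp [Sg]
  | cons a Z ih =>
    rw [Sg_cons, Multiset.card_cons]
    have := tau_le v s (x - a)
    push_cast
    linarith

lemma Sg_all_close (Z : Multiset M) (x : M) (s : ℝ) (h : ∀ z ∈ Z, close v s x z) :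
    Sg v Z x s = Multiset.card Z * s := by
  induction Z using Multiset.induction_on with
  | empty => simp [Sg]
  | cons a Z ih =>
    rw [Sg_cons, Multiset.card_cons, ih fun z hz => h z (Multiset.mem_cons_of_mem hz)]
    have : tau v s (x - a) = s := h a (Multiset.mem_cons_self a Z)
    rw [this]
    push_cast
    ring

lemma all_close_of_Sg (Z : Multiset M) (x : M) (s : ℝ) (h : Multiset.card Z * s ≤ Sg v Z x s) :
    ∀ z ∈ Z, close v s x z := by
  induction Z using Multiset.induction_on with
  | empty => simp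
  | cons a Z ih =>
    rw [Sg_cons, Multiset.card_cons] at h
    push_cast at h
    have h1 := tau_le v s (x - a)
    have h2 := Sg_le (v := v) Z x s
    intro z hz
    rcases Multiset.mem_cons.mp hz with rfl | hz
    · exact close_of_ge (by linarith)
    · exact ih (by linarith) z hz

lemma Sg_ge (Z : Multiset M) (x : M) (s c : ℝ) (h : ∀ z ∈ Z, c ≤ tau v s (x - z)) :
    Multiset.card Z * c ≤ Sg v Z x s := by
  induction Z using Multiset.induction_on with
  | empty => simp [Sg]
  | cons a Z ih =>
    rw [Sg_cons, Multiset.card_cons]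
    have h1 := h a (Multiset.mem_cons_self a Z)
    have h2 := ih fun z hz => h z (Multiset.mem_cons_of_mem hz)
    push_cast
    linarith

lemma Sg_const (Z : Multiset M) (x : M) (s c : ℝ) (h : ∀ z ∈ Z, tau v s (x - z) = c) :
    Sg v Z x s = Multiset.card Z * c := by
  induction Z using Multiset.induction_on with
  | empty => simp [Sg]
  | cons a Z ih =>
    rw [Sg_cons, Multiset.card_cons, h a (Multiset.mem_cons_self a Z),
      ih fun z hz => h z (Multiset.mem_cons_of_mem hz)]
    push_cast
    ring

lemma exists_common_level (Z : Multiset M) (x : M) (h : ∀ z ∈ Z, -1 < tau v 0 (x - z)) :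
    ∃ s, -1 < s ∧ s ≤ 0 ∧ ∀ z ∈ Z, close v s x z := by
  induction Z using Multiset.induction_on with
  | empty => exact ⟨0, by norm_num, le_rfl, by simp⟩
  | cons a Z ih =>
    obtain ⟨s, h1, h2, h3⟩ := ih fun z hz => h z (Multiset.mem_cons_of_mem hz)
    have ha := h a (Multiset.mem_cons_self a Z)
    refine ⟨min s (tau v 0 (x - a)), lt_min h1 ha, (min_le_left _ _).trans h2, ?_⟩
    intro z hz
    rcases Multiset.mem_cons.mp hz with rfl | hz
    · apply close_of_ge
      by_cases hne : x - z = 0
      · rw [hne, tau_zero, tau_zero]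
      · rw [tau_of_ne v hne, tau_of_ne v hne]
        apply le_min le_rfl
        exact (min_le_right _ _).trans (min_le_right _ _)
    · exact (h3 z hz).mono (min_le_left _ _)

end aux

namespace LocData

variable {X : Set M} {x0 z0 : M} (L : LocData v f X x0 z0)

include L

lemma hd1 : 1 ≤ f.natDegree := by have := L.deg; omega

/-- the basic disc -/
lemma D0_close {y y' : M} (h : close v (-1) x0 y) (h' : close v (-1) x0 y') : close v (-1) y y' :=
  h.symm.trans h'

lemma lam_low {x : M} (hx : x ∈ X) {s : ℝ} (hs : s ≤ -1) : lam v f x s = f.natDegree * s := by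
  unfold lam
  rw [Sg_all_close, card_roots_sub_C]
  intro z hz
  rw [mem_pre L.hd1] at hz
  exact (L.root_ge x hx z hz).mono hs

lemma Lm_low (T : ℕ) {x y : M} (hx : x ∈ X) {s : ℝ} (hs : s ≤ -1) (h : close v s x y) :
    Lm v f T y s = f.natDegree ^ T * s := by
  induction T generalizing x y s with
  | zero => simp [Lm]
  | succ T ih =>
    obtain ⟨h1, h2⟩ := lam_close L.monic L.hd1 h
    rw [L.lam_low hx hs] at h1 h2
    have hd : (2 : ℝ) ≤ f.natDegree := by exact_mod_cast L.deg
    rw [Lm, ← h1, ih (L.inv x hx) (by nlinarith) h2]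
    ring

/-- preimages of points of the basic disc lie in the basic disc -/
lemma D0_pre {η z : M} (h : close v (-1) x0 η) (hz : f.eval z = η) : close v (-1) x0 z := by
  have hd : (2 : ℝ) ≤ f.natDegree := by exact_mod_cast L.deg
  have h1 := push (v := v) L.monic L.hd1 x0 η (-1)
  rw [L.lam_low L.mem0 le_rfl] at h1
  have h2 : close v (f.natDegree * (-1)) (f.eval x0) η :=
    (L.D0_close (L.ge _ (L.inv _ L.mem0)) h).mono (by linarith)
  unfold close at h2
  rw [h2] at h1
  exact all_close_of_Sg (f - C η).roots x0 (-1) (by rw [card_roots_sub_C, h1]) z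
    ((mem_pre L.hd1).mpr hz)

lemma K_pre (T : ℕ) {y z : M} (h : close v (-1) x0 y) (hz : (ev f)^[T] z = y) :
    close v (-1) x0 z := by
  induction T generalizing y z with
  | zero => rw [Function.iterate_zero, id] at hz; rw [hz]; exact h
  | succ T ih =>
    rw [Function.iterate_succ_apply] at hz
    exact L.D0_pre (ih h hz) rfl

lemma X_K (T : ℕ) {x : M} (hx : x ∈ X) : (ev f)^[T] x ∈ X := by
  induction T generalizing x with
  | zero => exact hx
  | succ T ih => rw [Function.iterate_succ_apply]; exact ih (L.inv x hx)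

lemma X_K' (T : ℕ) {x : M} (hx : x ∈ X) : close v (-1) x0 ((ev f)^[T] x) := L.ge _ (L.X_K T hx)

lemma K_mono {a b : ℕ} (hab : a ≤ b) {x : M} (h : close v (-1) x0 ((ev f)^[b] x)) :
    close v (-1) x0 ((ev f)^[a] x) := by
  apply L.K_pre (b - a) h
  rw [← Function.iterate_add_apply]
  congr 2
  omega

/-- lower bound for levels of images -/
lemma lam_ge {x : M} (hx : close v (-1) x0 x) (hfx : close v (-1) x0 (f.eval x)) {s : ℝ}
    (hs : -1 ≤ s) : s - (f.natDegree - 1) ≤ lam v f x s := by
  obtain ⟨Z, hZ, hc⟩ := exists_cons L.hd1 x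
  unfold lam
  rw [hZ, Sg_cons, sub_self, tau_zero]
  have h1 : ∀ z ∈ Z, -1 ≤ tau v s (x - z) := by
    intro z hz
    have h2 : f.eval z = f.eval x := by
      rw [← mem_pre L.hd1, hZ]
      exact Multiset.mem_cons_of_mem hz
    have h3 := L.D0_close hx (L.D0_pre hfx h2)
    have h4 : tau v (-1) (x - z) = -1 := h3
    rw [← h4]
    exact tau_mono v hs _
  have h2 := Sg_ge Z x s (-1) h1
  have h3 : ((Multiset.card Z : ℕ) : ℝ) = f.natDegree - 1 := by
    rw [hc, Nat.cast_sub L.hd1, Nat.cast_one]
  rw [h3] at h2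
  linarith

/-- two components -/
lemma two {η : M} (hη : close v (-1) x0 η) (x : M) {s : ℝ} (hs : -1 < s) :
    ∃ z ∈ (f - C η).roots, ¬ close v s x z := by
  by_contra hcon
  push Not at hcon
  have hd : (2 : ℝ) ≤ f.natDegree := by exact_mod_cast L.deg
  have hdpos : (0 : ℝ) < f.natDegree := by linarith
  set t := min s (-1 / f.natDegree) with ht
  have ht1 : -1 < t := by
    apply lt_min hs
    rw [lt_div_iff₀ hdpos]
    linarith
  have hts : t ≤ s := min_le_left _ _
  have ht2 : (f.natDegree : ℝ) * t ≤ -1 := by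
    have : t ≤ -1 / f.natDegree := min_le_right _ _
    rw [le_div_iff₀ hdpos] at this
    linarith
  have key : ∀ w : M, close v (-1) x0 w → f.eval w = f.eval x0 → close v t w x := by
    intro w hw hfw
    by_contra hnc
    have hfx0 := L.ge _ (L.inv _ L.mem0)
    have hdS : (-1 : ℝ) ≤ f.natDegree := by linarith
    have h1 := push (v := v) L.monic L.hd1 w η f.natDegree
    have h2 : -1 ≤ tau v (lam v f w f.natDegree) (f.eval w - η) := by
      have h3 : close v (-1) (f.eval w) η := L.D0_close (by rw [hfw]; exact hfx0) hη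
      have h4 : tau v (-1) (f.eval w - η) = -1 := h3
      rw [← h4]
      apply tau_mono
      have := L.lam_ge hw (by rw [hfw]; exact hfx0) hdS
      linarith
    have h3 : Sg v (f - C η).roots w f.natDegree = f.natDegree * tau v t (w - x) := by
      rw [Sg_const _ _ _ (tau v t (w - x)), card_roots_sub_C]
      intro z hz
      have hxz : close v t x z := (hcon z hz).mono hts
      have hwz : ¬ close v t w z := fun h => hnc (h.trans hxz.symm)
      rw [tau_eq_of_not_close hwz (by linarith [show t ≤ -1 / f.natDegree from min_le_right _ _,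
        show (-1 : ℝ) / f.natDegree ≤ 0 from div_nonpos_of_nonpos_of_nonneg (by norm_num) hdpos.le]),
        tau_sub_comm, tau_sub_comm v t w x]
      exact (tau_eq_of_close hxz w).symm
    rw [h3] at h1
    have h5 : tau v t (w - x) < t := lt_of_le_of_ne (tau_le v _ _) hnc
    rw [← h1] at h2
    nlinarith
  have k1 := key x0 (close_refl _ _) rfl
  have k2 := key z0 (L.D0_pre (L.ge _ (L.inv _ L.mem0)) L.att) L.att
  exact L.att' t ht1 (k1.trans k2.symm)

lemma sl_one_nonneg {x : M} (hx : close v (-1) x0 (f.eval x)) : 0 ≤ sl v f 1 x := by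
  rw [le_sl_iff L.hd1]
  change lam v f x 0 ≤ -1
  by_contra hcon
  push Not at hcon
  have h1 : ∀ z ∈ (f - C (f.eval x)).roots, -1 < tau v 0 (x - z) := by
    intro z hz
    obtain ⟨Z, hZ⟩ := Multiset.exists_cons_of_mem hz
    unfold lam at hcon
    rw [hZ, Sg_cons] at hcon
    have := Sg_le (v := v) Z x 0
    rw [mul_zero] at this
    linarith
  obtain ⟨s, h2, _, h3⟩ := exists_common_level _ _ h1
  obtain ⟨z, hz, hz'⟩ := L.two hx x h2
  exact hz' (h3 z hz)

lemma sl_succ_ge_aux (t : ℕ) {x : M} (hx : close v (-1) x0 ((ev f)^[t + 1] x)) :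
    Lm v f t x (sl v f (t + 1) x) = sl v f 1 ((ev f)^[t] x) ∧ 0 ≤ sl v f 1 ((ev f)^[t] x) := by
  refine ⟨Lm_sl_add L.hd1 t 1 x, L.sl_one_nonneg ?_⟩
  rw [Function.iterate_succ_apply'] at hx
  exact hx

lemma sl_mono_succ (t : ℕ) {x : M} (hx : close v (-1) x0 ((ev f)^[t + 1] x)) :
    sl v f t x ≤ sl v f (t + 1) x := by
  obtain ⟨h1, h2⟩ := L.sl_succ_ge_aux t hx
  rw [sl_le_iff L.hd1, h1]
  linarith

lemma sl_mono {a b : ℕ} (hab : a ≤ b) {x : M} (hx : close v (-1) x0 ((ev f)^[b] x)) :
    sl v f a x ≤ sl v f b x := by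
  induction b, hab using Nat.le_induction with
  | base => exact le_rfl
  | succ b hab ih => exact (ih (L.K_mono (Nat.le_succ b) hx)).trans (L.sl_mono_succ b hx)

lemma sl_nonneg (t : ℕ) {x : M} (hx : close v (-1) x0 ((ev f)^[t + 1] x)) : 0 ≤ sl v f (t + 1) x :=
  (L.sl_one_nonneg (by
    have := L.K_mono (show 1 ≤ t + 1 by omega) hx
    exact this)).trans (L.sl_mono (show 1 ≤ t + 1 by omega) hx)

lemma neg_one_le_sl (t : ℕ) {x : M} (hx : close v (-1) x0 ((ev f)^[t] x)) : -1 ≤ sl v f t x := by
  rcases t with _ | t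
  · rw [sl_zero L.hd1]
  · have := L.sl_nonneg t hx
    linarith

/-- upper bound for levels -/
lemma sl_le (t : ℕ) {x : M} (hx : close v (-1) x0 ((ev f)^[t] x)) :
    sl v f t x ≤ t * (f.natDegree - 1) := by
  have hd : (2 : ℝ) ≤ f.natDegree := by exact_mod_cast L.deg
  induction t generalizing x with
  | zero => rw [sl_zero L.hd1]; norm_num
  | succ t ih =>
    have hfx : close v (-1) x0 ((ev f)^[t] (f.eval x)) := by
      rw [Function.iterate_succ_apply] at hx; exact hx
    have h1 := ih hfx
    have h2 := L.lam_ge (L.K_pre (t + 1) hx rfl) (L.K_pre t hfx rfl) (L.neg_one_le_sl (t + 1) hx)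
    rw [lam_sl L.hd1] at h2
    push_cast
    linarith

end LocData

end Pool.Agent.Helper93.SU
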