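import Pool.Agent.Helper93.SU.Global

/-!
# The window argument
-/

set_option autoImplicit false
set_option linter.unusedSectionVars false

open Finset Polynomial

namespace Pool.Agent.Helper93.SU

open Pool.Agent.Helper33 Pool.Agent.Helper33.UB

section win

variable {k K V : Type*} [Field k] [Field K] [Algebra k K] {P : PSys k K V}
  {f : K[X]} {x : ℕ → K} {N : ℕ}

lemma iterate_eval' (h : Orbit f x N) (j m : ℕ) : x (j + m) = (f.comp^[m] X).eval (x j) := by
  rw [iterate_comp_eval, eval_X]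
  induction m with
  | zero => rfl
  | succ m ih =>
    rw [Function.iterate_succ', Function.comp, ← ih, ← add_assoc, h.step]

/-- closeness persists at a place without badness -/
lemma persist {v : DV K} (hd : 2 ≤ f.natDegree) (h : Orbit f x N) (h0 : eps v f h.X = 0) {c : ℝ}
    (hc : 0 ≤ c) {i j : ℕ} (hij : i < j) (hj : j < N) (hw : c ≤ w v f (x i) (x j)) :
    c ≤ w v f (x (i + 1)) (x (j + 1)) := by
  have hle : EpsLe v f 0 (x j) := by
    have := epsLe_eps v f (h.mem_X j)
    rwa [h0, NNReal.coe_zero] at this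
  have h3 := w_mono hd hle (hc.trans hw) (by
    rw [← h.step, ← h.step]
    intro e
    have := h.inj (i + 1) (j + 1) (by omega) (by omega) e
    omega)
  rw [← h.step, ← h.step] at h3
  exact hw.trans h3

lemma persist_iter {v : DV K} (hd : 2 ≤ f.natDegree) (h : Orbit f x N) (h0 : eps v f h.X = 0) {c : ℝ}
    (hc : 0 ≤ c) {i j : ℕ} (hij : i < j) (hw : c ≤ w v f (x i) (x j)) :
    ∀ t, j + t ≤ N → c ≤ w v f (x (i + t)) (x (j + t)) := by
  intro t
  induction t with
  | zero => intro _; exact hw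
  | succ t ih =>
    intro ht
    exact persist hd h h0 hc (i := i + t) (j := j + t) (by omega) (by omega) (ih (by omega))

lemma w_trans {v : DV K} (hd : 2 ≤ f.natDegree) (h : Orbit f x N) {c : ℝ} {i j l : ℕ} (hij : i < j)
    (hjl : j < l) (hl : l ≤ N) (h1 : c ≤ w v f (x i) (x j)) (h2 : c ≤ w v f (x j) (x l)) :
    c ≤ w v f (x i) (x l) := by
  rcases w_ultra (v := v) (f := f) (x := x i) (y := x j) (z := x l) (c := c)
    (Or.inr h1) (Or.inr h2) with h3 | h3
  · have := h.inj i l (by omega) hl h3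
    omega
  · exact h3

lemma persist_mul {v : DV K} (hd : 2 ≤ f.natDegree) (h : Orbit f x N) (h0 : eps v f h.X = 0) {c : ℝ}
    (hc : 0 ≤ c) {i m : ℕ} (hm : 1 ≤ m) (hw : c ≤ w v f (x i) (x (i + m))) {n : ℕ} (hn : i ≤ n) :
    ∀ q, 1 ≤ q → n + q * m ≤ N → c ≤ w v f (x n) (x (n + q * m)) := by
  intro q
  induction q with
  | zero => intro h0; omega
  | succ q ih =>
    intro _ hq
    have hstep : ∀ a, i ≤ a → a + m ≤ N → c ≤ w v f (x a) (x (a + m)) := by
      intro a ha haN
      have := persist_iter hd h h0 hc (by omega) hw (a - i) (by omega)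
      rwa [show i + (a - i) = a by omega, show i + m + (a - i) = a + m by omega] at this
    rw [Nat.succ_mul] at hq ⊢
    rcases Nat.eq_zero_or_pos q with rfl | hq0
    · rw [zero_mul, zero_add]
      exact hstep n hn (by omega)
    · have h1 := ih hq0 (by omega)
      have h2 := hstep (n + q * m) (by omega) (by omega)
      have hqm : 1 ≤ q * m := Nat.mul_pos hq0 hm
      rw [show n + (q * m + m) = n + q * m + m by ring]
      exact w_trans hd h (i := n) (j := n + q * m) (l := n + q * m + m) (by omega) (by omega)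
        (by omega) h1 h2

variable [DecidableEq K]

/-- a set which is not a star at a place without badness contains a close pair -/
lemma exists_close_pair {v : DV K} (hd : 2 ≤ f.natDegree) (h : Orbit f x N)
    (h0 : eps v f h.X = 0) {W : ℕ} (hW : W ≤ N) {I : Finset K} (hI : I ⊆ (range (W + 1)).image x)
    (hst : ¬ Star v I) : ∃ i j, i < j ∧ j ≤ W ∧ 1 / ((f.natDegree : ℝ) - 1) ≤ w v f (x i) (x j) := by
  by_contra hcon
  push Not at hcon
  apply hst
  have hw0 : ∀ i j, i ≤ W → j ≤ W → i < j → w v f (x i) (x j) = 0 := by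
    intro i j hi hj hij
    have h1 := w_ge_neg_eps (v := v) hd h.X_inv (h.mem_X i) (h.mem_X j)
      (fun e => hij.ne (h.inj i j (by omega) (by omega) e))
    rw [h0, NNReal.coe_zero, neg_zero] at h1
    rcases h1.lt_or_eq with h2 | h2
    · exfalso
      have h3 := w_disc hd h2
      have h4 := hcon i j hij hj
      linarith
    · exact h2.symm
  have hw1 : ∀ y ∈ I, ∀ z ∈ I, y ≠ z → (v.o (y - z) : ℝ) = - alpha v f := by
    intro y hy z hz hyz
    obtain ⟨i, hi, rfl⟩ := mem_image.mp (hI hy)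
    obtain ⟨j, hj, rfl⟩ := mem_image.mp (hI hz)
    rw [mem_range] at hi hj
    have hij : i ≠ j := fun e => hyz (by rw [e])
    rcases lt_or_gt_of_ne hij with hlt | hlt
    · have := hw0 i j (by omega) (by omega) hlt
      unfold w at this
      linarith
    · have := hw0 j i (by omega) (by omega) hlt
      rw [w_comm] at this
      unfold w at this
      linarith
  intro p hp q hq c hc c' hc' h1 h2 h3 h4 h5 h6
  have : ((v.o (p - q) + v.o (c - c') : ℤ) : ℝ) =
      (v.o (p - c) + v.o (q - c') : ℤ) := by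
    push_cast
    rw [hw1 p hp q hq h1, hw1 c hc c' hc' h6, hw1 p hp c hc h2, hw1 q hq c' hc' h5]
  exact_mod_cast this

/-- number of nonstar places -/
lemma exists_nonstar [DecidableEq V] (hd : 2 ≤ f.natDegree) (h : Orbit f x N) {T : Finset V}
    (hT : Adm0 P f h.X T) {W : ℕ} (hW : W + W.factorial ≤ N) {I : Finset K}
    (hI : I ⊆ (range (W + 1)).image x) :
    ∃ S : Finset V, (∀ v ∈ T, v ∉ S → Star (P.pl v) I) ∧
      (S.card : ℝ) ≤ ((f.natDegree : ℝ) ^ 2 + f.natDegree) * ∑ v ∈ T, (eps (P.pl v) f h.X : ℝ) := by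
  classical
  have hdr : (2 : ℝ) ≤ f.natDegree := by exact_mod_cast hd
  set S1 := T.filter fun v => 0 < eps (P.pl v) f h.X with hS1
  set S2 := T.filter fun v => eps (P.pl v) f h.X = 0 ∧ ¬ Star (P.pl v) I with hS2
  refine ⟨S1 ∪ S2, ?_, ?_⟩
  · intro v hv hvS
    by_contra hst
    apply hvS
    by_cases h0 : eps (P.pl v) f h.X = 0
    · exact mem_union_right _ (mem_filter.mpr ⟨hv, h0, hst⟩)
    · exact mem_union_left _ (mem_filter.mpr ⟨hv, pos_iff_ne_zero.mpr h0⟩)
  set H := ∑ v ∈ T, (eps (P.pl v) f h.X : ℝ) with hH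
  have hHn : 0 ≤ H := sum_nonneg fun _ _ => NNReal.coe_nonneg _
  have c1 : (S1.card : ℝ) ≤ (f.natDegree : ℝ) ^ 2 * H := by
    have h1 : (S1.card : ℝ) * (1 / (f.natDegree : ℝ) ^ 2) ≤ H := by
      calc (S1.card : ℝ) * (1 / (f.natDegree : ℝ) ^ 2) =
          ∑ v ∈ S1, (1 / (f.natDegree : ℝ) ^ 2) := by rw [sum_const, nsmul_eq_mul]
        _ ≤ ∑ v ∈ S1, (eps (P.pl v) f h.X : ℝ) :=
            sum_le_sum fun v hv => eps_disc hd (mem_filter.mp hv).2
        _ ≤ H := sum_le_sum_of_subset_of_nonneg (filter_subset _ _) fun _ _ _ => NNReal.coe_nonneg _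
    rw [mul_one_div, div_le_iff₀ (by positivity)] at h1
    linarith
  have c2 : (S2.card : ℝ) ≤ ((f.natDegree : ℝ) - 1) * H := by
    have hne : x W ≠ x (W + W.factorial) := by
      intro e
      have := h.inj W (W + W.factorial) (by omega) hW e
      have := W.factorial_pos
      omega
    have hfar : ∀ v ∈ S2, 1 / ((f.natDegree : ℝ) - 1) ≤
        max 0 (w (P.pl v) f (x W) (x (W + W.factorial))) := by
      intro v hv
      rw [hS2, mem_filter] at hv
      obtain ⟨i, j, hij, hj, hw⟩ := exists_close_pair hd h hv.2.1 (by omega) hI hv.2.2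
      have hdvd : (j - i) ∣ W.factorial := Nat.dvd_factorial (by omega) (by omega)
      obtain ⟨q, hq⟩ := hdvd
      have hq1 : 1 ≤ q := by
        rcases Nat.eq_zero_or_pos q with rfl | h1
        · have := W.factorial_pos
          omega
        · exact h1
      have hw' : 1 / ((f.natDegree : ℝ) - 1) ≤ w (P.pl v) f (x i) (x (i + (j - i))) := by
        rwa [show i + (j - i) = j by omega]
      have hpos : 0 ≤ 1 / ((f.natDegree : ℝ) - 1) := by
        apply div_nonneg zero_le_one
        linarith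
      have := persist_mul hd h hv.2.1 hpos (m := j - i) (by omega) hw' (n := W) (by omega) q hq1 (by
        rw [mul_comm, ← hq]; exact hW)
      rw [mul_comm, ← hq] at this
      exact this.trans (le_max_right _ _)
    have h1 : (S2.card : ℝ) * (1 / ((f.natDegree : ℝ) - 1)) ≤ H := by
      calc (S2.card : ℝ) * (1 / ((f.natDegree : ℝ) - 1)) =
          ∑ v ∈ S2, (1 / ((f.natDegree : ℝ) - 1)) := by rw [sum_const, nsmul_eq_mul]
        _ ≤ ∑ v ∈ S2, max 0 (w (P.pl v) f (x W) (x (W + W.factorial))) := sum_le_sum hfar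
        _ ≤ ∑ v ∈ T, max 0 (w (P.pl v) f (x W) (x (W + W.factorial))) :=
            sum_le_sum_of_subset_of_nonneg (filter_subset _ _) fun _ _ _ => le_max_left _ _
        _ ≤ H := hT.sum_w_pos0 hd h.X_inv (h.mem_X _) (h.mem_X _) hne
    rw [mul_one_div, div_le_iff₀ (by linarith)] at h1
    linarith
  have c3 : ((S1 ∪ S2).card : ℝ) ≤ S1.card + S2.card := by exact_mod_cast card_union_le _ _
  calc ((S1 ∪ S2).card : ℝ) ≤ (f.natDegree : ℝ) ^ 2 * H + ((f.natDegree : ℝ) - 1) * H := by linarith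
    _ ≤ _ := by nlinarith

/-- **Rational relations along the orbit force stars.** -/
theorem star_of_rel (hd : 2 ≤ f.natDegree) (h : Orbit f x N)
    (hker : ∀ y, P.D y = 0 → ∃ c : k, algebraMap k K c = y)
    (hconst : ∀ v, ∀ c : k, c ≠ 0 → (P.pl v).o (algebraMap k K c) = 0) {r : ℕ} {Λ : Finset ℕ}
    (hΛ : (r + 1) * f.natDegree ^ (r + 1) + 2 * r + 3 ≤ Λ.card) (hΛN : ∀ j ∈ Λ, j + (r + 1) ≤ N)
    (h1 : Rel P.D r (Λ.image x)) (h2 : Rel P.D r (Λ.image fun j => x (j + (r + 1)))) :
    ∃ Λ' ⊆ Λ, Λ.card ≤ Λ'.card + r ∧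
      ∀ v, Star (P.pl v) (Λ'.image fun j => x (j + (r + 1))) := by
  set F : K[X] := f.comp^[r + 1] X with hF
  have hFd : F.natDegree = f.natDegree ^ (r + 1) := by
    rw [hF, natDegree_iterate_comp, natDegree_X, mul_one]
  have hxF : ∀ j, x (j + (r + 1)) = F.eval (x j) := fun j => iterate_eval' h j (r + 1)
  obtain ⟨A', C', h0', hA', _, hC', hrel'⟩ := h1
  obtain ⟨A, Cp, h0, hA, hAr, hC, hrel⟩ := h2
  have hinj1 : Set.InjOn x (Λ : Set ℕ) := fun i hi j hj e =>
    h.inj i j (by have := hΛN i hi; omega) (by have := hΛN j hj; omega) e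
  have hinj2 : Set.InjOn (fun j => x (j + (r + 1))) (Λ : Set ℕ) := fun i hi j hj e => by
    have := h.inj (i + (r + 1)) (j + (r + 1)) (hΛN i hi) (hΛN j hj) e
    omega
  have himg : (Λ.image x).image (fun y => F.eval y) = Λ.image fun j => x (j + (r + 1)) := by
    rw [image_image]
    apply image_congr
    intro j _
    exact (hxF j).symm
  have hc1 : (Λ.image x).card = Λ.card := card_image_of_injOn hinj1
  have hc2 : (Λ.image fun j => x (j + (r + 1))).card = Λ.card := card_image_of_injOn hinj2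
  obtain ⟨α, β, hαβ⟩ := affine_of_ode P.D_add P.D_mul F r (by
      rw [hFd]
      calc r < 2 ^ r := Nat.lt_two_pow_self
        _ ≤ 2 ^ (r + 1) := Nat.pow_le_pow_right (by norm_num) (by omega)
        _ ≤ f.natDegree ^ (r + 1) := Nat.pow_le_pow_left hd _) (Λ.image x) (by
      rw [hFd, hc1]; omega) (by
      rw [himg, hc2]
      omega) h0 hA hAr hC (by
      intro y hy
      obtain ⟨j, hj, rfl⟩ := mem_image.mp hy
      rw [← hxF]
      exact hrel _ (mem_image_of_mem _ hj)) h0' hA' hC' hrel'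
  rw [himg] at hαβ
  refine ⟨Λ.filter fun j => P.D (x (j + (r + 1))) = α * x (j + (r + 1)) + β, filter_subset _ _, ?_, ?_⟩
  · have h3 := card_filter_add_card_filter_not (s := Λ)
      (fun j => P.D (x (j + (r + 1))) = α * x (j + (r + 1)) + β)
    have h4 : (Λ.filter fun j => ¬ (P.D (x (j + (r + 1))) = α * x (j + (r + 1)) + β)).card ≤ r := by
      refine le_trans ?_ hαβ
      apply card_le_card_of_injOn (fun j => x (j + (r + 1)))
      · intro j hj
        have hj' := mem_filter.mp hj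
        exact mem_coe.mpr (mem_filter.mpr ⟨mem_image_of_mem _ hj'.1, hj'.2⟩)
      · intro i hi j hj e
        exact hinj2 (mem_filter.mp hi).1 (mem_filter.mp hj).1 e
    omega
  · intro v
    have hD : ∀ y ∈ ((Λ.filter fun j => P.D (x (j + (r + 1))) = α * x (j + (r + 1)) + β).image
        fun j => x (j + (r + 1))), P.D y = α * y + β := by
      intro y hy
      obtain ⟨j, hj, rfl⟩ := mem_image.mp hy
      exact (mem_filter.mp hj).2
    have key : ∀ y z y' z', P.D y = α * y + β → P.D z = α * z + β → P.D y' = α * y' + β →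
        P.D z' = α * z' + β → y ≠ z → y' ≠ z' → (P.pl v).o (y - z) = (P.pl v).o (y' - z') := by
      intro y z y' z' e1 e2 e3 e4 hyz hyz'
      have n1 : y - z ≠ 0 := sub_ne_zero.mpr hyz
      have n2 : y' - z' ≠ 0 := sub_ne_zero.mpr hyz'
      obtain ⟨c, hc⟩ := hker ((y - z) / (y' - z')) (by
        rw [P.D_div _ _ n2, P.D_sub, P.D_sub, e1, e2, e3, e4]
        rw [div_eq_zero_iff]
        left
        ring)
      have hc0 : c ≠ 0 := by
        rintro rfl
        rw [map_zero] at hc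
        exact div_ne_zero n1 n2 hc.symm
      have h5 := hconst v c hc0
      rw [hc, DV.o_div _ _ _ n1 n2] at h5
      omega
    intro p hp q hq c hc c' hc' n1 n2 n3 n4 n5 n6
    rw [key p q p c (hD p hp) (hD q hq) (hD p hp) (hD c hc) n1 n2,
      key c c' q c' (hD c hc) (hD c' hc') (hD q hq) (hD c' hc') n6 n5]

lemma Star.mono {v : DV K} {I J : Finset K} (h : Star v J) (hIJ : I ⊆ J) : Star v I :=
  fun p hp q hq c hc c' hc' => h p (hIJ hp) q (hIJ hq) c (hIJ hc) c' (hIJ hc')

/-- size of the window -/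
def nY (d r : ℕ) : ℕ := (r + 1) * d ^ (r + 1) + 4 * r + 5

/-- **The window argument.** -/
theorem window [DecidableEq V] (hd : 2 ≤ f.natDegree) (h : Orbit f x N) {T : Finset V}
    (hT : Adm0 P f h.X T) (hker : ∀ y, P.D y = 0 → ∃ c : k, algebraMap k K c = y)
    (hconst : ∀ v, ∀ c : k, c ≠ 0 → (P.pl v).o (algebraMap k K c) = 0) {r : ℕ} (hr : 1 ≤ r)
    (hN : (nY f.natDegree r + r + 1) + (nY f.natDegree r + r + 1).factorial ≤ N)
    {A δ : ℝ} (hA : 1 ≤ A) (hδ : 0 < δ)
    (hloc : ∀ v ∈ T, ∀ I ⊆ h.X, I.card = 2 * (r + 1) → LocHyp (P.pl v) f h.X I A δ) :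
    ((A - 1) / 3 - 2 * ((f.natDegree : ℝ) ^ 2 + f.natDegree)) *
      ∑ v ∈ T, (eps (P.pl v) f h.X : ℝ) ≤ 2 * P.E := by
  classical
  set W := nY f.natDegree r + r + 1 with hW
  set Λ := range (nY f.natDegree r) with hΛ
  have hΛc : Λ.card = nY f.natDegree r := card_range _
  have hW0 := W.factorial_pos
  have hHn : 0 ≤ ∑ v ∈ T, (eps (P.pl v) f h.X : ℝ) := sum_nonneg fun _ _ => NNReal.coe_nonneg _
  set H := ∑ v ∈ T, (eps (P.pl v) f h.X : ℝ) with hH
  have hEn : (0 : ℝ) ≤ P.E := Nat.cast_nonneg _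
  have hXsub : (range (W + 1)).image x ⊆ h.X := by
    intro y hy
    obtain ⟨i, _, rfl⟩ := mem_image.mp hy
    exact h.mem_X i
  -- the main case
  have hmain : ∀ I ⊆ (range (W + 1)).image x, I.card = 2 * (r + 1) → (hankel P.D I r).det ≠ 0 →
      ((A - 1) / 3 - 2 * ((f.natDegree : ℝ) ^ 2 + f.natDegree)) * H ≤ 2 * P.E := by
    intro I hI hcard hdet
    obtain ⟨S, hS1, hS2⟩ := exists_nonstar hd h hT hN hI
    have h1 := main_ineq hd h.X_inv hT (hI.trans hXsub) hcard hdet hA hδ
      (fun v hv => hloc v hv I (hI.trans hXsub) hcard) S hS1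
    change (A - 1) / 3 * H ≤ _ at h1
    change (S.card : ℝ) ≤ ((f.natDegree : ℝ) ^ 2 + f.natDegree) * H at hS2
    linarith
  by_cases hc1 : ∃ I ⊆ Λ.image x, I.card = 2 * r + 2 ∧ (hankel P.D I r).det ≠ 0
  · obtain ⟨I, hI, hcard, hdet⟩ := hc1
    refine hmain I (hI.trans (image_subset_image ?_)) (by omega) hdet
    intro i hi
    rw [hΛ, mem_range] at hi
    rw [mem_range]
    omega
  by_cases hc2 : ∃ I ⊆ Λ.image (fun j => x (j + (r + 1))), I.card = 2 * r + 2 ∧
      (hankel P.D I r).det ≠ 0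
  · obtain ⟨I, hI, hcard, hdet⟩ := hc2
    refine hmain I (hI.trans ?_) (by omega) hdet
    intro y hy
    obtain ⟨i, hi, rfl⟩ := mem_image.mp hy
    rw [hΛ, mem_range] at hi
    apply mem_image.mpr
    exact ⟨i + (r + 1), mem_range.mpr (by omega), rfl⟩
  push Not at hc1 hc2
  have r1 : Rel P.D r (Λ.image x) := dichotomy' P.D r _ hc1
  have r2 : Rel P.D r (Λ.image fun j => x (j + (r + 1))) := dichotomy' P.D r _ hc2
  obtain ⟨Λ', hΛ', hcard', hstar⟩ := star_of_rel hd h hker hconst (Λ := Λ) (by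
    rw [hΛc]; unfold nY; omega) (by
    intro j hj
    rw [hΛ, mem_range] at hj
    omega) r1 r2
  have hinj2 : Set.InjOn (fun j => x (j + (r + 1))) (Λ' : Set ℕ) := fun i hi j hj e => by
    have hi' := mem_range.mp (hΛ' hi)
    have hj' := mem_range.mp (hΛ' hj)
    have := h.inj (i + (r + 1)) (j + (r + 1)) (by omega) (by omega) e
    omega
  have hc3 : (Λ'.image fun j => x (j + (r + 1))).card = Λ'.card := card_image_of_injOn hinj2
  obtain ⟨I, hI, hIc⟩ := exists_subset_card_eq (s := Λ'.image fun j => x (j + (r + 1)))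
    (n := 2 * (r + 1)) (by
      rw [hc3]
      rw [hΛc] at hcard'
      unfold nY at hcard'
      have := Nat.zero_le ((r + 1) * f.natDegree ^ (r + 1))
      omega)
  have hIX : I ⊆ h.X := by
    intro y hy
    obtain ⟨i, _, rfl⟩ := mem_image.mp (hI hy)
    exact h.mem_X _
  have h0 := sum_eps_of_star hd h.X_inv hT hIX hr hIc hA hδ
    (fun v hv => hloc v hv I hIX hIc) (fun v _ => Star.mono (hstar v) hI)
  have hH0 : H = 0 := le_antisymm h0 hHn
  rw [hH0, mul_zero]
  positivity

end win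

end Pool.Agent.Helper93.SU
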